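import Mathlib

/-!
# MP_db21b4_co: the extremal number of the bowtie

`ex(n, bowtie) ≤ ⌊n²/4⌋ + 1` for every `n ≥ 5`.
-/

namespace Pool.Agent.R204.DB

open SimpleGraph Finset

/-- The bowtie: the triangles `{0,1,2}` and `{0,3,4}`, sharing the center `0`. -/
def bowtie : SimpleGraph (Fin 5) :=
  SimpleGraph.fromRel (fun u v => u = 0 ∨ (u = 1 ∧ v = 2) ∨ (u = 3 ∧ v = 4))

lemma bowtie_adj (u v : Fin 5) : bowtie.Adj u v ↔
    (u ≠ v ∧ ((u = 0 ∨ (u = 1 ∧ v = 2) ∨ (u = 3 ∧ v = 4)) ∨
      (v = 0 ∨ (v = 1 ∧ u = 2) ∨ (v = 3 ∧ u = 4)))) := by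
  unfold bowtie
  rw [SimpleGraph.fromRel_adj]

lemma not_free {V : Type*} (G : SimpleGraph V) {v a b c d : V} (hva : G.Adj v a)
    (hvb : G.Adj v b) (hvc : G.Adj v c) (hvd : G.Adj v d) (hab : G.Adj a b) (hcd : G.Adj c d)
    (hac : a ≠ c) (had : a ≠ d) (hbc : b ≠ c) (hbd : b ≠ d) : ¬ bowtie.Free G := by
  intro hf
  apply hf
  refine ⟨⟨⟨![v, a, b, c, d], ?_⟩, ?_⟩⟩
  · intro x y hxy
    rw [bowtie_adj] at hxy
    fin_cases x <;> fin_cases y <;> simp at hxy <;>
      first
        | exact hva | exact hvb | exact hvc | exact hvd | exact hab | exact hcd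
        | exact hva.symm | exact hvb.symm | exact hvc.symm | exact hvd.symm
        | exact hab.symm | exact hcd.symm
  · intro x y hxy
    have h1 := hva.ne
    have h2 := hvb.ne
    have h3 := hvc.ne
    have h4 := hvd.ne
    have h5 := hab.ne
    have h6 := hcd.ne
    fin_cases x <;> fin_cases y <;> first
      | rfl
      | (exfalso; first
          | exact h1 hxy | exact h2 hxy | exact h3 hxy | exact h4 hxy | exact h5 hxy
          | exact h6 hxy | exact hac hxy | exact had hxy | exact hbc hxy | exact hbd hxy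
          | exact h1 hxy.symm | exact h2 hxy.symm | exact h3 hxy.symm | exact h4 hxy.symm
          | exact h5 hxy.symm
          | exact h6 hxy.symm | exact hac hxy.symm | exact had hxy.symm
          | exact hbc hxy.symm | exact hbd hxy.symm)

/-- A bowtie-free graph on `n ≥ 6` vertices has a vertex of degree at most `⌊n/2⌋`. -/
lemma exists_small_degree {V : Type*} [Fintype V] [DecidableEq V] (G : SimpleGraph V)
    [DecidableRel G.Adj] (hn : 6 ≤ Fintype.card V) (hG : bowtie.Free G) :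
    ∃ v, G.degree v ≤ Fintype.card V / 2 := by
  by_contra hcon
  push Not at hcon
  set n := Fintype.card V with hndef
  -- common neighbours
  have hcommon : ∀ u v : V, G.degree u + G.degree v ≤
      n + (G.neighborFinset u ∩ G.neighborFinset v).card := by
    intro u v
    have h1 := Finset.card_inter_add_card_union (G.neighborFinset u) (G.neighborFinset v)
    have h2 : (G.neighborFinset u ∪ G.neighborFinset v).card ≤ n := Finset.card_le_univ _
    rw [G.card_neighborFinset_eq_degree, G.card_neighborFinset_eq_degree] at h1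
    omega
  have hdeg4 : ∀ v, 4 ≤ (G.neighborFinset v).card := by
    intro v
    rw [G.card_neighborFinset_eq_degree]
    have := hcon v
    omega
  -- a further vertex in a neighbourhood
  have hfresh : ∀ v, ∀ s : Finset V, s.card ≤ 3 → ∃ z, G.Adj v z ∧ z ∉ s := by
    intro v s hs
    have h4 := hdeg4 v
    obtain ⟨z, hz1, hz2⟩ := Finset.exists_mem_notMem_of_card_lt_card
      (s := s) (t := G.neighborFinset v) (by omega)
    exact ⟨z, by simpa using hz1, hz2⟩
  have h3 : ∀ a b c : V, ({a, b, c} : Finset V).card ≤ 3 := fun a b c => Finset.card_le_three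
  have htwo : ∀ v a b c d : V, G.Adj v a → G.Adj v b → G.Adj v c → G.Adj v d → G.Adj a b →
      G.Adj c d → a ≠ c → a ≠ d → b ≠ c → b ≠ d → False := by
    intro v a b c d h1 h2 h3 h4 h5 h6 h7 h8 h9 h10
    exact not_free G h1 h2 h3 h4 h5 h6 h7 h8 h9 h10 hG
  -- if every neighbour of `v` has two common neighbours with `v`, contradiction
  have hB : ∀ v, (∀ u, G.Adj v u → 2 ≤ (G.neighborFinset u ∩ G.neighborFinset v).card) →
      False := by
    intro v hv
    obtain ⟨u, hu, -⟩ := hfresh v ∅ (by simp)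
    obtain ⟨x, hx, y, hy, hxy⟩ := Finset.one_lt_card.mp (hv u hu)
    simp only [Finset.mem_inter, mem_neighborFinset] at hx hy
    obtain ⟨z, hz, hz'⟩ := hfresh v {u, x, y} (h3 _ _ _)
    simp only [Finset.mem_insert, Finset.mem_singleton, not_or] at hz'
    obtain ⟨hzu, hzx, hzy⟩ := hz'
    obtain ⟨p, hp, q, hq, hpq⟩ := Finset.one_lt_card.mp (hv z hz)
    simp only [Finset.mem_inter, mem_neighborFinset] at hp hq
    -- wlog p ≠ u
    obtain ⟨p, hp, hpu⟩ : ∃ p, (G.Adj z p ∧ G.Adj v p) ∧ p ≠ u := by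
      by_cases h : p = u
      · exact ⟨q, hq, fun hh => hpq (h.trans hh.symm)⟩
      · exact ⟨p, hp, h⟩
    by_cases hpx : p = x
    · -- use edge u y
      exact htwo v z p u y hz hp.2 hu hy.2 hp.1 hy.1 hzu hzy hpu
        (fun hh => hxy (hpx.symm.trans hh))
    · exact htwo v z p u x hz hp.2 hu hx.2 hp.1 hx.1 hzu hzx hpu hpx
  -- n is odd and the graph is (n+1)/2-regular
  obtain ⟨v0⟩ : Nonempty V := Fintype.card_pos_iff.mp (by omega)
  have hodd : n % 2 = 1 := by
    by_contra hpar
    apply hB v0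
    intro u hu
    have h1 := hcommon u v0
    have h2 := hcon u
    have h3 := hcon v0
    omega
  have hreg : ∀ v, G.degree v = n / 2 + 1 := by
    intro v
    by_contra hne
    apply hB v
    intro u hu
    have h1 := hcommon u v
    have h2 := hcon u
    have h3 := hcon v
    omega
  have hone : ∀ v u, G.Adj v u → ∃ y, G.Adj u y ∧ G.Adj v y := by
    intro v u hu
    have h1 := hcommon u v
    have h2 := hreg u
    have h3 := hreg v
    have h4 : 0 < (G.neighborFinset u ∩ G.neighborFinset v).card := by omega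
    obtain ⟨y, hy⟩ := Finset.card_pos.mp h4
    simp only [Finset.mem_inter, mem_neighborFinset] at hy
    exact ⟨y, hy⟩
  -- star structure
  have hstar : ∀ v, ∃ w, G.Adj v w ∧ (∀ z, G.Adj v z → z ≠ w → G.Adj w z) ∧
      (∀ p q, G.Adj v p → G.Adj v q → p ≠ w → q ≠ w → ¬ G.Adj p q) := by
    intro v
    -- it suffices to find w adjacent to all others
    suffices hs : ∃ w, G.Adj v w ∧ (∀ z, G.Adj v z → z ≠ w → G.Adj w z) by
      obtain ⟨w, hw, hw'⟩ := hs
      refine ⟨w, hw, hw', ?_⟩
      intro p q hp hq hpw hqw hpq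
      obtain ⟨r, hr, hr'⟩ := hfresh v {w, p, q} (h3 _ _ _)
      simp only [Finset.mem_insert, Finset.mem_singleton, not_or] at hr'
      obtain ⟨hrw, hrp, hrq⟩ := hr'
      exact htwo v w r p q hw hr hp hq (hw' r hr hrw) hpq (Ne.symm hpw) (Ne.symm hqw) hrp hrq
    obtain ⟨a, ha, -⟩ := hfresh v ∅ (by simp)
    obtain ⟨b, hab, hb⟩ := hone v a ha
    obtain ⟨x, hx, hx'⟩ := hfresh v {a, b, b} (h3 _ _ _)
    simp only [Finset.mem_insert, Finset.mem_singleton, not_or] at hx'
    obtain ⟨hxa, hxb, -⟩ := hx'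
    obtain ⟨y, hxy, hy⟩ := hone v x hx
    -- y is a or b; rename to get w, w'
    obtain ⟨w, w', hw, hw', hww', hxw, hxw', hadj⟩ : ∃ w w', G.Adj v w ∧ G.Adj v w' ∧
        G.Adj w w' ∧ x ≠ w ∧ x ≠ w' ∧ G.Adj x w := by
      by_cases hya : y = a
      · exact ⟨a, b, ha, hb, hab, hxa, hxb, hya ▸ hxy⟩
      · by_cases hyb : y = b
        · exact ⟨b, a, hb, ha, hab.symm, hxb, hxa, hyb ▸ hxy⟩
        · exact (htwo v x y a b hx hy ha hb hxy hab hxa hxb hya hyb).elim
    refine ⟨w, hw, ?_⟩
    intro z hz hzw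
    by_cases hzw' : z = w'
    · exact hzw' ▸ hww'
    by_cases hzx : z = x
    · exact hzx ▸ hadj.symm
    obtain ⟨t, hzt, ht⟩ := hone v z hz
    by_cases htw : t = w
    · exact (htw ▸ hzt).symm
    exfalso
    by_cases htw' : t = w'
    · -- edges z w' and x w
      exact htwo v z t x w hz ht hx hw hzt hadj hzx hzw
        (fun hh => hxw' (hh.symm.trans htw')) htw
    · exact htwo v z t w w' hz ht hw hw' hzt hww' hzw hzw' htw htw'
  obtain ⟨w, hw, hwall, hind⟩ := hstar v0
  -- closed neighbourhoods agree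
  have hsub : insert v0 (G.neighborFinset v0) ⊆ insert w (G.neighborFinset w) := by
    intro z hz
    simp only [Finset.mem_insert, mem_neighborFinset] at hz ⊢
    rcases hz with rfl | hz
    · exact Or.inr hw.symm
    · by_cases hzw : z = w
      · exact Or.inl hzw
      · exact Or.inr (hwall z hz hzw)
  have heq : insert v0 (G.neighborFinset v0) = insert w (G.neighborFinset w) := by
    apply Finset.eq_of_subset_of_card_le hsub
    rw [Finset.card_insert_of_notMem (by simp), Finset.card_insert_of_notMem (by simp),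
      G.card_neighborFinset_eq_degree, G.card_neighborFinset_eq_degree, hreg, hreg]
  have hsymm : ∀ z, G.Adj w z → z = v0 ∨ G.Adj v0 z := by
    intro z hz
    have : z ∈ insert w (G.neighborFinset w) := by simp [hz]
    rw [← heq] at this
    simpa using this
  obtain ⟨x, hx, hx'⟩ := hfresh v0 {w, w, w} (h3 _ _ _)
  simp only [Finset.mem_insert, Finset.mem_singleton, not_or] at hx'
  have hxw := hx'.1
  obtain ⟨p, hp, hp'⟩ := hfresh x {v0, w, w} (h3 _ _ _)
  simp only [Finset.mem_insert, Finset.mem_singleton, not_or] at hp'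
  obtain ⟨hpv, hpw, -⟩ := hp'
  have hnpv : ¬ G.Adj v0 p := fun h => hind x p hx h hxw hpw hp
  have hnpw : ¬ G.Adj w p := fun h => (hsymm p h).elim hpv hnpv
  obtain ⟨y, hpy, hxy⟩ := hone x p hp
  have hyv : y ≠ v0 := fun hh => hnpv (hh ▸ hpy).symm
  have hyw : y ≠ w := fun hh => hnpw (hh ▸ hpy).symm
  exact htwo x p y v0 w hp hxy hx.symm (hwall x hx hxw).symm hpy hw hpv hpw hyv hyw

/-- A Boolean check used below. -/
def chk (b01 b02 b03 b04 b12 b13 b14 b23 b24 b34 : Bool) : Bool :=
  (b01 && b02 && b03 && b04 && ((b12 && b34) || (b13 && b24) || (b14 && b23))) ||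
  (b01 && b12 && b13 && b14 && ((b02 && b34) || (b03 && b24) || (b04 && b23))) ||
  (b02 && b12 && b23 && b24 && ((b01 && b34) || (b03 && b14) || (b04 && b13))) ||
  (b03 && b13 && b23 && b34 && ((b01 && b24) || (b02 && b14) || (b04 && b12))) ||
  (b04 && b14 && b24 && b34 && ((b01 && b23) || (b02 && b13) || (b03 && b12))) ||
  Nat.ble (b01.toNat + b02.toNat + b03.toNat + b04.toNat + b12.toNat + b13.toNat + b14.toNat +
      b23.toNat + b24.toNat + b34.toNat) 7

lemma key5' : ∀ b01 b02 b03 b04 b12 b13 b14 b23 b24 b34 : Bool,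
    chk b01 b02 b03 b04 b12 b13 b14 b23 b24 b34 = true := by
  decide +kernel

lemma key5 (b01 b02 b03 b04 b12 b13 b14 b23 b24 b34 : Bool)
    (h0 : ¬ (b01 && b02 && b03 && b04 && ((b12 && b34) || (b13 && b24) || (b14 && b23))) = true)
    (h1 : ¬ (b01 && b12 && b13 && b14 && ((b02 && b34) || (b03 && b24) || (b04 && b23))) = true)
    (h2 : ¬ (b02 && b12 && b23 && b24 && ((b01 && b34) || (b03 && b14) || (b04 && b13))) = true)
    (h3 : ¬ (b03 && b13 && b23 && b34 && ((b01 && b24) || (b02 && b14) || (b04 && b12))) = true)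
    (h4 : ¬ (b04 && b14 && b24 && b34 && ((b01 && b23) || (b02 && b13) || (b03 && b12))) = true) :
    b01.toNat + b02.toNat + b03.toNat + b04.toNat + b12.toNat + b13.toNat + b14.toNat +
      b23.toNat + b24.toNat + b34.toNat ≤ 7 := by
  have h := key5' b01 b02 b03 b04 b12 b13 b14 b23 b24 b34
  unfold chk at h
  rw [Bool.not_eq_true] at h0 h1 h2 h3 h4
  rw [h0, h1, h2, h3, h4] at h
  simpa using h

lemma edges_five (G : SimpleGraph (Fin 5)) [DecidableRel G.Adj] (hG : bowtie.Free G) :
    #G.edgeFinset ≤ 7 := by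
  have h2 := G.sum_degrees_eq_twice_card_edges
  have hdeg : ∀ v, G.degree v = ∑ w, (decide (G.Adj v w)).toNat := by
    intro v
    rw [← G.card_neighborFinset_eq_degree, G.neighborFinset_eq_filter, Finset.card_filter]
    apply Finset.sum_congr rfl
    intro w _
    by_cases h : G.Adj v w <;> simp [h]
  simp only [hdeg, Fin.sum_univ_five] at h2
  have hs : ∀ u v, decide (G.Adj u v) = decide (G.Adj v u) := by
    intro u v
    exact decide_eq_decide.mpr (G.adj_comm u v)
  have h0 : ∀ u, decide (G.Adj u u) = false := by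
    intro u
    simp
  rw [h0 0, h0 1, h0 2, h0 3, h0 4, hs 1 0, hs 2 0, hs 2 1, hs 3 0, hs 3 1, hs 3 2,
    hs 4 0, hs 4 1, hs 4 2, hs 4 3] at h2
  have hno : ∀ v a b c d : Fin 5, a ≠ c → a ≠ d → b ≠ c → b ≠ d →
      G.Adj v a → G.Adj v b → G.Adj v c → G.Adj v d → G.Adj a b → G.Adj c d → False := by
    intro v a b c d h1 h2 h3 h4 h5 h6 h7 h8 h9 h10
    exact not_free G h5 h6 h7 h8 h9 h10 h1 h2 h3 h4 hG
  have hk := key5 (decide (G.Adj 0 1)) (decide (G.Adj 0 2)) (decide (G.Adj 0 3))
    (decide (G.Adj 0 4)) (decide (G.Adj 1 2)) (decide (G.Adj 1 3)) (decide (G.Adj 1 4))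
    (decide (G.Adj 2 3)) (decide (G.Adj 2 4)) (decide (G.Adj 3 4))
  simp only [Bool.and_eq_true, Bool.or_eq_true, decide_eq_true_eq] at hk
  have := hk
    (by
      rintro ⟨⟨⟨⟨h1, h2⟩, h3⟩, h4⟩, (⟨h5, h6⟩ | ⟨h5, h6⟩) | ⟨h5, h6⟩⟩
      · exact hno 0 1 2 3 4 (by decide) (by decide) (by decide) (by decide) h1 h2 h3 h4 h5 h6
      · exact hno 0 1 3 2 4 (by decide) (by decide) (by decide) (by decide) h1 h3 h2 h4 h5 h6
      · exact hno 0 1 4 2 3 (by decide) (by decide) (by decide) (by decide) h1 h4 h2 h3 h5 h6)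
    (by
      rintro ⟨⟨⟨⟨h1, h2⟩, h3⟩, h4⟩, (⟨h5, h6⟩ | ⟨h5, h6⟩) | ⟨h5, h6⟩⟩
      · exact hno 1 0 2 3 4 (by decide) (by decide) (by decide) (by decide)
          h1.symm h2 h3 h4 h5 h6
      · exact hno 1 0 3 2 4 (by decide) (by decide) (by decide) (by decide)
          h1.symm h3 h2 h4 h5 h6
      · exact hno 1 0 4 2 3 (by decide) (by decide) (by decide) (by decide)
          h1.symm h4 h2 h3 h5 h6)
    (by
      rintro ⟨⟨⟨⟨h1, h2⟩, h3⟩, h4⟩, (⟨h5, h6⟩ | ⟨h5, h6⟩) | ⟨h5, h6⟩⟩
      · exact hno 2 0 1 3 4 (by decide) (by decide) (by decide) (by decide)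
          h1.symm h2.symm h3 h4 h5 h6
      · exact hno 2 0 3 1 4 (by decide) (by decide) (by decide) (by decide)
          h1.symm h3 h2.symm h4 h5 h6
      · exact hno 2 0 4 1 3 (by decide) (by decide) (by decide) (by decide)
          h1.symm h4 h2.symm h3 h5 h6)
    (by
      rintro ⟨⟨⟨⟨h1, h2⟩, h3⟩, h4⟩, (⟨h5, h6⟩ | ⟨h5, h6⟩) | ⟨h5, h6⟩⟩
      · exact hno 3 0 1 2 4 (by decide) (by decide) (by decide) (by decide)
          h1.symm h2.symm h3.symm h4 h5 h6
      · exact hno 3 0 2 1 4 (by decide) (by decide) (by decide) (by decide)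
          h1.symm h3.symm h2.symm h4 h5 h6
      · exact hno 3 0 4 1 2 (by decide) (by decide) (by decide) (by decide)
          h1.symm h4 h2.symm h3.symm h5 h6)
    (by
      rintro ⟨⟨⟨⟨h1, h2⟩, h3⟩, h4⟩, (⟨h5, h6⟩ | ⟨h5, h6⟩) | ⟨h5, h6⟩⟩
      · exact hno 4 0 1 2 3 (by decide) (by decide) (by decide) (by decide)
          h1.symm h2.symm h3.symm h4.symm h5 h6
      · exact hno 4 0 2 1 3 (by decide) (by decide) (by decide) (by decide)
          h1.symm h3.symm h2.symm h4.symm h5 h6
      · exact hno 4 0 3 1 2 (by decide) (by decide) (by decide) (by decide)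
          h1.symm h4.symm h2.symm h3.symm h5 h6)
  simp only [Bool.toNat_false] at h2
  omega

/-- `ex(n, bowtie) ≤ ⌊n²/4⌋ + 1` for `n ≥ 5`. -/
theorem extremalNumber_bowtie_le : ∀ n : ℕ, 5 ≤ n →
    extremalNumber n bowtie ≤ n ^ 2 / 4 + 1 := by
  intro n hn
  induction n, hn using Nat.le_induction with
  | base =>
    have := (extremalNumber_le_iff (V := Fin 5) bowtie 7).mpr
      (fun G _ hG => edges_five G hG)
    simpa using this
  | succ n hn ih =>
    have key := (extremalNumber_le_iff (V := Fin (n + 1)) bowtie ((n + 1) ^ 2 / 4 + 1)).mpr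
      (by
        intro G _ hG
        obtain ⟨v, hv⟩ := exists_small_degree G (by simp; omega) hG
        have h1 := card_edgeFinset_deleteIncidenceSet_le_extremalNumber hG v
        rw [G.card_edgeFinset_deleteIncidenceSet] at h1
        simp only [Fintype.card_fin, Nat.add_sub_cancel] at h1 hv
        have h2 : n ^ 2 / 4 + (n + 1) / 2 = (n + 1) ^ 2 / 4 := by
          rcases Nat.even_or_odd' n with ⟨k, rfl | rfl⟩
          · have e1 : (2 * k) ^ 2 / 4 = k ^ 2 := by
              rw [show (2 * k) ^ 2 = k ^ 2 * 4 by ring]; simp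
            have e2 : (2 * k + 1) ^ 2 / 4 = k ^ 2 + k := by
              rw [show (2 * k + 1) ^ 2 = 1 + (k ^ 2 + k) * 4 by ring,
                Nat.add_mul_div_right _ _ (by norm_num)]
              simp
            rw [e1, e2]
            omega
          · have e1 : (2 * k + 1) ^ 2 / 4 = k ^ 2 + k := by
              rw [show (2 * k + 1) ^ 2 = 1 + (k ^ 2 + k) * 4 by ring,
                Nat.add_mul_div_right _ _ (by norm_num)]
              simp
            have e2 : (2 * k + 1 + 1) ^ 2 / 4 = k ^ 2 + 2 * k + 1 := by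
              rw [show (2 * k + 1 + 1) ^ 2 = (k ^ 2 + 2 * k + 1) * 4 by ring]; simp
            rw [e1, e2]
            omega
        omega)
    simpa using key

end Pool.Agent.R204.DB
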