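import Mathlib

/-!
Degree-sequence-forcing sets: the general counting lemma and the translation between
finite graphs up to isomorphism and induced subgraphs of one ambient graph.
Idea of the proof: helper42.
-/

namespace Pool.Agent.R204.DGP

open Finset
open scoped Classical

/-- Finite simple graphs (on the vertex sets `Fin n`). -/
abbrev FG := Σ n : ℕ, SimpleGraph (Fin n)

/-- The degree sequence of a graph, as the multiset of its vertex degrees. -/
noncomputable def degSeq (H : FG) : Multiset ℕ :=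
  (Finset.univ : Finset (Fin H.1)).val.map
    fun v => (Finset.univ.filter fun u => H.2.Adj v u).card

/-- `H` induces `G`: some induced subgraph of `H` is isomorphic to `G`. -/
def Induces (H G : FG) : Prop := Nonempty (G.2 ↪g H.2)

/-- The class `P(G)`: graphs with a realization of the same degree sequence inducing `G`. -/
def PG (G : FG) : Set FG := {H | ∃ H' : FG, degSeq H' = degSeq H ∧ Induces H' G}

/-- The set `D(G)` of the minimal elements of `P(G)`: no proper induced subgraph lies in
`P(G)`. -/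
def DG (G : FG) : Set FG :=
  {H | H ∈ PG G ∧ ∀ H' : FG, H'.1 < H.1 → Induces H H' → H' ∉ PG G}

section ambient

variable {U V : Type*}

/-- degree inside `K` -/
noncomputable def degK (H : SimpleGraph V) (K : Finset V) (v : V) : ℕ :=
  (K.filter fun u => H.Adj v u).card

/-- some graph with the same degrees inside `K` contains `G` inside `K` -/
def PPK (G : SimpleGraph U) (H : SimpleGraph V) (K : Finset V) : Prop :=
  ∃ R : SimpleGraph V, (∀ v ∈ K, degK R K v = degK H K v) ∧ ∃ f : G ↪g R, ∀ x, f x ∈ K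

noncomputable def dfA (H : SimpleGraph V) (K A B : Finset V) : Finset (V × V) :=
  (A ×ˢ (K \ B)).filter fun p => p.1 ≠ p.2 ∧ ¬ H.Adj p.1 p.2

noncomputable def dfB (H : SimpleGraph V) (K A B : Finset V) : Finset (V × V) :=
  (B ×ˢ (K \ A)).filter fun p => H.Adj p.1 p.2

lemma mem_dfA {H : SimpleGraph V} {K A B : Finset V} {a v : V} :
    (a, v) ∈ dfA H K A B ↔ (a ∈ A ∧ v ∈ K ∧ v ∉ B) ∧ a ≠ v ∧ ¬ H.Adj a v := by
  rw [dfA, Finset.mem_filter, Finset.mem_product, Finset.mem_sdiff]

lemma mem_dfB {H : SimpleGraph V} {K A B : Finset V} {a v : V} :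
    (a, v) ∈ dfB H K A B ↔ (a ∈ B ∧ v ∈ K ∧ v ∉ A) ∧ H.Adj a v := by
  rw [dfB, Finset.mem_filter, Finset.mem_product, Finset.mem_sdiff]

lemma df_formula (H : SimpleGraph V) {K A B : Finset V} (hA : A ⊆ K) (hB : B ⊆ K)
    (hd : Disjoint A B) :
    ((dfA H K A B).card : ℤ) + (dfB H K A B).card
      = ∑ a ∈ A, (((K \ B).card : ℤ) - 1 - degK H K a) + ∑ b ∈ B, (degK H K b : ℤ) := by
  set h : V → V → ℤ := fun a v => if H.Adj a v then 1 else 0 with hh
  have hdeg : ∀ a, (degK H K a : ℤ) = ∑ v ∈ K, h a v := by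
    intro a
    rw [degK, Finset.card_filter]
    push_cast
    rfl
  have h1 : ((dfA H K A B).card : ℤ) = ∑ a ∈ A, (((K \ B).card : ℤ) - 1 - degK H K a
      + ∑ v ∈ B, h a v) := by
    rw [dfA, Finset.card_filter, Finset.sum_product]
    push_cast
    apply Finset.sum_congr rfl
    intro a ha
    have haB : a ∉ B := Finset.disjoint_left.mp hd ha
    have haK : a ∈ K \ B := Finset.mem_sdiff.mpr ⟨hA ha, haB⟩
    have e1 : ∀ v ∈ K \ B, (if a ≠ v ∧ ¬ H.Adj a v then (1:ℤ) else 0)
        = 1 - h a v - (if v = a then 1 else 0) := by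
      intro v _
      by_cases hva : v = a
      · subst hva
        simp [hh]
      · have : a ≠ v := fun e => hva e.symm
        by_cases hadj : H.Adj a v
        · simp [hh, hadj, hva]
        · simp [hh, hadj, hva, this]
    rw [Finset.sum_congr rfl e1, Finset.sum_sub_distrib, Finset.sum_sub_distrib,
      Finset.sum_ite_eq' (K \ B) a, if_pos haK, hdeg a,
      ← Finset.sum_sdiff hB (f := fun v => h a v)]
    simp
    ring
  have h2 : ((dfB H K A B).card : ℤ) = ∑ b ∈ B, ((degK H K b : ℤ) - ∑ v ∈ A, h b v) := by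
    rw [dfB, Finset.card_filter, Finset.sum_product]
    push_cast
    apply Finset.sum_congr rfl
    intro b _
    rw [hdeg b, ← Finset.sum_sdiff hA (f := fun v => h b v)]
    simp [hh]
  have h3 : ∑ a ∈ A, ∑ v ∈ B, h a v = ∑ b ∈ B, ∑ v ∈ A, h b v := by
    rw [Finset.sum_comm]
    apply Finset.sum_congr rfl
    intro b _
    apply Finset.sum_congr rfl
    intro a _
    simp only [hh, H.adj_comm]
  rw [h1, h2, Finset.sum_add_distrib, h3, Finset.sum_sub_distrib (s := B)]
  ring

lemma df_eq {H R : SimpleGraph V} {K A B : Finset V} (hA : A ⊆ K) (hB : B ⊆ K)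
    (hd : Disjoint A B) (hR : ∀ v ∈ K, degK R K v = degK H K v) :
    (dfA R K A B).card + (dfB R K A B).card = (dfA H K A B).card + (dfB H K A B).card := by
  have h1 := df_formula H hA hB hd
  have h2 := df_formula R hA hB hd
  have h3 : ∑ a ∈ A, (((K \ B).card : ℤ) - 1 - degK R K a)
      = ∑ a ∈ A, (((K \ B).card : ℤ) - 1 - degK H K a) :=
    Finset.sum_congr rfl fun a ha => by rw [hR a (hA ha)]
  have h4 : ∑ b ∈ B, (degK R K b : ℤ) = ∑ b ∈ B, (degK H K b : ℤ) :=
    Finset.sum_congr rfl fun b hb => by rw [hR b (hB hb)]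
  rw [h3, h4] at h2
  have := h2.trans h1.symm
  exact_mod_cast this

/-- monotonicity in `K` -/
lemma PPK.mono {G : SimpleGraph U} {H : SimpleGraph V} {K L : Finset V} (hKL : K ⊆ L)
    (h : PPK G H K) : PPK G H L := by
  obtain ⟨R, hR, f, hf⟩ := h
  obtain ⟨R', hin, hout⟩ : ∃ R' : SimpleGraph V,
      (∀ u v, u ∈ K → v ∈ K → (R'.Adj u v ↔ R.Adj u v)) ∧
      (∀ u v, ¬ (u ∈ K ∧ v ∈ K) → (R'.Adj u v ↔ H.Adj u v)) := by
    let R' : SimpleGraph V :=
      { Adj := fun u v => if u ∈ K ∧ v ∈ K then R.Adj u v else H.Adj u v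
        symm := ⟨by
          intro u v huv
          by_cases hu : u ∈ K <;> by_cases hv : v ∈ K <;>
            simp only [hu, hv, and_self, and_true, and_false, if_true, if_false] at huv ⊢ <;>
            exact huv.symm⟩
        loopless := ⟨by
          intro u hu
          by_cases huK : u ∈ K
          · simp [huK] at hu
          · simp [huK] at hu⟩ }
    refine ⟨R', ?_, ?_⟩
    · intro u v hu hv
      change (if u ∈ K ∧ v ∈ K then R.Adj u v else H.Adj u v) ↔ _
      simp [hu, hv]
    · intro u v h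
      change (if u ∈ K ∧ v ∈ K then R.Adj u v else H.Adj u v) ↔ _
      rw [if_neg h]
  have hsplit : ∀ (S : SimpleGraph V) (v : V),
      degK S L v = degK S K v + ((L \ K).filter fun u => S.Adj v u).card := by
    intro S v
    rw [degK, degK]
    have : (L.filter fun u => S.Adj v u)
        = (K.filter fun u => S.Adj v u) ∪ ((L \ K).filter fun u => S.Adj v u) := by
      rw [← Finset.filter_union, Finset.union_sdiff_of_subset hKL]
    rw [this, Finset.card_union_of_disjoint]
    exact Finset.disjoint_filter_filter Finset.disjoint_sdiff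
  refine ⟨R', ?_, ⟨f.toEmbedding, ?_⟩, fun x => hKL (hf x)⟩
  · intro v _
    by_cases hvK : v ∈ K
    · rw [hsplit R' v, hsplit H v]
      have e1 : degK R' K v = degK R K v := by
        rw [degK, degK]
        congr 1
        apply Finset.filter_congr
        intro u hu
        exact hin v u hvK hu
      have e2 : ((L \ K).filter fun u => R'.Adj v u) = ((L \ K).filter fun u => H.Adj v u) := by
        apply Finset.filter_congr
        intro u hu
        exact hout v u fun h => (Finset.mem_sdiff.mp hu).2 h.2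
      rw [e1, e2, hR v hvK]
    · rw [degK, degK]
      congr 1
      apply Finset.filter_congr
      intro u _
      exact hout v u fun h => hvK h.1
  · intro x y
    change R'.Adj (f x) (f y) ↔ G.Adj x y
    rw [hin _ _ (hf x) (hf y)]
    exact f.map_rel_iff

end ambient

/-- A graph with the same degree sequence can be moved to the same vertex set with the same
degree at every vertex. -/
lemma exists_equiv_of_degSeq {H H' : FG} (h : degSeq H' = degSeq H) :
    ∃ e : Fin H.1 ≃ Fin H'.1, ∀ v,
      (Finset.univ.filter fun u => H'.2.Adj (e v) u).card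
        = (Finset.univ.filter fun u => H.2.Adj v u).card := by
  set d : Fin H.1 → ℕ := fun v => (Finset.univ.filter fun u => H.2.Adj v u).card with hd
  set d' : Fin H'.1 → ℕ := fun v => (Finset.univ.filter fun u => H'.2.Adj v u).card with hd'
  have hfib : ∀ c : ℕ, Nonempty ({v // d v = c} ≃ {v // d' v = c}) := by
    intro c
    rw [← Fintype.card_eq]
    have h1 := congrArg (Multiset.count c) h
    rw [degSeq, degSeq, Multiset.count_map, Multiset.count_map] at h1
    rw [Fintype.card_subtype, Fintype.card_subtype]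
    have e1 : ∀ {n : ℕ} (g : Fin n → ℕ), (Finset.univ.filter fun v => g v = c).card
        = (Multiset.filter (fun a => c = g a) (Finset.univ : Finset (Fin n)).val).card := by
      intro n g
      rw [Finset.card_def, Finset.filter_val]
      congr 1
      apply Multiset.filter_congr
      intro x _
      exact eq_comm
    rw [e1, e1]
    exact h1.symm
  refine ⟨Equiv.ofFiberEquiv (f := d) (g := d') fun c => (hfib c).some, ?_⟩
  intro v
  have := Equiv.ofFiberEquiv_map (f := d) (g := d') (fun c => (hfib c).some) v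
  exact this

lemma degSeq_of_equiv {H H' : FG} (e : Fin H.1 ≃ Fin H'.1)
    (h : ∀ v, (Finset.univ.filter fun u => H'.2.Adj (e v) u).card
        = (Finset.univ.filter fun u => H.2.Adj v u).card) : degSeq H' = degSeq H := by
  rw [degSeq, degSeq]
  have : (Finset.univ : Finset (Fin H'.1)).val
      = (Finset.univ : Finset (Fin H.1)).val.map e := by
    have := Finset.map_univ_equiv e
    rw [← this]
    rfl
  rw [this, Multiset.map_map]
  apply Multiset.map_congr rfl
  intro v _
  exact h v

/-- Membership in `P(G)` of a graph embedded in an ambient graph. -/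
lemma mem_PG_iff {V : Type*} (G : FG) (H : SimpleGraph V) (X : FG) (g : X.2 ↪g H)
    (K : Finset V) (hK : K = Finset.univ.map g.toEmbedding) :
    X ∈ PG G ↔ PPK G.2 H K := by
  have hcard : ∀ (S : SimpleGraph V) (S' : SimpleGraph (Fin X.1)),
      (∀ x y, S'.Adj x y ↔ S.Adj (g x) (g y)) → ∀ x,
      (Finset.univ.filter fun u => S'.Adj x u).card = degK S K (g x) := by
    intro S S' hS x
    rw [degK, hK, Finset.filter_map, Finset.card_map]
    congr 1
    apply Finset.filter_congr
    intro y _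
    exact hS x y
  constructor
  · rintro ⟨H', hdeg, ⟨f⟩⟩
    obtain ⟨e, he⟩ := exists_equiv_of_degSeq hdeg
    -- the graph on `Fin X.1`
    let R1 : SimpleGraph (Fin X.1) := H'.2.comap e
    let R : SimpleGraph V := R1.map g.toEmbedding
    have hRR : ∀ x y, R1.Adj x y ↔ R.Adj (g x) (g y) := by
      intro x y
      exact (SimpleGraph.map_adj_apply (f := g.toEmbedding)).symm
    refine ⟨R, ?_, ?_⟩
    · intro v hv
      rw [hK, Finset.mem_map] at hv
      obtain ⟨x, _, rfl⟩ := hv
      change degK R K (g x) = degK H K (g x)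
      rw [← hcard R R1 hRR x, ← hcard H X.2 (fun x y => g.map_rel_iff.symm) x, ← he x]
      apply Finset.card_bij (fun y _ => e y)
      · intro y hy
        simpa [R1] using hy
      · intro y _ z _ hyz
        exact e.injective hyz
      · intro z hz
        refine ⟨e.symm z, ?_, by simp⟩
        simpa [R1] using hz
    · refine ⟨⟨(f.toEmbedding.trans e.symm.toEmbedding).trans g.toEmbedding, ?_⟩, ?_⟩
      · intro x y
        change R.Adj (g (e.symm (f x))) (g (e.symm (f y))) ↔ _
        rw [← hRR]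
        change H'.2.Adj (e (e.symm (f x))) (e (e.symm (f y))) ↔ _
        rw [e.apply_symm_apply, e.apply_symm_apply]
        exact f.map_rel_iff
      · intro x
        rw [hK, Finset.mem_map]
        exact ⟨e.symm (f x), Finset.mem_univ _, rfl⟩
  · rintro ⟨R, hR, f, hf⟩
    obtain ⟨R1, hRR⟩ : ∃ R1 : SimpleGraph (Fin X.1),
        ∀ x y, R1.Adj x y ↔ R.Adj (g x) (g y) := ⟨R.comap g, fun x y => Iff.rfl⟩
    refine ⟨⟨X.1, R1⟩, ?_, ?_⟩
    · apply degSeq_of_equiv (H := X) (H' := ⟨X.1, R1⟩) (Equiv.refl _)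
      intro v
      change (Finset.univ.filter fun u => R1.Adj v u).card = _
      rw [hcard R R1 hRR v, hcard H X.2 (fun x y => g.map_rel_iff.symm) v]
      apply hR
      rw [hK, Finset.mem_map]
      exact ⟨v, Finset.mem_univ _, rfl⟩
    · have hpre : ∀ x, ∃ y : Fin X.1, g y = f x := by
        intro x
        have := hf x
        rw [hK, Finset.mem_map] at this
        obtain ⟨y, _, hy⟩ := this
        exact ⟨y, hy⟩
      choose p hp using hpre
      refine ⟨⟨⟨p, ?_⟩, ?_⟩⟩
      · intro x y hxy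
        apply f.injective
        rw [← hp x, ← hp y, hxy]
      · intro x y
        change R1.Adj (p x) (p y) ↔ _
        rw [hRR, hp x, hp y]
        exact f.map_rel_iff

/-- A finite graph as an induced subgraph of an ambient graph. -/
lemma exists_FG {V : Type*} (H : SimpleGraph V) (K : Finset V) :
    ∃ X : FG, X.1 = K.card ∧ ∃ g : X.2 ↪g H, K = Finset.univ.map g.toEmbedding := by
  let e : Fin K.card ≃ K := K.equivFin.symm
  let g0 : Fin K.card ↪ V := e.toEmbedding.trans (Function.Embedding.subtype _)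
  refine ⟨⟨K.card, H.comap g0⟩, rfl, ⟨g0, ?_⟩, ?_⟩
  · intro x y
    exact Iff.rfl
  · ext v
    rw [Finset.mem_map]
    constructor
    · intro hv
      refine ⟨e.symm ⟨v, hv⟩, Finset.mem_univ _, ?_⟩
      change ((e (e.symm ⟨v, hv⟩) : K) : V) = v
      rw [e.apply_symm_apply]
    · rintro ⟨x, _, rfl⟩
      exact (e x).2

/-- If `PPK G H K` and `K` is large for every such `K`, then `D(G)` has a large member. -/
lemma exists_mem_DG {V : Type*} (G : FG) (H : SimpleGraph V) (K0 : Finset V)
    (h0 : PPK G.2 H K0) (N : ℕ) (hN : ∀ K ⊆ K0, PPK G.2 H K → N ≤ K.card) :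
    ∃ X ∈ DG G, N ≤ X.1 := by
  -- a subset of least size
  have hex : ∃ n, ∃ K ⊆ K0, PPK G.2 H K ∧ K.card = n := ⟨_, K0, subset_rfl, h0, rfl⟩
  obtain ⟨K, hK0, hK, hKc⟩ := Nat.find_spec hex
  have hmin : ∀ L ⊆ K0, PPK G.2 H L → K.card ≤ L.card := by
    intro L hL hPL
    rw [hKc]
    exact Nat.find_min' hex ⟨L, hL, hPL, rfl⟩
  obtain ⟨X, hXc, g, hg⟩ := exists_FG H K
  refine ⟨X, ⟨(mem_PG_iff G H X g K hg).mpr hK, ?_⟩, hXc ▸ hN K hK0 hK⟩
  rintro Y hYX ⟨q⟩ hY
  have hPL := (mem_PG_iff G H Y (q.trans g) _ rfl).mp hY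
  have hle := hmin _ ?_ hPL
  · rw [Finset.card_map, Finset.card_univ, Fintype.card_fin] at hle
    omega
  · intro v hv
    apply hK0
    rw [hg]
    rw [Finset.mem_map] at hv ⊢
    obtain ⟨x, _, rfl⟩ := hv
    exact ⟨q x, Finset.mem_univ _, rfl⟩

/-- `P(G)` is closed under passing to graphs inducing a member. -/
lemma PG_mono {G X H : FG} (hX : X ∈ PG G) (hHX : Induces H X) : H ∈ PG G := by
  obtain ⟨q⟩ := hHX
  have h1 := (mem_PG_iff G H.2 X q _ rfl).mp hX
  have h2 : PPK G.2 H.2 Finset.univ := h1.mono (Finset.subset_univ _)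
  refine (mem_PG_iff G H.2 H (SimpleGraph.Embedding.refl) Finset.univ ?_).mpr h2
  ext v
  simp

lemma PG_of_degSeq {G H H' : FG} (h : degSeq H = degSeq H') (hH : H ∈ PG G) : H' ∈ PG G := by
  obtain ⟨X, hX, hXG⟩ := hH
  exact ⟨X, hX.trans h, hXG⟩

lemma Induces.trans' {A B C : FG} (h1 : Induces A B) (h2 : Induces B C) : Induces A C := by
  obtain ⟨f⟩ := h1
  obtain ⟨g⟩ := h2
  exact ⟨g.trans f⟩

lemma induces_refl (A : FG) : Induces A A := ⟨SimpleGraph.Embedding.refl⟩

lemma induces_card {A B : FG} (h : Induces A B) : B.1 ≤ A.1 := by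
  obtain ⟨f⟩ := h
  have := Fintype.card_le_of_embedding f.toEmbedding
  simpa using this

lemma degSeq_card {A B : FG} (h : degSeq A = degSeq B) : A.1 = B.1 := by
  have := congrArg Multiset.card h
  simpa [degSeq] using this

/-- every member of `P(G)` induces a member of `D(G)` -/
lemma exists_DG_of_PG {G H : FG} (hH : H ∈ PG G) : ∃ X ∈ DG G, Induces H X := by
  have hex : ∃ n, ∃ X : FG, X ∈ PG G ∧ Induces H X ∧ X.1 = n :=
    ⟨_, H, hH, induces_refl H, rfl⟩
  obtain ⟨X, hX, hHX, hXn⟩ := Nat.find_spec hex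
  refine ⟨X, ⟨hX, ?_⟩, hHX⟩
  intro Y hYX hXY hY
  have := Nat.find_min' hex ⟨Y, hY, hHX.trans' hXY, rfl⟩
  omega

/-- an embedding between finite graphs of the same order is an isomorphism -/
lemma iso_of_induces {A B : FG} (h : Induces A B) (hc : A.1 = B.1) :
    Nonempty (B.2 ≃g A.2) := by
  obtain ⟨f⟩ := h
  have hbij : Function.Bijective f.toEmbedding := by
    rw [Fintype.bijective_iff_injective_and_card]
    exact ⟨f.injective, by simp [hc]⟩
  exact ⟨⟨Equiv.ofBijective _ hbij, f.map_rel_iff⟩⟩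

/-- A nonempty set of graphs is degree-sequence-forcing (DSF): whenever one realization of a
degree sequence is `F`-free, so is every realization. -/
def DSF (F : Set FG) : Prop :=
  F.Nonempty ∧ ∀ H H' : FG, degSeq H = degSeq H' →
    (∀ X ∈ F, ¬ Induces H X) → ∀ X ∈ F, ¬ Induces H' X

/-- A DSF set is minimal if every nonempty DSF subset is, up to isomorphism of graphs, all of
it. -/
def MinimalDSF (F : Set FG) : Prop :=
  DSF F ∧ ∀ F' ⊆ F, DSF F' → ∀ X ∈ F, ∃ Y ∈ F', Nonempty (X.2 ≃g Y.2)

lemma DG_minimalDSF (G : FG) : MinimalDSF (DG G) := by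
  have hGP : G ∈ PG G := ⟨G, rfl, induces_refl G⟩
  refine ⟨⟨?_, ?_⟩, ?_⟩
  · obtain ⟨X, hX, _⟩ := exists_DG_of_PG hGP
    exact ⟨X, hX⟩
  · intro H H' hd hfree X hX hHX
    have h1 : H' ∈ PG G := PG_mono hX.1 hHX
    have h2 : H ∈ PG G := PG_of_degSeq hd.symm h1
    obtain ⟨Y, hY, hHY⟩ := exists_DG_of_PG h2
    exact hfree Y hY hHY
  · rintro F0 hF0 ⟨hne, hDSF⟩ X hX
    -- a member of `F0` isomorphic to `G`
    have hex : ∃ n, ∃ F1 ∈ F0, F1.1 = n := ⟨_, hne.some, hne.some_mem, rfl⟩
    obtain ⟨F1, hF1, hF1n⟩ := Nat.find_spec hex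
    have hmin : ∀ Y ∈ F0, F1.1 ≤ Y.1 := by
      intro Y hY
      rw [hF1n]
      exact Nat.find_min' hex ⟨Y, hY, rfl⟩
    obtain ⟨H', hH'd, hH'G⟩ := (hF0 hF1).1
    have h1 : ∃ F2 ∈ F0, Induces H' F2 := by
      by_contra hcon
      push Not at hcon
      exact hDSF H' F1 hH'd hcon F1 hF1 (induces_refl F1)
    obtain ⟨F2, hF2, hHF2⟩ := h1
    have hc1 := induces_card hHF2
    have hc2 := degSeq_card hH'd
    have hc3 := hmin F2 hF2
    have hc4 : H'.1 = F2.1 := by omega
    obtain ⟨i2⟩ := iso_of_induces hHF2 hc4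
    have hF2G : Induces F2 G := by
      obtain ⟨f⟩ := hH'G
      exact ⟨f.trans i2.symm.toEmbedding⟩
    have hc5 : F2.1 = G.1 := by
      by_contra hne
      have hlt : G.1 < F2.1 := lt_of_le_of_ne (induces_card hF2G) (Ne.symm hne)
      exact (hF0 hF2).2 G hlt hF2G hGP
    obtain ⟨iG⟩ := iso_of_induces hF2G hc5
    -- now an arbitrary member
    obtain ⟨X', hX'd, hX'G⟩ := hX.1
    have h2 : Induces X' F2 := by
      obtain ⟨f⟩ := hX'G
      exact ⟨iG.symm.toEmbedding.trans f⟩
    have h3 : ∃ F3 ∈ F0, Induces X F3 := by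
      by_contra hcon
      push Not at hcon
      exact hDSF X X' hX'd.symm hcon F2 hF2 h2
    obtain ⟨F3, hF3, hXF3⟩ := h3
    refine ⟨F3, hF3, ?_⟩
    have hc6 : X.1 = F3.1 := by
      by_contra hne
      have hlt : F3.1 < X.1 := lt_of_le_of_ne (induces_card hXF3) (Ne.symm hne)
      exact hX.2 F3 hlt hXF3 (hF0 hF3).1
    obtain ⟨i3⟩ := iso_of_induces hXF3 hc6
    exact ⟨i3.symm⟩

end Pool.Agent.R204.DGP
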