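import Pool.Agent.R204.DGa

/-!
The explicit graph `G` on 12 vertices and the graphs `H_m`.  Construction: helper42.
-/

namespace Pool.Agent.R204.DGP

open Finset

def ooP (x y : ℕ) : Prop :=
  (x = 1 ∧ y = 2) ∨ (x ≤ 2 ∧ 3 ≤ y ∧ y ≤ 6) ∨ (3 ≤ x ∧ x ≤ 6 ∧ 3 ≤ y ∧ y ≤ 6 ∧ x ≠ y) ∨
    (x = 4 ∧ y = 7) ∨ (x = 5 ∧ y = 7) ∨ (x = 5 ∧ y = 8) ∨ (x = 6 ∧ y = 8) ∨
    (x = 6 ∧ y = 9) ∨ (x = 3 ∧ y = 9)

instance decOoP (x y : ℕ) : Decidable (ooP x y) := by unfold ooP; infer_instance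

def gP (x y : ℕ) : Prop :=
  (x < 10 ∧ y < 10 ∧ (ooP x y ∨ ooP y x)) ∨
  (x < 10 ∧ y = 10 ∧ (x = 0 ∨ (3 ≤ x ∧ x ≤ 6))) ∨
  (x < 10 ∧ y = 11 ∧ (x = 3 ∨ x = 4)) ∨ (x = 10 ∧ y = 11)

instance decGP (x y : ℕ) : Decidable (gP x y) := by unfold gP; infer_instance

/-- The graph on 12 vertices: `0,1,2,10` is the core (edges `0 10` and `1 2`), `3,...,6` a
clique complete to the core, `7,8,9,11` an independent set, `11 ~ 3,4,10`, `7 ~ 4,5`,
`8 ~ 5,6`, `9 ~ 6,3`. -/
def G12 : SimpleGraph (Fin 12) where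
  Adj x y := gP x y ∨ gP y x
  symm := ⟨fun _ _ h => h.symm⟩
  loopless := ⟨by
    intro x h
    simp only [gP, ooP] at h
    omega⟩

lemma G12_adj (x y : Fin 12) : G12.Adj x y ↔ gP x y ∨ gP y x := Iff.rfl

instance decG12 : DecidableRel G12.Adj := fun x y =>
  inferInstanceAs (Decidable (gP x y ∨ gP y x))

lemma G12_two_non : ∀ x : Fin 12, ∃ y z : Fin 12, y ≠ z ∧ x ≠ y ∧ x ≠ z ∧
    ¬ G12.Adj x y ∧ ¬ G12.Adj x z := by
  decide

lemma G12_two_adj : ∀ x : Fin 12, ∃ y z : Fin 12, y ≠ z ∧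
    G12.Adj x y ∧ G12.Adj x z := by
  decide

/-- `G` is indecomposable. -/
lemma G12_indec (p q : Fin 12 → Prop)
    (hA : ∀ x y, x ≠ y → ¬ G12.Adj x y → p x → q y)
    (hB : ∀ x y, G12.Adj x y → q x → p y) (hd : ∀ x, ¬ (p x ∧ q x)) :
    ∀ x, ¬ p x ∧ ¬ q x := by
  have P10 : ¬ p 10 := fun h => hd 1 ⟨hB 2 1 (by decide) (hA 10 2 (by decide) (by decide) h),
    hA 10 1 (by decide) (by decide) h⟩
  have Q10 : ¬ q 10 := fun h => hd 0 ⟨hB 10 0 (by decide) h,
    hA 11 0 (by decide) (by decide) (hB 10 11 (by decide) h)⟩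
  have P0 : ¬ p 0 := fun h => hd 0 ⟨h, hA 2 0 (by decide) (by decide)
    (hB 1 2 (by decide) (hA 0 1 (by decide) (by decide) h))⟩
  have Q0 : ¬ q 0 := fun h => P10 (hB 0 10 (by decide) h)
  have P1 : ¬ p 1 := fun h => Q10 (hA 1 10 (by decide) (by decide) h)
  have P2 : ¬ p 2 := fun h => Q10 (hA 2 10 (by decide) (by decide) h)
  have Q1 : ¬ q 1 := fun h => P2 (hB 1 2 (by decide) h)
  have Q2 : ¬ q 2 := fun h => P1 (hB 2 1 (by decide) h)
  have Q11 : ¬ q 11 := fun h => P10 (hB 11 10 (by decide) h)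
  have P5 : ¬ p 5 := fun h => Q11 (hA 5 11 (by decide) (by decide) h)
  have P6 : ¬ p 6 := fun h => Q11 (hA 6 11 (by decide) (by decide) h)
  have Q3 : ¬ q 3 := fun h => P0 (hB 3 0 (by decide) h)
  have Q4 : ¬ q 4 := fun h => P0 (hB 4 0 (by decide) h)
  have Q5 : ¬ q 5 := fun h => P0 (hB 5 0 (by decide) h)
  have Q6 : ¬ q 6 := fun h => P0 (hB 6 0 (by decide) h)
  have P11 : ¬ p 11 := fun h => Q5 (hA 11 5 (by decide) (by decide) h)
  have Q7 : ¬ q 7 := fun h => P5 (hB 7 5 (by decide) h)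
  have Q8 : ¬ q 8 := fun h => P5 (hB 8 5 (by decide) h)
  have Q9 : ¬ q 9 := fun h => P6 (hB 9 6 (by decide) h)
  have P3 : ¬ p 3 := fun h => Q7 (hA 3 7 (by decide) (by decide) h)
  have P4 : ¬ p 4 := fun h => Q8 (hA 4 8 (by decide) (by decide) h)
  have P7 : ¬ p 7 := fun h => Q3 (hA 7 3 (by decide) (by decide) h)
  have P8 : ¬ p 8 := fun h => Q3 (hA 8 3 (by decide) (by decide) h)
  have P9 : ¬ p 9 := fun h => Q4 (hA 9 4 (by decide) (by decide) h)
  intro x
  fin_cases x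
  · exact ⟨P0, Q0⟩
  · exact ⟨P1, Q1⟩
  · exact ⟨P2, Q2⟩
  · exact ⟨P3, Q3⟩
  · exact ⟨P4, Q4⟩
  · exact ⟨P5, Q5⟩
  · exact ⟨P6, Q6⟩
  · exact ⟨P7, Q7⟩
  · exact ⟨P8, Q8⟩
  · exact ⟨P9, Q9⟩
  · exact ⟨P10, Q10⟩
  · exact ⟨P11, Q11⟩

/-! ### the graphs `H_m` and `H'_m` -/

def zr (j k : ℕ) : Prop := j < k ∧ ((k % 2 = 0 ∧ k ≠ j + 1) ∨ (k % 2 = 1 ∧ k = j + 1))

def zr' (m j k : ℕ) : Prop := j < k ∧ (k % 2 = 0 ∨ (j = 0 ∧ k = m))

def zo (m j x : ℕ) : Prop :=
  (j = 0 ∧ (x = 0 ∨ (3 ≤ x ∧ x ≤ 6))) ∨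
  (j ≠ 0 ∧ j = m ∧ (x = 3 ∨ x = 4)) ∨
  (j ≠ 0 ∧ j ≠ m ∧ j % 2 = 0 ∧ x ≤ 6) ∨
  (j ≠ 0 ∧ j ≠ m ∧ j % 2 = 1 ∧ 3 ≤ x ∧ x ≤ 6)

abbrev VV := ℕ ⊕ Fin 10

def HmAdj (m : ℕ) : VV → VV → Prop
  | .inl j, .inl k => zr j k ∨ zr k j
  | .inl j, .inr x => zo m j x
  | .inr x, .inl j => zo m j x
  | .inr x, .inr y => ooP x y ∨ ooP y x

def HmAdj' (m : ℕ) : VV → VV → Prop
  | .inl j, .inl k => zr' m j k ∨ zr' m k j
  | .inl j, .inr x => zo m j x
  | .inr x, .inl j => zo m j x
  | .inr x, .inr y => ooP x y ∨ ooP y x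

def Hm (m : ℕ) : SimpleGraph VV where
  Adj := HmAdj m
  symm := ⟨by
    rintro (j | x) (k | y) h <;> simp only [HmAdj] at h ⊢ <;> first | exact h | exact h.symm⟩
  loopless := ⟨by
    rintro (j | x) h
    · simp only [HmAdj, zr] at h
      omega
    · simp only [HmAdj, ooP] at h
      omega⟩

def Hm' (m : ℕ) : SimpleGraph VV where
  Adj := HmAdj' m
  symm := ⟨by
    rintro (j | x) (k | y) h <;> simp only [HmAdj'] at h ⊢ <;> first | exact h | exact h.symm⟩
  loopless := ⟨by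
    rintro (j | x) h
    · simp only [HmAdj', zr'] at h
      omega
    · simp only [HmAdj', ooP] at h
      omega⟩

lemma Hm_ll (m j k : ℕ) : (Hm m).Adj (.inl j) (.inl k) ↔ zr j k ∨ zr k j := Iff.rfl
lemma Hm_lr (m j : ℕ) (x : Fin 10) : (Hm m).Adj (.inl j) (.inr x) ↔ zo m j x := Iff.rfl
lemma Hm_rl (m j : ℕ) (x : Fin 10) : (Hm m).Adj (.inr x) (.inl j) ↔ zo m j x := Iff.rfl
lemma Hm_rr (m : ℕ) (x y : Fin 10) :
    (Hm m).Adj (.inr x) (.inr y) ↔ ooP x y ∨ ooP y x := Iff.rfl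
lemma Hm'_ll (m j k : ℕ) : (Hm' m).Adj (.inl j) (.inl k) ↔ zr' m j k ∨ zr' m k j := Iff.rfl
lemma Hm'_lr (m j : ℕ) (x : Fin 10) : (Hm' m).Adj (.inl j) (.inr x) ↔ zo m j x := Iff.rfl
lemma Hm'_rl (m j : ℕ) (x : Fin 10) : (Hm' m).Adj (.inr x) (.inl j) ↔ zo m j x := Iff.rfl
lemma Hm'_rr (m : ℕ) (x y : Fin 10) :
    (Hm' m).Adj (.inr x) (.inr y) ↔ ooP x y ∨ ooP y x := Iff.rfl

/-- the vertex set of `H_m` -/
def VH (m : ℕ) : Finset VV := (Finset.range (m + 1)).disjSum Finset.univ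

lemma mem_VH_l {m j : ℕ} : (Sum.inl j : VV) ∈ VH m ↔ j ≤ m := by
  simp [VH]

lemma mem_VH_r {m : ℕ} {x : Fin 10} : (Sum.inr x : VV) ∈ VH m := by
  simp [VH]

lemma zo_m {m x : ℕ} (hm : m ≠ 0) : zo m m x ↔ (x = 3 ∨ x = 4) := by
  unfold zo
  constructor
  · rintro (⟨h, _⟩ | ⟨_, _, h⟩ | ⟨_, h, _⟩ | ⟨_, h, _⟩)
    · exact absurd h hm
    · exact h
    · exact absurd rfl h
    · exact absurd rfl h
  · intro h
    exact Or.inr (Or.inl ⟨hm, rfl, h⟩)

lemma zo_0 {m x : ℕ} : zo m 0 x ↔ (x = 0 ∨ (3 ≤ x ∧ x ≤ 6)) := by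
  unfold zo
  constructor
  · rintro (⟨_, h⟩ | ⟨h, _⟩ | ⟨h, _⟩ | ⟨h, _⟩)
    · exact h
    · exact absurd rfl h
    · exact absurd rfl h
    · exact absurd rfl h
  · intro h
    exact Or.inl ⟨rfl, h⟩

lemma gP_right {x y : ℕ} (hx : 10 ≤ x) : gP x y ↔ (x = 10 ∧ y = 11) := by
  unfold gP
  constructor
  · rintro (⟨h, _⟩ | ⟨h, _⟩ | ⟨h, _⟩ | h)
    · omega
    · omega
    · omega
    · exact h
  · intro h
    exact Or.inr (Or.inr (Or.inr h))

lemma gP_left {x y : ℕ} (hy : 10 ≤ y) : gP x y ↔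
    ((x < 10 ∧ y = 10 ∧ (x = 0 ∨ (3 ≤ x ∧ x ≤ 6))) ∨
    (x < 10 ∧ y = 11 ∧ (x = 3 ∨ x = 4)) ∨ (x = 10 ∧ y = 11)) := by
  unfold gP
  constructor
  · rintro (⟨_, h, _⟩ | h)
    · omega
    · exact h
  · intro h
    exact Or.inr h

lemma gP_both {x y : ℕ} (hx : x < 10) (hy : y < 10) : gP x y ↔ (ooP x y ∨ ooP y x) := by
  unfold gP
  constructor
  · rintro (⟨_, _, h⟩ | ⟨_, h, _⟩ | ⟨_, h, _⟩ | ⟨h, _⟩)
    · exact h
    · omega
    · omega
    · omega
  · intro h
    exact Or.inl ⟨hx, hy, h⟩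

/-- `H'_m` has the same degrees and induces `G`. -/
lemma PPK_VH (m : ℕ) (hm : 3 ≤ m) (hodd : m % 2 = 1) : PPK G12 (Hm m) (VH m) := by
  classical
  refine ⟨Hm' m, ?_, ?_⟩
  · rintro (j | x) hv
    · rw [mem_VH_l] at hv
      set pr : ℕ := if j = 0 then m else j - 1 with hpr
      set sc : ℕ := if j = m then 0 else j + 1 with hsc
      have hpr' : (j = 0 ∧ pr = m) ∨ (j ≠ 0 ∧ pr = j - 1) := by
        by_cases h : j = 0
        · left; exact ⟨h, by rw [hpr, if_pos h]⟩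
        · right; exact ⟨h, by rw [hpr, if_neg h]⟩
      have hsc' : (j = m ∧ sc = 0) ∨ (j ≠ m ∧ sc = j + 1) := by
        by_cases h : j = m
        · left; exact ⟨h, by rw [hsc, if_pos h]⟩
        · right; exact ⟨h, by rw [hsc, if_neg h]⟩
      rw [degK, degK]
      symm
      apply Finset.card_equiv (Equiv.swap (Sum.inl pr : VV) (Sum.inl sc : VV))
      rintro (k | y)
      · rw [Finset.mem_filter, Finset.mem_filter]
        by_cases h1 : k = pr
        · subst h1
          rw [Equiv.swap_apply_left, Hm_ll, Hm'_ll, mem_VH_l, mem_VH_l]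
          simp only [zr, zr']
          omega
        · by_cases h2 : k = sc
          · subst h2
            rw [Equiv.swap_apply_right, Hm_ll, Hm'_ll, mem_VH_l, mem_VH_l]
            simp only [zr, zr']
            omega
          · rw [Equiv.swap_apply_of_ne_of_ne (by simpa using h1) (by simpa using h2),
              Hm_ll, Hm'_ll, mem_VH_l]
            simp only [zr, zr']
            omega
      · rw [Equiv.swap_apply_of_ne_of_ne (by simp) (by simp), Finset.mem_filter,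
          Finset.mem_filter, Hm_lr, Hm'_lr]
    · rw [degK, degK]
      congr 1
      ext u
      rw [Finset.mem_filter, Finset.mem_filter]
      rcases u with k | y
      · rw [Hm_rl, Hm'_rl]
      · rw [Hm_rr, Hm'_rr]
  · let g : Fin 12 → VV := fun x =>
      if h : x.val < 10 then .inr ⟨x.val, h⟩ else if x.val = 10 then .inl 0 else .inl m
    have g1 : ∀ (x : Fin 12) (h : x.val < 10), g x = .inr ⟨x.val, h⟩ := by
      intro x h
      simp only [g, dif_pos h]
    have g2 : ∀ (x : Fin 12), x.val = 10 → g x = .inl 0 := by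
      intro x h
      have : ¬ x.val < 10 := by omega
      simp only [g, dif_neg this, if_pos h]
    have g3 : ∀ (x : Fin 12), x.val = 11 → g x = .inl m := by
      intro x h
      have h1 : ¬ x.val < 10 := by omega
      have h2 : ¬ x.val = 10 := by omega
      simp only [g, dif_neg h1, if_neg h2]
    have tri : ∀ x : Fin 12, x.val < 10 ∨ x.val = 10 ∨ x.val = 11 := by
      intro x
      have := x.isLt
      omega
    refine ⟨⟨⟨g, ?_⟩, ?_⟩, ?_⟩
    · intro x y hxy
      rcases tri x with hx | hx | hx <;> rcases tri y with hy | hy | hy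
      · rw [g1 x hx, g1 y hy] at hxy
        simp only [Sum.inr.injEq, Fin.mk.injEq] at hxy
        exact Fin.ext hxy
      · rw [g1 x hx, g2 y hy] at hxy
        simp at hxy
      · rw [g1 x hx, g3 y hy] at hxy
        simp at hxy
      · rw [g2 x hx, g1 y hy] at hxy
        simp at hxy
      · exact Fin.ext (by omega)
      · rw [g2 x hx, g3 y hy] at hxy
        simp only [Sum.inl.injEq] at hxy
        omega
      · rw [g3 x hx, g1 y hy] at hxy
        simp at hxy
      · rw [g3 x hx, g2 y hy] at hxy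
        simp only [Sum.inl.injEq] at hxy
        omega
      · exact Fin.ext (by omega)
    · intro x y
      change (Hm' m).Adj (g x) (g y) ↔ _
      rcases tri x with hx | hx | hx <;> rcases tri y with hy | hy | hy
      · rw [g1 x hx, g1 y hy, Hm'_rr, G12_adj, gP_both hx hy, gP_both hy hx]
        exact ⟨Or.inl, fun h => h.elim id Or.symm⟩
      · rw [g1 x hx, g2 y hy, Hm'_rl, G12_adj, gP_left (by omega), gP_right (by omega), zo_0]
        simp only
        omega
      · rw [g1 x hx, g3 y hy, Hm'_rl, G12_adj, gP_left (by omega), gP_right (by omega),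
          zo_m (by omega)]
        simp only
        omega
      · rw [g2 x hx, g1 y hy, Hm'_lr, G12_adj, gP_right (by omega), gP_left (by omega), zo_0]
        simp only
        omega
      · rw [g2 x hx, g2 y hy, Hm'_ll, G12_adj, gP_right (by omega), gP_right (by omega)]
        unfold zr'
        omega
      · rw [g2 x hx, g3 y hy, Hm'_ll, G12_adj, gP_right (by omega), gP_right (by omega)]
        unfold zr'
        omega
      · rw [g3 x hx, g1 y hy, Hm'_lr, G12_adj, gP_right (by omega), gP_left (by omega),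
          zo_m (by omega)]
        simp only
        omega
      · rw [g3 x hx, g2 y hy, Hm'_ll, G12_adj, gP_right (by omega), gP_right (by omega)]
        unfold zr'
        omega
      · rw [g3 x hx, g3 y hy, Hm'_ll, G12_adj, gP_right (by omega), gP_right (by omega)]
        unfold zr'
        omega
    · intro x
      change g x ∈ VH m
      rcases tri x with hx | hx | hx
      · rw [g1 x hx]
        exact mem_VH_r
      · rw [g2 x hx, mem_VH_l]
        omega
      · rw [g3 x hx, mem_VH_l]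

/-- Lemma 1: nothing without `a`s and `b`s lies in `P(G)`. -/
lemma not_PPK_chain (m : ℕ) (K : Finset VV)
    (hK : ∀ v ∈ K, (∃ j, j < m ∧ v = .inl j) ∨ ∃ x : Fin 10, x.val ≤ 2 ∧ v = .inr x) :
    ¬ PPK G12 (Hm m) K := by
  classical
  rintro ⟨R, hR, f, hf⟩
  -- the largest chain index in the image of `f`
  let J : Finset ℕ := (Finset.range m).filter fun j => 1 ≤ j ∧ ∃ x, f x = .inl j
  have hJ : J.Nonempty := by
    by_contra hne
    rw [Finset.not_nonempty_iff_eq_empty] at hne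
    have hsub : (Finset.univ : Finset (Fin 12)).image f
        ⊆ {Sum.inl 0, Sum.inr 0, Sum.inr 1, Sum.inr 2} := by
      intro v hv
      rw [Finset.mem_image] at hv
      obtain ⟨x, _, rfl⟩ := hv
      rcases hK _ (hf x) with ⟨j, hj, hfj⟩ | ⟨y, hy, hfy⟩
      · have : j = 0 := by
          by_contra h0
          have : j ∈ J := by
            rw [Finset.mem_filter, Finset.mem_range]
            exact ⟨hj, by omega, x, hfj⟩
          rw [hne] at this
          simp at this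
        rw [hfj, this]
        simp
      · rw [hfy]
        have h3 : y = 0 ∨ y = 1 ∨ y = 2 := by
          rcases y with ⟨y, hy10⟩
          simp only at hy
          interval_cases y <;> simp
        rcases h3 with rfl | rfl | rfl <;> simp
    have hc := Finset.card_le_card hsub
    rw [Finset.card_image_of_injective _ f.injective, Finset.card_univ, Fintype.card_fin] at hc
    have : ({Sum.inl 0, Sum.inr 0, Sum.inr 1, Sum.inr 2} : Finset VV).card ≤ 4 :=
      Finset.card_le_four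
    omega
  obtain ⟨i, hiJ, himax⟩ := Finset.exists_max_image J id hJ
  rw [Finset.mem_filter, Finset.mem_range] at hiJ
  obtain ⟨him, hi1, x0, hx0⟩ := hiJ
  have hmax : ∀ x k, f x = .inl k → k ≤ i := by
    intro x k hk
    by_cases hk0 : k = 0
    · omega
    · apply himax k
      rw [Finset.mem_filter, Finset.mem_range]
      refine ⟨?_, by omega, x, hk⟩
      rcases hK _ (hf x) with ⟨j, hj, hfj⟩ | ⟨y, _, hfy⟩
      · rw [hk] at hfj
        simp only [Sum.inl.injEq] at hfj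
        omega
      · rw [hk] at hfy
        simp at hfy
  let A : Finset VV := K.filter fun v => ∃ k, v = .inl k ∧ k % 2 = 0 ∧ i ≤ k
  let B : Finset VV := K.filter fun v => ∃ k, v = .inl k ∧ k % 2 = 1 ∧ i ≤ k
  have hAK : A ⊆ K := Finset.filter_subset _ _
  have hBK : B ⊆ K := Finset.filter_subset _ _
  have hAB : Disjoint A B := by
    rw [Finset.disjoint_left]
    intro v hvA hvB
    rw [Finset.mem_filter] at hvA hvB
    obtain ⟨_, k, rfl, hk, _⟩ := hvA
    obtain ⟨_, l, hl, hl2, _⟩ := hvB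
    simp only [Sum.inl.injEq] at hl
    omega
  have hdf := df_eq (H := Hm m) (R := R) hAK hBK hAB hR
  -- defects of `Hm`
  have hdA : ∀ p ∈ dfA (Hm m) K A B, i % 2 = 0 ∧ p = (.inl i, .inl (i - 1)) := by
    rintro ⟨a, v⟩ hp
    rw [mem_dfA] at hp
    obtain ⟨⟨haA, hvK, hvB⟩, hav, hnadj⟩ := hp
    rw [Finset.mem_filter] at haA
    obtain ⟨haK, k, rfl, hk2, hik⟩ := haA
    have hkm : k < m := by
      rcases hK _ haK with ⟨j, hj, hfj⟩ | ⟨y, _, hfy⟩
      · simp only [Sum.inl.injEq] at hfj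
        omega
      · simp at hfy
    rcases hK _ hvK with ⟨l, hl, rfl⟩ | ⟨y, hy, rfl⟩
    · have hlB : ¬ (l % 2 = 1 ∧ i ≤ l) := by
        rintro ⟨h1, h2⟩
        apply hvB
        rw [Finset.mem_filter]
        exact ⟨hvK, l, rfl, h1, h2⟩
      have hkl : k ≠ l := fun h => hav (by rw [h])
      rw [Hm_ll] at hnadj
      simp only [zr] at hnadj
      have : k = i ∧ l = i - 1 ∧ i % 2 = 0 := by omega
      obtain ⟨rfl, rfl, h⟩ := this
      exact ⟨h, rfl⟩
    · exfalso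
      apply hnadj
      rw [Hm_lr]
      simp only [zo]
      omega
  have hdB : ∀ p ∈ dfB (Hm m) K A B, i % 2 = 1 ∧ p = (.inl i, .inl (i - 1)) := by
    rintro ⟨b, v⟩ hp
    rw [mem_dfB] at hp
    obtain ⟨⟨hbB, hvK, hvA⟩, hadj⟩ := hp
    rw [Finset.mem_filter] at hbB
    obtain ⟨hbK, k, rfl, hk2, hik⟩ := hbB
    have hkm : k < m := by
      rcases hK _ hbK with ⟨j, hj, hfj⟩ | ⟨y, _, hfy⟩
      · simp only [Sum.inl.injEq] at hfj
        omega
      · simp at hfy
    rcases hK _ hvK with ⟨l, hl, rfl⟩ | ⟨y, hy, rfl⟩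
    · have hlA : ¬ (l % 2 = 0 ∧ i ≤ l) := by
        rintro ⟨h1, h2⟩
        apply hvA
        rw [Finset.mem_filter]
        exact ⟨hvK, l, rfl, h1, h2⟩
      rw [Hm_ll] at hadj
      simp only [zr] at hadj
      have : k = i ∧ l = i - 1 ∧ i % 2 = 1 := by omega
      obtain ⟨rfl, rfl, h⟩ := this
      exact ⟨h, rfl⟩
    · exfalso
      rw [Hm_lr] at hadj
      simp only [zo] at hadj
      omega
  have hcA : (dfA (Hm m) K A B).card ≤ 1 :=
    Finset.card_le_one.mpr fun p hp q hq => by rw [(hdA p hp).2, (hdA q hq).2]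
  have hcB : (dfB (Hm m) K A B).card ≤ 1 :=
    Finset.card_le_one.mpr fun p hp q hq => by rw [(hdB p hp).2, (hdB q hq).2]
  have hi01 : i % 2 = 0 ∨ i % 2 = 1 := by omega
  rcases hi01 with hi0 | hi0
  · have hB0 : (dfB (Hm m) K A B).card = 0 := by
      rw [Finset.card_eq_zero, Finset.eq_empty_iff_forall_notMem]
      intro p hp
      have := (hdB p hp).1
      omega
    have hcR : (dfA R K A B).card ≤ 1 := by omega
    obtain ⟨y, z, hyz, hxy, hxz, hny, hnz⟩ := G12_two_non x0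
    have hmem : ∀ y, x0 ≠ y → ¬ G12.Adj x0 y → (Sum.inl i, f y) ∈ dfA R K A B := by
      intro y hxy hny
      rw [mem_dfA]
      refine ⟨⟨?_, hf y, ?_⟩, ?_, ?_⟩
      · simp only [A, Finset.mem_filter]
        exact ⟨hx0 ▸ hf x0, i, rfl, hi0, le_refl i⟩
      · simp only [B, Finset.mem_filter]
        rintro ⟨_, k, hk, hk2, hik⟩
        have := hmax y k hk
        omega
      · intro h
        exact hxy (f.injective (hx0.trans h))
      · rw [← hx0]
        intro h
        exact hny (f.map_rel_iff.mp h)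
    have := Finset.card_le_one.mp hcR _ (hmem y hxy hny) _ (hmem z hxz hnz)
    simp only [Prod.mk.injEq, true_and] at this
    exact hyz (f.injective this)
  · have hA0 : (dfA (Hm m) K A B).card = 0 := by
      rw [Finset.card_eq_zero, Finset.eq_empty_iff_forall_notMem]
      intro p hp
      have := (hdA p hp).1
      omega
    have hcR : (dfB R K A B).card ≤ 1 := by omega
    obtain ⟨y, z, hyz, hny, hnz⟩ := G12_two_adj x0
    have hmem : ∀ y, G12.Adj x0 y → (Sum.inl i, f y) ∈ dfB R K A B := by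
      intro y hny
      rw [mem_dfB]
      refine ⟨⟨?_, hf y, ?_⟩, ?_⟩
      · simp only [B, Finset.mem_filter]
        exact ⟨hx0 ▸ hf x0, i, rfl, hi0, le_refl i⟩
      · simp only [A, Finset.mem_filter]
        rintro ⟨_, k, hk, hk2, hik⟩
        have := hmax y k hk
        omega
      · rw [← hx0]
        exact f.map_rel_iff.mpr hny
    have := Finset.card_le_one.mp hcR _ (hmem y hny) _ (hmem z hnz)
    simp only [Prod.mk.injEq, true_and] at this
    exact hyz (f.injective this)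

/-- Lemma 2: a subset of `H_m` lying in `P(G)` contains the whole chain. -/
lemma chain_mem_of_PPK (m : ℕ) (hodd : m % 2 = 1) (K : Finset VV) (hKV : K ⊆ VH m)
    (hP : PPK G12 (Hm m) K) (j : ℕ) (hj1 : 1 ≤ j) (hjm : j < m) : (Sum.inl j : VV) ∈ K := by
  classical
  by_contra hjK
  obtain ⟨R, hR, f, hf⟩ := hP
  let A : Finset VV := K.filter fun v => (∃ k, v = .inl k ∧ k % 2 = 0 ∧ j < k) ∨
    ∃ x : Fin 10, v = .inr x ∧ 3 ≤ x.val ∧ x.val ≤ 6
  let B : Finset VV := K.filter fun v => (∃ k, v = .inl k ∧ k % 2 = 1 ∧ j < k) ∨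
    ∃ x : Fin 10, v = .inr x ∧ 7 ≤ x.val
  have hAK : A ⊆ K := Finset.filter_subset _ _
  have hBK : B ⊆ K := Finset.filter_subset _ _
  have mAl : ∀ k, (Sum.inl k : VV) ∈ A ↔ (Sum.inl k : VV) ∈ K ∧ k % 2 = 0 ∧ j < k := by
    intro k
    simp only [A, Finset.mem_filter]
    constructor
    · rintro ⟨hk, ⟨l, hl, h2⟩ | ⟨x, hx, _⟩⟩
      · simp only [Sum.inl.injEq] at hl
        subst hl
        exact ⟨hk, h2⟩
      · simp at hx
    · rintro ⟨hk, h2⟩
      exact ⟨hk, Or.inl ⟨k, rfl, h2⟩⟩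
  have mAr : ∀ x : Fin 10, (Sum.inr x : VV) ∈ A ↔
      (Sum.inr x : VV) ∈ K ∧ 3 ≤ x.val ∧ x.val ≤ 6 := by
    intro x
    simp only [A, Finset.mem_filter]
    constructor
    · rintro ⟨hk, ⟨l, hl, h2⟩ | ⟨y, hy, h2⟩⟩
      · simp at hl
      · simp only [Sum.inr.injEq] at hy
        subst hy
        exact ⟨hk, h2⟩
    · rintro ⟨hk, h2⟩
      exact ⟨hk, Or.inr ⟨x, rfl, h2⟩⟩
  have mBl : ∀ k, (Sum.inl k : VV) ∈ B ↔ (Sum.inl k : VV) ∈ K ∧ k % 2 = 1 ∧ j < k := by
    intro k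
    simp only [B, Finset.mem_filter]
    constructor
    · rintro ⟨hk, ⟨l, hl, h2⟩ | ⟨x, hx, _⟩⟩
      · simp only [Sum.inl.injEq] at hl
        subst hl
        exact ⟨hk, h2⟩
      · simp at hx
    · rintro ⟨hk, h2⟩
      exact ⟨hk, Or.inl ⟨k, rfl, h2⟩⟩
  have mBr : ∀ x : Fin 10, (Sum.inr x : VV) ∈ B ↔ (Sum.inr x : VV) ∈ K ∧ 7 ≤ x.val := by
    intro x
    simp only [B, Finset.mem_filter]
    constructor
    · rintro ⟨hk, ⟨l, hl, h2⟩ | ⟨y, hy, h2⟩⟩
      · simp at hl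
      · simp only [Sum.inr.injEq] at hy
        subst hy
        exact ⟨hk, h2⟩
    · rintro ⟨hk, h2⟩
      exact ⟨hk, Or.inr ⟨x, rfl, h2⟩⟩
  have hAB : Disjoint A B := by
    rw [Finset.disjoint_left]
    rintro (k | x) hvA hvB
    · rw [mAl] at hvA
      rw [mBl] at hvB
      omega
    · rw [mAr] at hvA
      rw [mBr] at hvB
      omega
  have hdf := df_eq (H := Hm m) (R := R) hAK hBK hAB hR
  have hHA : ∀ a ∈ A, ∀ v ∈ K, v ∉ B → a ≠ v → (Hm m).Adj a v := by
    rintro (k | x) ha (l | y) hv hvB hne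
    · rw [mAl] at ha
      rw [mBl] at hvB
      have hl : l % 2 = 0 ∨ l ≤ j := by
        by_contra hcon
        push Not at hcon
        exact hvB ⟨hv, by omega, hcon.2⟩
      have hlj : l ≠ j := fun h => hjK (h ▸ hv)
      have hkl : k ≠ l := fun h => hne (by rw [h])
      rw [Hm_ll]
      simp only [zr]
      omega
    · rw [mAl] at ha
      rw [mBr] at hvB
      have hy : y.val < 7 := by
        by_contra hcon
        exact hvB ⟨hv, by omega⟩
      have hkm : k ≤ m := mem_VH_l.mp (hKV ha.1)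
      rw [Hm_lr]
      simp only [zo]
      omega
    · rw [mAr] at ha
      rw [mBl] at hvB
      have hlm : l ≤ m := mem_VH_l.mp (hKV hv)
      have hl : l ≠ m := by
        intro h
        exact hvB ⟨hv, by omega, by omega⟩
      rw [Hm_rl]
      simp only [zo]
      omega
    · rw [mAr] at ha
      rw [mBr] at hvB
      have hy : y.val < 7 := by
        by_contra hcon
        exact hvB ⟨hv, by omega⟩
      have hxy : x.val ≠ y.val := fun h => hne (by rw [Fin.ext h])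
      rw [Hm_rr]
      by_cases hy3 : y.val ≤ 2
      · exact Or.inr (Or.inr (Or.inl ⟨hy3, ha.2⟩))
      · exact Or.inl (Or.inr (Or.inr (Or.inl ⟨ha.2.1, ha.2.2, by omega, by omega, hxy⟩)))
  have hHB : ∀ b ∈ B, ∀ v ∈ K, v ∉ A → ¬ (Hm m).Adj b v := by
    rintro (k | x) hb (l | y) hv hvA hadj
    · rw [mBl] at hb
      rw [mAl] at hvA
      have hl : l % 2 = 1 ∨ l ≤ j := by
        by_contra hcon
        push Not at hcon
        exact hvA ⟨hv, by omega, hcon.2⟩
      have hlj : l ≠ j := fun h => hjK (h ▸ hv)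
      rw [Hm_ll] at hadj
      simp only [zr] at hadj
      omega
    · rw [mBl] at hb
      rw [mAr] at hvA
      have hy : ¬ (3 ≤ y.val ∧ y.val ≤ 6) := fun h => hvA ⟨hv, h⟩
      rw [Hm_lr] at hadj
      simp only [zo] at hadj
      omega
    · rw [mBr] at hb
      rw [Hm_rl] at hadj
      simp only [zo] at hadj
      omega
    · rw [mBr] at hb
      rw [mAr] at hvA
      have hy : ¬ (3 ≤ y.val ∧ y.val ≤ 6) := fun h => hvA ⟨hv, h⟩
      rw [Hm_rr] at hadj
      unfold ooP at hadj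
      rcases hadj with (h | h | h | h | h | h | h | h | h) |
        (h | h | h | h | h | h | h | h | h) <;> omega
  have hA0 : (dfA (Hm m) K A B).card = 0 := by
    rw [Finset.card_eq_zero, Finset.eq_empty_iff_forall_notMem]
    rintro ⟨a, v⟩ hp
    rw [mem_dfA] at hp
    exact hp.2.2 (hHA a hp.1.1 v hp.1.2.1 hp.1.2.2 hp.2.1)
  have hB0 : (dfB (Hm m) K A B).card = 0 := by
    rw [Finset.card_eq_zero, Finset.eq_empty_iff_forall_notMem]
    rintro ⟨a, v⟩ hp
    rw [mem_dfB] at hp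
    exact hHB a hp.1.1 v hp.1.2.1 hp.1.2.2 hp.2
  have hA0' : dfA R K A B = ∅ := by
    rw [← Finset.card_eq_zero]
    omega
  have hB0' : dfB R K A B = ∅ := by
    rw [← Finset.card_eq_zero]
    omega
  have hRA : ∀ a ∈ A, ∀ v ∈ K, v ∉ B → a ≠ v → R.Adj a v := by
    intro a ha v hv hvB hne
    by_contra hcon
    have : (a, v) ∈ dfA R K A B := by
      rw [mem_dfA]
      exact ⟨⟨ha, hv, hvB⟩, hne, hcon⟩
    rw [hA0'] at this
    simp at this
  have hRB : ∀ b ∈ B, ∀ v ∈ K, v ∉ A → ¬ R.Adj b v := by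
    intro b hb v hv hvA hcon
    have : (b, v) ∈ dfB R K A B := by
      rw [mem_dfB]
      exact ⟨⟨hb, hv, hvA⟩, hcon⟩
    rw [hB0'] at this
    simp at this
  have hind := G12_indec (fun x => f x ∈ A) (fun x => f x ∈ B)
    (by
      intro x y hxy hn hx
      by_contra hyB
      exact hn (f.map_rel_iff.mp (hRA _ hx _ (hf y) hyB fun h => hxy (f.injective h))))
    (by
      intro x y hadj hx
      by_contra hyA
      exact hRB _ hx _ (hf y) hyA (f.map_rel_iff.mpr hadj))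
    (by
      rintro x ⟨h1, h2⟩
      exact Finset.disjoint_left.mp hAB h1 h2)
  let I : Finset VV := K.filter fun v => v ∉ A ∧ v ∉ B
  have hIK : I ⊆ K := Finset.filter_subset _ _
  have mI : ∀ v, v ∈ I ↔ v ∈ K ∧ v ∉ A ∧ v ∉ B := fun v => Finset.mem_filter
  have hsplit : ∀ S : SimpleGraph VV,
      (∀ a ∈ A, ∀ v ∈ K, v ∉ B → a ≠ v → S.Adj a v) →
      (∀ b ∈ B, ∀ v ∈ K, v ∉ A → ¬ S.Adj b v) →
      ∀ v ∈ I, degK S K v = A.card + degK S I v := by
    intro S hSA hSB v hv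
    rw [mI] at hv
    have h1 : degK S K v = (A ∪ I.filter fun u => S.Adj v u).card := by
      rw [degK]
      congr 1
      ext u
      rw [Finset.mem_filter, Finset.mem_union, Finset.mem_filter (s := I), mI]
      constructor
      · rintro ⟨huK, hadj⟩
        by_cases huA : u ∈ A
        · exact Or.inl huA
        · right
          refine ⟨⟨huK, huA, ?_⟩, hadj⟩
          intro huB
          exact hSB u huB v hv.1 hv.2.1 hadj.symm
      · rintro (huA | ⟨⟨huK, _⟩, hadj⟩)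
        · refine ⟨hAK huA, (hSA u huA v hv.1 hv.2.2 ?_).symm⟩
          intro h
          exact hv.2.1 (h ▸ huA)
        · exact ⟨huK, hadj⟩
    rw [h1, Finset.card_union_of_disjoint, degK]
    rw [Finset.disjoint_left]
    intro u huA hu
    rw [Finset.mem_filter, mI] at hu
    exact hu.1.2.1 huA
  apply not_PPK_chain m I
  · rintro (k | x) hv
    · left
      rw [mI, mAl, mBl] at hv
      refine ⟨k, ?_, rfl⟩
      by_contra hkm
      have : k % 2 = 0 ∨ k % 2 = 1 := by omega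
      rcases this with h | h
      · exact hv.2.1 ⟨hv.1, h, by omega⟩
      · exact hv.2.2 ⟨hv.1, h, by omega⟩
    · right
      rw [mI, mAr, mBr] at hv
      refine ⟨x, ?_, rfl⟩
      by_contra hx
      by_cases h7 : 7 ≤ x.val
      · exact hv.2.2 ⟨hv.1, h7⟩
      · exact hv.2.1 ⟨hv.1, by omega, by omega⟩
  · refine ⟨R, ?_, f, fun x => (mI _).mpr ⟨hf x, (hind x).1, (hind x).2⟩⟩
    intro v hv
    have h1 := hsplit R hRA hRB v hv
    have h2 := hsplit (Hm m) hHA hHB v hv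
    have h3 := hR v (hIK hv)
    omega

/-- `D(G)` has arbitrarily large members. -/
theorem DG_large (N : ℕ) : ∃ X ∈ DG ⟨12, G12⟩, N ≤ X.1 := by
  classical
  have hm : 3 ≤ 2 * N + 3 := by omega
  have hodd : (2 * N + 3) % 2 = 1 := by omega
  apply exists_mem_DG ⟨12, G12⟩ (Hm (2 * N + 3)) (VH (2 * N + 3)) (PPK_VH _ hm hodd) N
  intro K hK hP
  have hsub : ((Finset.range N).image fun j => (Sum.inl (j + 1) : VV)) ⊆ K := by
    intro v hv
    rw [Finset.mem_image] at hv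
    obtain ⟨j, hj, rfl⟩ := hv
    rw [Finset.mem_range] at hj
    exact chain_mem_of_PPK _ hodd K hK hP (j + 1) (by omega) (by omega)
  have hc := Finset.card_le_card hsub
  rw [Finset.card_image_of_injective, Finset.card_range] at hc
  · exact hc
  · intro a b hab
    simpa using hab

/-- infinitely many pairwise non-isomorphic members -/
theorem DG_infinite : ∃ f : ℕ → FG, (∀ i, f i ∈ DG ⟨12, G12⟩) ∧
    ∀ i j, i ≠ j → ¬ Nonempty ((f i).2 ≃g (f j).2) := by
  let S : Set ℕ := {n | ∃ X ∈ DG ⟨12, G12⟩, X.1 = n}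
  have hS : S.Infinite := by
    rw [Set.infinite_iff_exists_gt]
    intro a
    obtain ⟨X, hX, hN⟩ := DG_large (a + 1)
    exact ⟨X.1, ⟨X, hX, rfl⟩, by omega⟩
  let e := hS.natEmbedding
  have he : ∀ i, ∃ X ∈ DG ⟨12, G12⟩, X.1 = (e i : ℕ) := fun i => (e i).2
  choose f hf hfe using he
  refine ⟨f, hf, ?_⟩
  rintro i j hij ⟨φ⟩
  apply hij
  apply e.injective
  apply Subtype.ext
  rw [← hfe i, ← hfe j]
  have := Fintype.card_congr φ.toEquiv
  simpa using this

end Pool.Agent.R204.DGP
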