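import Mathlib

set_option autoImplicit false

/-!
# Metric mean dimension of Hölder maps of the interval
-/

namespace Pool.Agent.R204.MD

open Filter Topology
open scoped ENNReal unitInterval

/-- `A` is `(n, φ, ε)`-separated: `d_n(x, y) = max_{0 ≤ j < n} |φ^j x - φ^j y| > ε` for all distinct
`x, y ∈ A`. -/
def IsSep (φ : I → I) (n : ℕ) (ε : ℝ) (A : Finset I) : Prop :=
  ∀ x ∈ A, ∀ y ∈ A, x ≠ y → ∃ j < n, ε < |((φ^[j] x : I) : ℝ) - ((φ^[j] y : I) : ℝ)|

/-- `sep(n, φ, ε)`: the maximal cardinality of an `(n, φ, ε)`-separated set. -/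
noncomputable def sepCard (φ : I → I) (n : ℕ) (ε : ℝ) : ℕ∞ :=
  ⨆ (A : Finset I) (_ : IsSep φ n ε A), (A.card : ℕ∞)

/-- `sep(φ, ε) = limsup_{n → ∞} (1/n) log sep(n, φ, ε)`. -/
noncomputable def sepRate (φ : I → I) (ε : ℝ) : EReal :=
  limsup (fun n : ℕ => ENNReal.log (sepCard φ n ε : ℝ≥0∞) / (n : EReal)) atTop

/-- The upper metric mean dimension `limsup_{ε → 0} sep(φ, ε) / |log ε|`. -/
noncomputable def upperMdim (φ : I → I) : EReal :=
  limsup (fun ε : ℝ => sepRate φ ε / ((|Real.log ε| : ℝ) : EReal)) (𝓝[>] 0)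

/-- The lower metric mean dimension `liminf_{ε → 0} sep(φ, ε) / |log ε|`. -/
noncomputable def lowerMdim (φ : I → I) : EReal :=
  liminf (fun ε : ℝ => sepRate φ ε / ((|Real.log ε| : ℝ) : EReal)) (𝓝[>] 0)

/-- `φ` is `α`-Hölder continuous. -/
def IsHolder (φ : I → I) (α : ℝ) : Prop :=
  ∃ K : ℝ, 0 < K ∧ ∀ x y : I, |((φ x : I) : ℝ) - ((φ y : I) : ℝ)| ≤ K * |(x : ℝ) - (y : ℝ)| ^ α

/-! ### Counting itineraries -/

/-- the cell of a point at scale `ε` -/
noncomputable def cell (ε : ℝ) (x : I) : ℤ := ⌊(x : ℝ) / ε⌋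

theorem cell_close {ε : ℝ} (hε : 0 < ε) {x y : I} (h : cell ε x = cell ε y) : |(x : ℝ) - y| < ε := by
  have h1 := Int.abs_sub_lt_one_of_floor_eq_floor h
  rw [← sub_div, abs_div, abs_of_pos hε, div_lt_one hε] at h1
  exact h1

theorem cell_mem {ε : ℝ} (hε : 0 < ε) (x : I) : cell ε x ∈ Finset.Icc (0 : ℤ) ⌊1 / ε⌋ := by
  rw [Finset.mem_Icc]
  refine ⟨Int.floor_nonneg.mpr (div_nonneg x.2.1 hε.le), Int.floor_le_floor ?_⟩
  exact div_le_div_of_nonneg_right x.2.2 hε.le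

/-- the itinerary -/
noncomputable def itin (φ : I → I) (ε : ℝ) (n : ℕ) (x : I) : Fin n → ℤ := fun j => cell ε (φ^[j] x)

/-- Number of itineraries of length `n + 1`. -/
theorem itin_finite (φ : I → I) {ε : ℝ} (hε : 0 < ε) (n : ℕ) : (Set.range (itin φ ε n)).Finite := by
  refine Set.Finite.subset (Set.Finite.pi' (t := fun _ : Fin n => (Finset.Icc (0 : ℤ) ⌊1 / ε⌋ : Set ℤ))
    fun _ => Finset.finite_toSet _) ?_
  rintro _ ⟨x, rfl⟩
  intro j
  exact Finset.mem_coe.mpr (cell_mem hε _)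

/-- the cells that can follow a given cell -/
theorem next_cells {φ : I → I} {α K ε : ℝ} (hK : 0 < K) (hα : 0 < α) (hε : 0 < ε)
    (hφ : ∀ x y : I, |((φ x : I) : ℝ) - ((φ y : I) : ℝ)| ≤ K * |(x : ℝ) - (y : ℝ)| ^ α) (c : ℤ) :
    ∃ s : Finset ℤ, (s.card : ℝ) ≤ 2 * K * ε ^ α / ε + 3 ∧ ∀ x : I, cell ε x = c → cell ε (φ x) ∈ s := by
  by_cases hc : ∃ x₀ : I, cell ε x₀ = c
  · obtain ⟨x₀, hx₀⟩ := hc
    set r : ℝ := K * ε ^ α / ε with hr
    have hr0 : 0 ≤ r := by positivity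
    refine ⟨Finset.Icc ⌊(φ x₀ : ℝ) / ε - r⌋ ⌊(φ x₀ : ℝ) / ε + r⌋, ?_, ?_⟩
    · rw [Int.card_Icc]
      have h1 : ((⌊(φ x₀ : ℝ) / ε + r⌋ + 1 - ⌊(φ x₀ : ℝ) / ε - r⌋).toNat : ℝ)
          = ((⌊(φ x₀ : ℝ) / ε + r⌋ + 1 - ⌊(φ x₀ : ℝ) / ε - r⌋ : ℤ) : ℝ) := by
        have h2 : (0 : ℤ) ≤ ⌊(φ x₀ : ℝ) / ε + r⌋ + 1 - ⌊(φ x₀ : ℝ) / ε - r⌋ := by
          have : ⌊(φ x₀ : ℝ) / ε - r⌋ ≤ ⌊(φ x₀ : ℝ) / ε + r⌋ := Int.floor_le_floor (by linarith)
          omega
        exact_mod_cast congrArg (Int.cast (R := ℝ)) (Int.toNat_of_nonneg h2)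
      rw [h1]
      push_cast
      have h3 := Int.floor_le ((φ x₀ : ℝ) / ε + r)
      have h4 := Int.lt_floor_add_one ((φ x₀ : ℝ) / ε - r)
      have h5 : 2 * K * ε ^ α / ε = 2 * r := by rw [hr]; ring
      rw [h5]
      linarith
    · intro x hx
      have h1 : |(x : ℝ) - x₀| < ε := cell_close hε (hx.trans hx₀.symm)
      have h2 : |((φ x : I) : ℝ) - ((φ x₀ : I) : ℝ)| ≤ K * ε ^ α := by
        refine (hφ x x₀).trans ?_
        gcongr
      have h3 : |((φ x : I) : ℝ) / ε - ((φ x₀ : I) : ℝ) / ε| ≤ r := by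
        rw [← sub_div, abs_div, abs_of_pos hε, hr]
        gcongr
      rw [abs_le] at h3
      rw [Finset.mem_Icc]
      constructor
      · exact Int.floor_le_floor (by linarith [h3.1])
      · exact Int.floor_le_floor (by linarith [h3.2])
  · refine ⟨∅, ?_, ?_⟩
    · simp only [Finset.card_empty, Nat.cast_zero]
      positivity
    · intro x hx
      exact absurd ⟨x, hx⟩ hc

theorem itin_ncard {φ : I → I} {α K ε : ℝ} (hK : 0 < K) (hα : 0 < α) (hε : 0 < ε)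
    (hφ : ∀ x y : I, |((φ x : I) : ℝ) - ((φ y : I) : ℝ)| ≤ K * |(x : ℝ) - (y : ℝ)| ^ α) (n : ℕ) :
    ((Set.range (itin φ ε (n + 1))).ncard : ℝ) ≤ (1 / ε + 1) * (2 * K * ε ^ α / ε + 3) ^ n := by
  classical
  induction n with
  | zero =>
    rw [pow_zero, mul_one]
    have h1 : (Set.range (itin φ ε (0 + 1))) ⊆
        ((fun c : ℤ => (fun _ : Fin 1 => c)) '' (Finset.Icc (0 : ℤ) ⌊1 / ε⌋ : Set ℤ)) := by
      rintro _ ⟨x, rfl⟩
      refine ⟨cell ε x, Finset.mem_coe.mpr (cell_mem hε x), ?_⟩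
      funext j
      have : j = 0 := Subsingleton.elim _ _
      subst this
      rfl
    have h2 := (Set.ncard_le_ncard h1 ((Finset.finite_toSet _).image _)).trans
      (Set.ncard_image_le (Finset.finite_toSet _))
    rw [Set.ncard_coe_finset, Int.card_Icc] at h2
    have h3 : (((⌊1 / ε⌋ + 1 - 0).toNat : ℕ) : ℝ) ≤ 1 / ε + 1 := by
      have h4 : (0 : ℤ) ≤ ⌊1 / ε⌋ + 1 - 0 := by
        have : 0 ≤ ⌊1 / ε⌋ := Int.floor_nonneg.mpr (by positivity)
        omega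
      have h5 : (((⌊1 / ε⌋ + 1 - 0).toNat : ℕ) : ℝ) = ((⌊1 / ε⌋ + 1 - 0 : ℤ) : ℝ) := by
        exact_mod_cast congrArg (Int.cast (R := ℝ)) (Int.toNat_of_nonneg h4)
      rw [h5]
      push_cast
      linarith [Int.floor_le (1 / ε)]
    exact (by exact_mod_cast h2 : ((Set.range (itin φ ε (0 + 1))).ncard : ℝ) ≤ _).trans h3
  | succ n ih =>
    choose s hs1 hs2 using next_cells hK hα hε hφ
    set A := (itin_finite φ hε (n + 1)).toFinset with hA
    -- itineraries of length `n + 2` inject into pairs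
    have h1 : (Set.range (itin φ ε (n + 1 + 1))) ⊆
        ((A.biUnion fun v => (s (v (Fin.last n))).image fun c : ℤ => (Fin.snoc v c : Fin (n + 1 + 1) → ℤ)) :
          Set (Fin (n + 1 + 1) → ℤ)) := by
      rintro _ ⟨x, rfl⟩
      rw [Finset.mem_coe, Finset.mem_biUnion]
      refine ⟨itin φ ε (n + 1) x, (Set.Finite.mem_toFinset _).mpr ⟨x, rfl⟩, ?_⟩
      rw [Finset.mem_image]
      refine ⟨cell ε (φ^[n + 1] x), ?_, ?_⟩
      · have h3 := hs2 (itin φ ε (n + 1) x (Fin.last n)) (φ^[n] x) rfl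
        rwa [← Function.iterate_succ_apply' φ n x] at h3
      · funext j
        refine Fin.lastCases ?_ (fun i => ?_) j
        · rw [Fin.snoc_last]; rfl
        · rw [Fin.snoc_castSucc]; rfl
    have h2 := Set.ncard_le_ncard h1 (Finset.finite_toSet _)
    rw [Set.ncard_coe_finset] at h2
    have h3 : (A.biUnion fun v => (s (v (Fin.last n))).image fun c : ℤ =>
        (Fin.snoc v c : Fin (n + 1 + 1) → ℤ)).card ≤ ∑ v ∈ A, (s (v (Fin.last n))).card :=
      Finset.card_biUnion_le.trans (Finset.sum_le_sum fun v _ => Finset.card_image_le)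
    have hR : (0 : ℝ) ≤ 2 * K * ε ^ α / ε + 3 := by positivity
    calc ((Set.range (itin φ ε (n + 1 + 1))).ncard : ℝ)
        ≤ ((∑ v ∈ A, (s (v (Fin.last n))).card : ℕ) : ℝ) := by exact_mod_cast h2.trans h3
      _ = ∑ v ∈ A, ((s (v (Fin.last n))).card : ℝ) := by push_cast; rfl
      _ ≤ ∑ v ∈ A, (2 * K * ε ^ α / ε + 3) := Finset.sum_le_sum fun v _ => hs1 _
      _ = (A.card : ℝ) * (2 * K * ε ^ α / ε + 3) := by rw [Finset.sum_const, nsmul_eq_mul]
      _ ≤ ((1 / ε + 1) * (2 * K * ε ^ α / ε + 3) ^ n) * (2 * K * ε ^ α / ε + 3) := by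
          have h5 : (A.card : ℝ) ≤ (1 / ε + 1) * (2 * K * ε ^ α / ε + 3) ^ n := by
            rw [hA, ← Set.ncard_eq_toFinset_card _ (itin_finite φ hε (n + 1))]
            exact ih
          gcongr
      _ = _ := by rw [pow_succ]; ring

theorem sepCard_le {φ : I → I} {α K ε : ℝ} (hK : 0 < K) (hα : 0 < α) (hε : 0 < ε)
    (hφ : ∀ x y : I, |((φ x : I) : ℝ) - ((φ y : I) : ℝ)| ≤ K * |(x : ℝ) - (y : ℝ)| ^ α) (n : ℕ) :
    (sepCard φ (n + 1) ε : ℝ≥0∞) ≤ ENNReal.ofReal ((1 / ε + 1) * (2 * K * ε ^ α / ε + 3) ^ n) := by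
  have h1 : sepCard φ (n + 1) ε ≤ ((Set.range (itin φ ε (n + 1))).ncard : ℕ∞) := by
    refine iSup₂_le fun A hA => ?_
    have h2 : A.card ≤ (Set.range (itin φ ε (n + 1))).ncard := by
      rw [Set.ncard_eq_toFinset_card _ (itin_finite φ hε (n + 1))]
      refine Finset.card_le_card_of_injOn (itin φ ε (n + 1)) (fun x _ => by
        rw [Finset.mem_coe, Set.Finite.mem_toFinset]; exact ⟨x, rfl⟩) ?_
      intro x hx y hy hxy
      by_contra hne
      obtain ⟨j, hj, hlt⟩ := hA x hx y hy hne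
      have h3 := congrFun hxy ⟨j, hj⟩
      exact absurd (cell_close hε h3) (not_lt.mpr hlt.le)
    exact_mod_cast h2
  have h2 : (sepCard φ (n + 1) ε : ℝ≥0∞) ≤ (((Set.range (itin φ ε (n + 1))).ncard : ℕ∞) : ℝ≥0∞) := by
    exact_mod_cast h1
  refine h2.trans ?_
  have h3 := ENNReal.ofReal_le_ofReal (itin_ncard hK hα hε hφ n)
  rw [ENNReal.ofReal_natCast] at h3
  exact_mod_cast h3

theorem sepRate_le {φ : I → I} {α K ε : ℝ} (hK : 0 < K) (hα : 0 < α) (hε : 0 < ε)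
    (hφ : ∀ x y : I, |((φ x : I) : ℝ) - ((φ y : I) : ℝ)| ≤ K * |(x : ℝ) - (y : ℝ)| ^ α) :
    sepRate φ ε ≤ ((Real.log (2 * K * ε ^ α / ε + 3) : ℝ) : EReal) := by
  set R := 2 * K * ε ^ α / ε + 3 with hR
  have hR1 : 1 ≤ R := by
    have : 0 ≤ 2 * K * ε ^ α / ε := by positivity
    linarith
  have hR0 : 0 < R := by linarith
  set M := 1 / ε + 1 with hM
  have hM0 : 0 < M := by positivity
  have h1 : ∀ n : ℕ, 1 ≤ n → ENNReal.log (sepCard φ n ε : ℝ≥0∞) / (n : EReal)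
      ≤ (((Real.log M + n * Real.log R) / n : ℝ) : EReal) := by
    intro n hn
    obtain ⟨m, rfl⟩ : ∃ m, n = m + 1 := ⟨n - 1, by omega⟩
    have h2 : ENNReal.log (sepCard φ (m + 1) ε : ℝ≥0∞) ≤ ((Real.log M + (m + 1 : ℕ) * Real.log R : ℝ) : EReal) := by
      refine (ENNReal.log_monotone (sepCard_le hK hα hε hφ m)).trans ?_
      rw [← hR, ← hM, ENNReal.log_ofReal_of_pos (by positivity)]
      rw [EReal.coe_le_coe_iff, Real.log_mul hM0.ne' (by positivity), Real.log_pow]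
      have : (m : ℝ) * Real.log R ≤ ((m + 1 : ℕ) : ℝ) * Real.log R := by
        have h0 : 0 ≤ Real.log R := Real.log_nonneg hR1
        push_cast
        nlinarith
      linarith
    rw [EReal.coe_div]
    exact EReal.div_le_div_right_of_nonneg (by positivity) h2
  have h2 : Tendsto (fun n : ℕ => (((Real.log M + n * Real.log R) / n : ℝ) : EReal)) atTop
      (𝓝 ((Real.log R : ℝ) : EReal)) := by
    refine (continuous_coe_real_ereal.tendsto _).comp ?_
    have h3 : Tendsto (fun n : ℕ => Real.log M / n + Real.log R) atTop (𝓝 (0 + Real.log R)) :=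
      (tendsto_const_div_atTop_nhds_zero_nat _).add_const _
    rw [zero_add] at h3
    refine h3.congr' ?_
    filter_upwards [eventually_ge_atTop 1] with n hn
    have : (n : ℝ) ≠ 0 := by exact_mod_cast (by omega : n ≠ 0)
    field_simp
  rw [← h2.limsup_eq]
  refine limsup_le_limsup ?_
  filter_upwards [eventually_ge_atTop 1] with n hn
  exact h1 n hn

theorem tendsto_rate {α K : ℝ} (hK : 0 < K) (hα1 : α ≤ 1) :
    Tendsto (fun ε : ℝ => Real.log (2 * K * ε ^ α / ε + 3) / |Real.log ε|) (𝓝[>] 0) (𝓝 (1 - α)) := by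
  -- `log (2 K ε^(α-1) + 3) = (α - 1) log ε + log (2 K + 3 ε^(1-α))`
  have h1 : ∀ᶠ ε : ℝ in 𝓝[>] 0, Real.log (2 * K * ε ^ α / ε + 3) / |Real.log ε|
      = (1 - α) + Real.log (2 * K + 3 * ε ^ (1 - α)) / |Real.log ε| := by
    have h2 : Set.Ioo (0 : ℝ) 1 ∈ 𝓝[>] (0 : ℝ) := Ioo_mem_nhdsGT one_pos
    filter_upwards [h2] with ε hε
    have hε0 : 0 < ε := hε.1
    have hlog : Real.log ε < 0 := Real.log_neg hε0 hε.2
    have h3 : 2 * K * ε ^ α / ε + 3 = ε ^ (α - 1) * (2 * K + 3 * ε ^ (1 - α)) := by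
      rw [Real.rpow_sub_one hε0.ne']
      have h4 : ε ^ α / ε * (3 * ε ^ (1 - α)) = 3 := by
        have h5 : ε ^ α * ε ^ (1 - α) = ε := by
          rw [← Real.rpow_add hε0]
          simp
        calc ε ^ α / ε * (3 * ε ^ (1 - α)) = 3 * (ε ^ α * ε ^ (1 - α)) / ε := by ring
          _ = 3 := by rw [h5]; field_simp
      rw [mul_add, h4]
      ring
    have h6 : 0 < 2 * K + 3 * ε ^ (1 - α) := by positivity
    rw [h3, Real.log_mul (by positivity) h6.ne', Real.log_rpow hε0, abs_of_neg hlog]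
    have hne : Real.log ε ≠ 0 := hlog.ne
    rw [div_eq_iff (neg_ne_zero.mpr hne), add_mul, div_mul_cancel₀ _ (neg_ne_zero.mpr hne)]
    ring
  have h2 : Tendsto (fun ε : ℝ => (1 - α) + Real.log (2 * K + 3 * ε ^ (1 - α)) / |Real.log ε|) (𝓝[>] 0)
      (𝓝 ((1 - α) + 0)) := by
    refine tendsto_const_nhds.add ?_
    -- bounded numerator over infinity
    have h3 : Tendsto (fun ε : ℝ => |Real.log ε|) (𝓝[>] 0) atTop :=
      tendsto_abs_atBot_atTop.comp Real.tendsto_log_nhdsGT_zero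
    have h4 : ∀ᶠ ε : ℝ in 𝓝[>] 0, |Real.log (2 * K + 3 * ε ^ (1 - α))| ≤
        |Real.log (2 * K)| + |Real.log (2 * K + 3)| := by
      have h2 : Set.Ioo (0 : ℝ) 1 ∈ 𝓝[>] (0 : ℝ) := Ioo_mem_nhdsGT one_pos
      filter_upwards [h2] with ε hε
      have h5 : 0 ≤ ε ^ (1 - α) := Real.rpow_nonneg hε.1.le _
      have h6 : ε ^ (1 - α) ≤ 1 := Real.rpow_le_one hε.1.le hε.2.le (by linarith)
      have h7 : Real.log (2 * K) ≤ Real.log (2 * K + 3 * ε ^ (1 - α)) :=
        Real.log_le_log (by positivity) (by linarith)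
      have h8 : Real.log (2 * K + 3 * ε ^ (1 - α)) ≤ Real.log (2 * K + 3) :=
        Real.log_le_log (by positivity) (by linarith)
      rw [abs_le]
      constructor
      · linarith [neg_abs_le (Real.log (2 * K)), abs_nonneg (Real.log (2 * K + 3))]
      · linarith [le_abs_self (Real.log (2 * K + 3)), abs_nonneg (Real.log (2 * K))]
    refine squeeze_zero_norm' (a := fun ε : ℝ => (|Real.log (2 * K)| + |Real.log (2 * K + 3)|) / |Real.log ε|) ?_
      (h3.const_div_atTop _)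
    filter_upwards [h4] with ε hε
    rw [Real.norm_eq_abs, abs_div, abs_abs]
    gcongr
  rw [add_zero] at h2
  exact h2.congr' (h1.mono fun _ h => h.symm)

/-- **Main bound.** The upper metric mean dimension of an `α`-Hölder map is at most `1 - α`. -/
theorem upperMdim_le {φ : I → I} {α : ℝ} (hα : 0 < α) (hα1 : α ≤ 1) (hφ : IsHolder φ α) :
    upperMdim φ ≤ ((1 - α : ℝ) : EReal) := by
  obtain ⟨K, hK, hφ⟩ := hφ
  have h1 : Tendsto (fun ε : ℝ => ((Real.log (2 * K * ε ^ α / ε + 3) / |Real.log ε| : ℝ) : EReal)) (𝓝[>] 0)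
      (𝓝 ((1 - α : ℝ) : EReal)) :=
    (continuous_coe_real_ereal.tendsto _).comp (tendsto_rate hK hα1)
  rw [← h1.limsup_eq]
  refine limsup_le_limsup ?_
  filter_upwards [self_mem_nhdsWithin] with ε hε
  rw [EReal.coe_div]
  exact EReal.div_le_div_right_of_nonneg (by exact_mod_cast abs_nonneg _) (sepRate_le hK hα hε hφ)

theorem sepRate_nonneg (φ : I → I) (ε : ℝ) : 0 ≤ sepRate φ ε := by
  have h1 : ∀ n : ℕ, (0 : EReal) ≤ ENNReal.log (sepCard φ n ε : ℝ≥0∞) / (n : EReal) := by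
    intro n
    have h2 : (1 : ℕ∞) ≤ sepCard φ n ε := by
      have h3 : IsSep φ n ε {0} := by
        intro x hx y hy hxy
        rw [Finset.mem_singleton] at hx hy
        exact absurd (hx.trans hy.symm) hxy
      refine le_trans ?_ (le_iSup₂ (f := fun (A : Finset I) (_ : IsSep φ n ε A) => (A.card : ℕ∞)) {0} h3)
      simp
    have h3 : (1 : ℝ≥0∞) ≤ (sepCard φ n ε : ℝ≥0∞) := by exact_mod_cast h2
    refine EReal.div_nonneg ?_ (by positivity)
    rw [← ENNReal.log_one]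
    exact ENNReal.log_monotone h3
  have h2 : (0 : EReal) = limsup (fun _ : ℕ => (0 : EReal)) atTop := by simp
  rw [sepRate, h2]
  exact limsup_le_limsup (Eventually.of_forall h1)

theorem lowerMdim_nonneg (φ : I → I) : 0 ≤ lowerMdim φ := by
  have h2 : (0 : EReal) = liminf (fun _ : ℝ => (0 : EReal)) (𝓝[>] 0) := by simp
  rw [lowerMdim, h2]
  exact liminf_le_liminf (Eventually.of_forall fun ε =>
    EReal.div_nonneg (sepRate_nonneg φ ε) (by exact_mod_cast abs_nonneg _))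

theorem lower_le_upper (φ : I → I) : lowerMdim φ ≤ upperMdim φ := liminf_le_limsup

end Pool.Agent.R204.MD
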