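import Mathlib

/-!
Optimal stopping along a random ordering: optional stopping for set functions and the
second moment of the hypergeometric distribution.
-/

namespace Pool.Agent.R204.OS

open Finset

variable {n : ℕ}

/-- vertices which are still inactive after `t` steps -/
def inact (σ : Equiv.Perm (Fin n)) (t : ℕ) : Finset (Fin n) :=
  (univ.filter fun i : Fin n => t ≤ i.val).map σ.toEmbedding

lemma mem_inact {σ : Equiv.Perm (Fin n)} {t : ℕ} {v : Fin n} :
    v ∈ inact σ t ↔ ∃ i : Fin n, t ≤ i.val ∧ σ i = v := by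
  rw [inact, mem_map]
  constructor
  · rintro ⟨i, hi, rfl⟩
    exact ⟨i, (mem_filter.mp hi).2, rfl⟩
  · rintro ⟨i, hi, rfl⟩
    exact ⟨i, mem_filter.mpr ⟨mem_univ _, hi⟩, rfl⟩

/-- A stopping rule: the decision to stop depends on the vertices seen so far only. -/
structure IsStopping (A : Equiv.Perm (Fin n) → ℕ) : Prop where
  pos : ∀ σ, 1 ≤ A σ
  le : ∀ σ, A σ ≤ n
  adapted : ∀ σ τ, (∀ i : Fin n, i.val < A σ → σ i = τ i) → A τ = A σ

lemma inact_zero (σ : Equiv.Perm (Fin n)) : inact σ 0 = univ := by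
  ext v
  rw [mem_inact]
  constructor
  · intro _; exact mem_univ _
  · intro _; exact ⟨σ.symm v, Nat.zero_le _, by simp⟩

lemma inact_succ (σ : Equiv.Perm (Fin n)) {m : ℕ} (hm : m < n) :
    inact σ (m + 1) = (inact σ m).erase (σ ⟨m, hm⟩) := by
  ext v
  rw [mem_erase, mem_inact, mem_inact]
  constructor
  · rintro ⟨i, hi, rfl⟩
    refine ⟨fun h => ?_, i, by omega, rfl⟩
    have := σ.injective h
    rw [this] at hi
    simp at hi
  · rintro ⟨hne, i, hi, rfl⟩
    refine ⟨i, ?_, rfl⟩
    by_contra hcon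
    apply hne
    have : i = ⟨m, hm⟩ := Fin.ext (by simp only; omega)
    rw [this]

lemma card_filter_ge {m : ℕ} (hm : m ≤ n) :
    (univ.filter fun i : Fin n => m ≤ i.val).card = n - m := by
  have h1 : (univ.filter fun i : Fin n => ¬ i.val < m) = univ.filter fun i : Fin n => m ≤ i.val := by
    apply filter_congr
    intro i _
    exact not_lt
  have h2 := Finset.card_filter_add_card_filter_not (s := (univ : Finset (Fin n)))
    (fun i => i.val < m)
  rw [h1, card_univ, Fintype.card_fin] at h2
  have h3 : (univ.filter fun i : Fin n => i.val < m).card = m := by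
    have : (univ.filter fun i : Fin n => i.val < m) = (Finset.univ : Finset (Fin m)).map
        (Fin.castLEEmb hm) := by
      ext i
      simp only [mem_filter, mem_univ, true_and, mem_map]
      constructor
      · intro hi
        exact ⟨⟨i.val, hi⟩, Fin.ext rfl⟩
      · rintro ⟨j, rfl⟩
        exact j.isLt
    rw [this, card_map, card_univ, Fintype.card_fin]
  omega

lemma card_inact (σ : Equiv.Perm (Fin n)) {m : ℕ} (hm : m ≤ n) :
    (inact σ m).card = n - m := by
  rw [inact, card_map, card_filter_ge hm]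

lemma swap_apply_val_lt {m : ℕ} (hm : m < n) {j : Fin n} (hj : m ≤ j.val) {i : Fin n}
    (hi : i.val < m) : Equiv.swap (⟨m, hm⟩ : Fin n) j i = i := by
  apply Equiv.swap_apply_of_ne_of_ne
  · intro h; rw [h] at hi; simp at hi
  · intro h; rw [h] at hi; omega

lemma inact_mul_swap (σ : Equiv.Perm (Fin n)) {m : ℕ} (hm : m < n) {j : Fin n}
    (hj : m ≤ j.val) : inact (σ * Equiv.swap ⟨m, hm⟩ j) m = inact σ m := by
  have key : ∀ i : Fin n, m ≤ i.val → m ≤ (Equiv.swap (⟨m, hm⟩ : Fin n) j i).val := by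
    intro i hi
    by_contra hcon
    push Not at hcon
    have h1 := swap_apply_val_lt hm hj hcon
    rw [Equiv.swap_apply_self] at h1
    rw [← h1] at hcon
    omega
  ext v
  rw [mem_inact, mem_inact]
  constructor
  · rintro ⟨i, hi, rfl⟩
    exact ⟨Equiv.swap ⟨m, hm⟩ j i, key i hi, rfl⟩
  · rintro ⟨i, hi, rfl⟩
    refine ⟨Equiv.swap ⟨m, hm⟩ j i, key i hi, ?_⟩
    rw [Equiv.Perm.mul_apply, Equiv.swap_apply_self]

/-- Optional stopping for supermartingales given by set functions. -/
theorem optional_stopping (Φ : Finset (Fin n) → ℝ)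
    (hΦ : ∀ I : Finset (Fin n), I.Nonempty → ∑ w ∈ I, Φ (I.erase w) ≤ I.card * Φ I)
    (A : Equiv.Perm (Fin n) → ℕ) (hle : ∀ σ, A σ ≤ n)
    (had : ∀ σ τ, (∀ i : Fin n, i.val < A σ → σ i = τ i) → A τ = A σ) :
    ∑ σ, Φ (inact σ (A σ)) ≤ n.factorial * Φ univ := by
  have hstep : ∀ m, m < n → ∑ σ, Φ (inact σ (min (A σ) (m + 1)))
      ≤ ∑ σ, Φ (inact σ (min (A σ) m)) := by
    intro m hm
    set B : Finset (Equiv.Perm (Fin n)) := univ.filter fun σ => m < A σ with hB
    set J : Finset (Fin n) := univ.filter fun i : Fin n => m ≤ i.val with hJ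
    have hJc : J.card = n - m := card_filter_ge hm.le
    -- invariance of `B`
    have hBinv : ∀ j ∈ J, ∀ σ, σ ∈ B → σ * Equiv.swap ⟨m, hm⟩ j ∈ B := by
      intro j hj σ hσ
      rw [hJ, mem_filter] at hj
      rw [hB, mem_filter] at hσ ⊢
      refine ⟨mem_univ _, ?_⟩
      by_contra hcon
      push Not at hcon
      have := had (σ * Equiv.swap ⟨m, hm⟩ j) σ (by
        intro i hi
        rw [Equiv.Perm.mul_apply, swap_apply_val_lt hm hj.2 (by omega)])
      omega
    have hT : ∀ j ∈ J, ∑ σ ∈ B, Φ (inact σ (m + 1)) = ∑ σ ∈ B, Φ ((inact σ m).erase (σ j)) := by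
      intro j hj
      have hj' : m ≤ j.val := by
        rw [hJ, mem_filter] at hj
        exact hj.2
      refine Finset.sum_bij' (fun σ _ => σ * Equiv.swap ⟨m, hm⟩ j)
        (fun σ _ => σ * Equiv.swap ⟨m, hm⟩ j) (fun σ hσ => hBinv j hj σ hσ)
        (fun σ hσ => hBinv j hj σ hσ) ?_ ?_ ?_
      · intro σ _
        rw [mul_assoc, Equiv.swap_mul_self, mul_one]
      · intro σ _
        rw [mul_assoc, Equiv.swap_mul_self, mul_one]
      · intro σ _
        rw [inact_mul_swap σ hm hj', inact_succ σ hm, Equiv.Perm.mul_apply,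
          Equiv.swap_apply_right]
    have hmain : ∑ σ ∈ B, Φ (inact σ (m + 1)) ≤ ∑ σ ∈ B, Φ (inact σ m) := by
      have h1 : (J.card : ℝ) * ∑ σ ∈ B, Φ (inact σ (m + 1))
          = ∑ σ ∈ B, ∑ w ∈ inact σ m, Φ ((inact σ m).erase w) := by
        rw [← nsmul_eq_mul, ← Finset.sum_const, Finset.sum_congr rfl hT, Finset.sum_comm]
        apply Finset.sum_congr rfl
        intro σ _
        conv_rhs => rw [inact, Finset.sum_map]
        rfl
      have h2 : ∑ σ ∈ B, ∑ w ∈ inact σ m, Φ ((inact σ m).erase w)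
          ≤ (J.card : ℝ) * ∑ σ ∈ B, Φ (inact σ m) := by
        rw [Finset.mul_sum]
        apply Finset.sum_le_sum
        intro σ _
        have hc := card_inact σ hm.le
        have hne : (inact σ m).Nonempty := by
          rw [← Finset.card_pos]
          omega
        have := hΦ _ hne
        rw [hc] at this
        rw [hJc]
        exact this
      have hpos : (0 : ℝ) < J.card := by
        rw [hJc]
        have : 0 < n - m := by omega
        exact_mod_cast this
      rw [← h1] at h2
      exact le_of_mul_le_mul_left h2 hpos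
    have hsplit : ∀ k, ∑ σ, Φ (inact σ (min (A σ) k))
        = ∑ σ ∈ B, Φ (inact σ (min (A σ) k))
          + ∑ σ ∈ univ.filter (fun σ => ¬ m < A σ), Φ (inact σ (min (A σ) k)) := by
      intro k
      rw [hB, Finset.sum_filter_add_sum_filter_not]
    rw [hsplit (m + 1), hsplit m]
    have e1 : ∑ σ ∈ B, Φ (inact σ (min (A σ) (m + 1))) = ∑ σ ∈ B, Φ (inact σ (m + 1)) := by
      apply Finset.sum_congr rfl
      intro σ hσ
      rw [hB, mem_filter] at hσ
      rw [min_eq_right (by omega : m + 1 ≤ A σ)]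
    have e2 : ∑ σ ∈ B, Φ (inact σ (min (A σ) m)) = ∑ σ ∈ B, Φ (inact σ m) := by
      apply Finset.sum_congr rfl
      intro σ hσ
      rw [hB, mem_filter] at hσ
      rw [min_eq_right (by omega : m ≤ A σ)]
    have e3 : ∑ σ ∈ univ.filter (fun σ => ¬ m < A σ), Φ (inact σ (min (A σ) (m + 1)))
        = ∑ σ ∈ univ.filter (fun σ => ¬ m < A σ), Φ (inact σ (min (A σ) m)) := by
      apply Finset.sum_congr rfl
      intro σ hσ
      rw [mem_filter] at hσ
      rw [min_eq_left (by omega : A σ ≤ m + 1), min_eq_left (by omega : A σ ≤ m)]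
    rw [e1, e2, e3]
    linarith
  have hall : ∀ m, m ≤ n → ∑ σ, Φ (inact σ (min (A σ) m)) ≤ n.factorial * Φ univ := by
    intro m
    induction m with
    | zero =>
      intro _
      apply le_of_eq
      have : ∀ σ : Equiv.Perm (Fin n), Φ (inact σ (min (A σ) 0)) = Φ univ := by
        intro σ
        rw [Nat.min_zero, inact_zero]
      rw [Finset.sum_congr rfl fun σ _ => this σ, Finset.sum_const, nsmul_eq_mul, card_univ,
        Fintype.card_perm, Fintype.card_fin]
    | succ m ih =>
      intro hm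
      exact le_trans (hstep m (by omega)) (ih (by omega))
  have hfin := hall n le_rfl
  have : ∀ σ : Equiv.Perm (Fin n), Φ (inact σ (min (A σ) n)) = Φ (inact σ (A σ)) := by
    intro σ
    rw [min_eq_left (hle σ)]
  rw [Finset.sum_congr rfl fun σ _ => this σ] at hfin
  exact hfin

/-! ### second moments -/

lemma choose_pred (N s : ℕ) (hN : 1 ≤ N) :
    ((N - 1).choose s : ℝ) * N = (N.choose s : ℝ) * ((N : ℝ) - s) := by
  obtain ⟨N', rfl⟩ : ∃ N', N = N' + 1 := ⟨N - 1, by omega⟩
  rw [Nat.add_sub_cancel]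
  by_cases hs : s ≤ N' + 1
  · have h := Nat.choose_mul_succ_eq N' s
    have h' : ((N'.choose s * (N' + 1) : ℕ) : ℝ) = (((N' + 1).choose s * (N' + 1 - s) : ℕ) : ℝ) := by
      exact_mod_cast h
    push_cast [Nat.cast_sub hs] at h' ⊢
    exact h'
  · rw [Nat.choose_eq_zero_of_lt (by omega : N' < s),
      Nat.choose_eq_zero_of_lt (by omega : N' + 1 < s)]
    simp

section moments

variable {α : Type*} [DecidableEq α]

lemma filter_notMem (U : Finset α) (s : ℕ) (x : α) :
    (powersetCard s U).filter (fun I => x ∉ I) = powersetCard s (U.erase x) := by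
  ext I
  rw [mem_filter, mem_powersetCard, mem_powersetCard]
  constructor
  · rintro ⟨⟨h1, h2⟩, h3⟩
    exact ⟨fun y hy => mem_erase.mpr ⟨fun h => h3 (h ▸ hy), h1 hy⟩, h2⟩
  · rintro ⟨h1, h2⟩
    exact ⟨⟨fun y hy => mem_of_mem_erase (h1 hy), h2⟩, fun h => (mem_erase.mp (h1 h)).1 rfl⟩

lemma count_one (U : Finset α) (s : ℕ) {x : α} (hx : x ∈ U) :
    (((powersetCard s U).filter (fun I => x ∈ I)).card : ℝ) * U.card
      = s * (U.card.choose s : ℝ) := by
  have h1 := Finset.card_filter_add_card_filter_not (s := powersetCard s U) (fun I => x ∈ I)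
  rw [filter_notMem, card_powersetCard, card_powersetCard, card_erase_of_mem hx] at h1
  have hU : 1 ≤ U.card := card_pos.mpr ⟨x, hx⟩
  have h2 := choose_pred U.card s hU
  have h1' : (((powersetCard s U).filter (fun I => x ∈ I)).card : ℝ)
      + ((U.card - 1).choose s : ℝ) = (U.card.choose s : ℝ) := by exact_mod_cast h1
  have h3 : (((powersetCard s U).filter (fun I => x ∈ I)).card : ℝ)
      = (U.card.choose s : ℝ) - ((U.card - 1).choose s : ℝ) := by linarith
  rw [h3, sub_mul, h2]
  ring

lemma count_two (U : Finset α) (s : ℕ) {x y : α} (hx : x ∈ U) (hy : y ∈ U) (hxy : x ≠ y) :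
    (((powersetCard s U).filter (fun I => x ∈ I ∧ y ∈ I)).card : ℝ)
        * ((U.card : ℝ) * ((U.card : ℝ) - 1))
      = (s : ℝ) * ((s : ℝ) - 1) * (U.card.choose s : ℝ) := by
  -- `#{x ∈ I, y ∈ I} = #{x ∈ I} - #{x ∈ I, y ∉ I}` and the latter is counted in `U.erase y`
  have h1 : ((powersetCard s U).filter (fun I => x ∈ I ∧ y ∈ I)).card
      + ((powersetCard s (U.erase y)).filter (fun I => x ∈ I)).card
      = ((powersetCard s U).filter (fun I => x ∈ I)).card := by
    rw [← filter_notMem, filter_filter]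
    have := Finset.card_filter_add_card_filter_not
      (s := (powersetCard s U).filter (fun I => x ∈ I)) (fun I => y ∈ I)
    rw [filter_filter, filter_filter] at this
    rw [← this]
    congr 2
    apply filter_congr
    intro I _
    tauto
  have hxe : x ∈ U.erase y := mem_erase.mpr ⟨hxy, hx⟩
  have h2 := count_one U s hx
  have h3 := count_one (U.erase y) s hxe
  rw [card_erase_of_mem hy] at h3
  have hU : 1 ≤ U.card := card_pos.mpr ⟨x, hx⟩
  have h4 := choose_pred U.card s hU
  rw [Nat.cast_sub hU, Nat.cast_one] at h3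
  have h1' : (((powersetCard s U).filter (fun I => x ∈ I ∧ y ∈ I)).card : ℝ)
      = (((powersetCard s U).filter (fun I => x ∈ I)).card : ℝ)
        - (((powersetCard s (U.erase y)).filter (fun I => x ∈ I)).card : ℝ) := by
    rw [← h1]
    push_cast
    ring
  rw [h1']
  set a : ℝ := (((powersetCard s U).filter (fun I => x ∈ I)).card : ℝ)
  set b : ℝ := (((powersetCard s (U.erase y)).filter (fun I => x ∈ I)).card : ℝ)
  set N : ℝ := (U.card : ℝ)
  set c : ℝ := (U.card.choose s : ℝ)
  set c' : ℝ := ((U.card - 1).choose s : ℝ)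
  -- a N = s c, b (N-1) = s c', c' N = c (N - s)
  have : (a - b) * (N * (N - 1)) = (a * N) * (N - 1) - (b * (N - 1)) * N := by ring
  rw [this, h2, h3]
  have : (s : ℝ) * c' * N = s * (c' * N) := by ring
  rw [this, h4]
  ring

lemma sum_card_inter (U L : Finset α) (hL : L ⊆ U) (s : ℕ) :
    (∑ I ∈ powersetCard s U, ((I ∩ L).card : ℝ)) * U.card
      = (L.card : ℝ) * s * (U.card.choose s : ℝ) := by
  have h1 : ∀ I : Finset α, ((I ∩ L).card : ℝ) = ∑ x ∈ L, if x ∈ I then (1 : ℝ) else 0 := by
    intro I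
    rw [inter_comm, ← Finset.filter_mem_eq_inter, Finset.card_filter]
    push_cast
    rfl
  rw [Finset.sum_congr rfl fun I _ => h1 I, Finset.sum_comm, Finset.sum_mul]
  have h2 : ∀ x ∈ L, (∑ I ∈ powersetCard s U, if x ∈ I then (1 : ℝ) else 0) * U.card
      = s * (U.card.choose s : ℝ) := by
    intro x hx
    rw [← count_one U s (hL hx), Finset.card_filter]
    push_cast
    rfl
  rw [Finset.sum_congr rfl h2, Finset.sum_const, nsmul_eq_mul]
  ring

lemma sum_card_inter_sq (U L : Finset α) (hL : L ⊆ U) (s : ℕ) (hU : 0 < U.card) :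
    ∑ I ∈ powersetCard s U, ((I ∩ L).card : ℝ) ^ 2
      ≤ (U.card.choose s : ℝ) *
        ((L.card : ℝ) * s / U.card + ((L.card : ℝ) * s / U.card) ^ 2) := by
  set N : ℝ := (U.card : ℝ) with hN
  set c : ℝ := (U.card.choose s : ℝ) with hc
  have hN0 : (0 : ℝ) < N := by rw [hN]; exact_mod_cast hU
  have hc0 : 0 ≤ c := by rw [hc]; positivity
  have h1 : ∀ I : Finset α, ((I ∩ L).card : ℝ) ^ 2
      = ∑ x ∈ L, ∑ y ∈ L, if x ∈ I ∧ y ∈ I then (1 : ℝ) else 0 := by
    intro I
    have : ((I ∩ L).card : ℝ) = ∑ x ∈ L, if x ∈ I then (1 : ℝ) else 0 := by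
      rw [inter_comm, ← Finset.filter_mem_eq_inter, Finset.card_filter]
      push_cast
      rfl
    rw [sq, this, Finset.sum_mul_sum]
    apply Finset.sum_congr rfl
    intro x _
    apply Finset.sum_congr rfl
    intro y _
    by_cases h1 : x ∈ I <;> by_cases h2 : y ∈ I <;> simp [h1, h2]
  rw [Finset.sum_congr rfl fun I _ => h1 I, Finset.sum_comm]
  -- for each `x`
  have h2 : ∀ x ∈ L, ∑ I ∈ powersetCard s U, ∑ y ∈ L, (if x ∈ I ∧ y ∈ I then (1 : ℝ) else 0)
      ≤ c * ((s : ℝ) / N + (L.card : ℝ) * s ^ 2 / N ^ 2) := by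
    intro x hx
    rw [Finset.sum_comm, ← Finset.add_sum_erase L _ hx]
    have e1 : ∑ I ∈ powersetCard s U, (if x ∈ I ∧ x ∈ I then (1 : ℝ) else 0) = c * (s / N) := by
      have h := count_one U s (hL hx)
      rw [Finset.card_filter] at h
      push_cast at h
      simp only [and_self]
      rw [← hN, ← hc] at h
      field_simp
      linarith
    have e2 : ∀ y ∈ L.erase x,
        ∑ I ∈ powersetCard s U, (if x ∈ I ∧ y ∈ I then (1 : ℝ) else 0)
          ≤ c * (s * ((s : ℝ) - 1) / (N * (N - 1))) := by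
      intro y hy
      rw [mem_erase] at hy
      have h := count_two U s (hL hx) (hL hy.2) hy.1.symm
      rw [Finset.card_filter] at h
      push_cast at h
      rw [← hN, ← hc] at h
      have hN2 : (2 : ℝ) ≤ N := by
        have : 2 ≤ U.card := by
          have : ({x, y} : Finset α) ⊆ U := by
            intro z hz
            rw [mem_insert, mem_singleton] at hz
            rcases hz with rfl | rfl
            · exact hL hx
            · exact hL hy.2
          have h' := card_le_card this
          rw [card_pair hy.1.symm] at h'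
          exact h'
        rw [hN]
        exact_mod_cast this
      have hN1 : (0 : ℝ) < N - 1 := by linarith
      apply le_of_eq
      field_simp
      linarith
    rw [e1]
    have e3 : ∑ y ∈ L.erase x,
        ∑ I ∈ powersetCard s U, (if x ∈ I ∧ y ∈ I then (1 : ℝ) else 0)
          ≤ c * ((L.card : ℝ) * s ^ 2 / N ^ 2) := by
      by_cases hLe : (L.erase x).card = 0
      · rw [Finset.card_eq_zero] at hLe
        rw [hLe, Finset.sum_empty]
        positivity
      · have h3 := Finset.sum_le_sum e2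
        rw [Finset.sum_const, nsmul_eq_mul] at h3
        refine le_trans h3 ?_
        rw [card_erase_of_mem hx] at hLe ⊢
        have hl1 : 1 ≤ L.card := card_pos.mpr ⟨x, hx⟩
        rw [Nat.cast_sub hl1, Nat.cast_one]
        set l : ℝ := (L.card : ℝ) with hl
        have hl2 : (2 : ℝ) ≤ l := by
          have : 2 ≤ L.card := by omega
          rw [hl]
          exact_mod_cast this
        have hlN : l ≤ N := by
          rw [hl, hN]
          exact_mod_cast card_le_card hL
        have hN1 : (0 : ℝ) < N - 1 := by linarith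
        have key : (l - 1) * (s * ((s : ℝ) - 1) / (N * (N - 1))) ≤ l * s ^ 2 / N ^ 2 := by
          by_cases hs : s = 0
          · subst hs
            simp
          · have hs1 : (1 : ℝ) ≤ s := by
              have : 1 ≤ s := by omega
              exact_mod_cast this
            rw [mul_div_assoc', div_le_div_iff₀ (by positivity) (by positivity)]
            have hA : (l - 1) * N ≤ l * (N - 1) := by nlinarith
            have hB : (s : ℝ) * (s - 1) ≤ s ^ 2 := by nlinarith
            have hC : (l - 1) * N * ((s : ℝ) * (s - 1)) ≤ l * (N - 1) * s ^ 2 :=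
              mul_le_mul hA hB (by nlinarith) (by nlinarith)
            nlinarith
        calc (l - 1) * (c * (s * ((s : ℝ) - 1) / (N * (N - 1))))
            = c * ((l - 1) * (s * ((s : ℝ) - 1) / (N * (N - 1)))) := by ring
          _ ≤ c * (l * s ^ 2 / N ^ 2) := mul_le_mul_of_nonneg_left key hc0
    linarith
  refine le_trans (Finset.sum_le_sum h2) ?_
  rw [Finset.sum_const, nsmul_eq_mul]
  apply le_of_eq
  field_simp

/-- mean square deviation of the size of the intersection with a random `s`-subset -/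
lemma sum_sq_dev (U L : Finset α) (hL : L ⊆ U) (s : ℕ) (hU : 0 < U.card) (a b : ℝ) :
    ∑ I ∈ powersetCard s U, (a * ((I ∩ L).card : ℝ) - b) ^ 2
      ≤ (U.card.choose s : ℝ) *
        (a ^ 2 * ((L.card : ℝ) * s / U.card) + (a * ((L.card : ℝ) * s / U.card) - b) ^ 2) := by
  have h1 := sum_card_inter U L hL s
  have h2 := sum_card_inter_sq U L hL s hU
  have hN0 : (0 : ℝ) < U.card := by exact_mod_cast hU
  have h1' : ∑ I ∈ powersetCard s U, ((I ∩ L).card : ℝ)
      = (U.card.choose s : ℝ) * ((L.card : ℝ) * s / U.card) := by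
    field_simp
    linarith
  have h3 : ∑ I ∈ powersetCard s U, (a * ((I ∩ L).card : ℝ) - b) ^ 2
      = a ^ 2 * ∑ I ∈ powersetCard s U, ((I ∩ L).card : ℝ) ^ 2
        - 2 * a * b * ∑ I ∈ powersetCard s U, ((I ∩ L).card : ℝ)
        + b ^ 2 * (U.card.choose s : ℝ) := by
    have : ∀ I ∈ powersetCard s U, (a * ((I ∩ L).card : ℝ) - b) ^ 2
        = a ^ 2 * ((I ∩ L).card : ℝ) ^ 2 - 2 * a * b * ((I ∩ L).card : ℝ) + b ^ 2 := by
      intro I _
      ring
    rw [Finset.sum_congr rfl this, Finset.sum_add_distrib, Finset.sum_sub_distrib,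
      ← Finset.mul_sum, ← Finset.mul_sum, Finset.sum_const, card_powersetCard, nsmul_eq_mul]
    ring
  rw [h3, h1']
  have h4 := mul_le_mul_of_nonneg_left h2 (sq_nonneg a)
  nlinarith

end moments

end Pool.Agent.R204.OS
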