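import Pool.Agent.R204.OSa

/-!
The potential function for one bipartite layer: `U` is a set of vertices, every `v ∈ U` has a
parent `p v ∉ U`, and the payoff is the number of active vertices of `U` whose parent is
inactive.
-/

namespace Pool.Agent.R204.OS

open Finset

variable {n : ℕ} (U : Finset (Fin n)) (p : Fin n → Fin n)

/-- number of `v ∈ U` with inactive parent -/
def Cc (I : Finset (Fin n)) : ℕ := (U.filter fun v => p v ∈ I).card

/-- number of inactive `v ∈ U` with inactive parent -/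
def Ec (I : Finset (Fin n)) : ℕ := (U.filter fun v => v ∈ I ∧ p v ∈ I).card

/-- the payoff: number of active `v ∈ U` with inactive parent -/
def Xc (I : Finset (Fin n)) : ℕ := (U.filter fun v => v ∉ I ∧ p v ∈ I).card

lemma Xc_add_Ec (I : Finset (Fin n)) : Xc U p I + Ec U p I = Cc U p I := by
  have := Finset.card_filter_add_card_filter_not (s := U.filter fun v => p v ∈ I)
    (fun v => v ∈ I)
  rw [filter_filter, filter_filter] at this
  rw [Xc, Ec, Cc, ← this, add_comm]
  congr 2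
  · apply filter_congr; intro v _; tauto
  · apply filter_congr; intro v _; tauto

lemma sum_Cc_erase (I : Finset (Fin n)) :
    ∑ w ∈ I, (Cc U p (I.erase w) : ℝ) = ((I.card : ℝ) - 1) * Cc U p I := by
  have h1 : ∀ w ∈ I, (Cc U p (I.erase w) : ℝ)
      = ∑ v ∈ U, if p v ∈ I.erase w then (1 : ℝ) else 0 := by
    intro w _
    rw [Cc, Finset.card_filter]
    push_cast
    rfl
  rw [Finset.sum_congr rfl h1, Finset.sum_comm, Cc, Finset.card_filter]
  push_cast
  rw [Finset.mul_sum]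
  apply Finset.sum_congr rfl
  intro v _
  by_cases hv : p v ∈ I
  · rw [if_pos hv, mul_one, ← Finset.add_sum_erase I _ hv]
    have e1 : (if p v ∈ I.erase (p v) then (1 : ℝ) else 0) = 0 := by simp
    have e2 : ∀ w ∈ I.erase (p v), (if p v ∈ I.erase w then (1 : ℝ) else 0) = 1 := by
      intro w hw
      rw [if_pos]
      rw [mem_erase] at hw ⊢
      exact ⟨hw.1.symm, hv⟩
    rw [e1, Finset.sum_congr rfl e2, Finset.sum_const, card_erase_of_mem hv, nsmul_eq_mul,
      mul_one, zero_add, Nat.cast_sub (card_pos.mpr ⟨_, hv⟩), Nat.cast_one]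
  · rw [if_neg hv, mul_zero]
    apply Finset.sum_eq_zero
    intro w _
    rw [if_neg]
    intro h
    exact hv (mem_of_mem_erase h)

variable {U p} in
lemma sum_Ec_erase (hp : ∀ v ∈ U, p v ∉ U) (I : Finset (Fin n)) :
    ∑ w ∈ I, (Ec U p (I.erase w) : ℝ) = ((I.card : ℝ) - 2) * Ec U p I := by
  have h1 : ∀ w ∈ I, (Ec U p (I.erase w) : ℝ)
      = ∑ v ∈ U, if v ∈ I.erase w ∧ p v ∈ I.erase w then (1 : ℝ) else 0 := by
    intro w _
    rw [Ec, Finset.card_filter]
    push_cast
    rfl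
  rw [Finset.sum_congr rfl h1, Finset.sum_comm, Ec, Finset.card_filter]
  push_cast
  rw [Finset.mul_sum]
  apply Finset.sum_congr rfl
  intro v hvU
  by_cases hv : v ∈ I ∧ p v ∈ I
  · have hne : v ≠ p v := fun h => hp v hvU (h ▸ hvU)
    have hv2 : p v ∈ I.erase v := mem_erase.mpr ⟨hne.symm, hv.2⟩
    rw [if_pos hv, mul_one, ← Finset.add_sum_erase I _ hv.1,
      ← Finset.add_sum_erase (I.erase v) _ hv2]
    have e1 : (if v ∈ I.erase v ∧ p v ∈ I.erase v then (1 : ℝ) else 0) = 0 := by simp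
    have e1' : (if v ∈ I.erase (p v) ∧ p v ∈ I.erase (p v) then (1 : ℝ) else 0) = 0 := by simp
    have e2 : ∀ w ∈ (I.erase v).erase (p v),
        (if v ∈ I.erase w ∧ p v ∈ I.erase w then (1 : ℝ) else 0) = 1 := by
      intro w hw
      rw [mem_erase, mem_erase] at hw
      rw [if_pos ⟨mem_erase.mpr ⟨hw.2.1.symm, hv.1⟩, mem_erase.mpr ⟨hw.1.symm, hv.2⟩⟩]
    rw [e1, e1', Finset.sum_congr rfl e2, Finset.sum_const, card_erase_of_mem hv2,
      card_erase_of_mem hv.1, nsmul_eq_mul, mul_one, zero_add, zero_add]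
    have hc1 : 1 ≤ I.card := card_pos.mpr ⟨_, hv.1⟩
    have hc2 : 1 ≤ I.card - 1 := by
      rw [← card_erase_of_mem hv.1]
      exact card_pos.mpr ⟨_, hv2⟩
    rw [Nat.cast_sub hc2, Nat.cast_sub hc1]
    push_cast
    ring
  · rw [if_neg hv, mul_zero]
    apply Finset.sum_eq_zero
    intro w _
    rw [if_neg]
    rintro ⟨h1, h2⟩
    exact hv ⟨mem_of_mem_erase h1, mem_of_mem_erase h2⟩

/-- normalized `Cc` -/
noncomputable def Ch (I : Finset (Fin n)) : ℝ := n * Cc U p I / I.card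

/-- normalized difference -/
noncomputable def Rh (I : Finset (Fin n)) : ℝ :=
  n * ((n : ℝ) - 1) * Ec U p I / (I.card * ((I.card : ℝ) - 1)) - n * Cc U p I / I.card

noncomputable def ff (I : Finset (Fin n)) : ℝ := Rh U p I ^ 2 / Ch U p I

lemma Ch_nonneg (I : Finset (Fin n)) : 0 ≤ Ch U p I := by
  unfold Ch
  positivity

lemma ff_nonneg (I : Finset (Fin n)) : 0 ≤ ff U p I := by
  unfold ff
  exact div_nonneg (sq_nonneg _) (Ch_nonneg U p I)

lemma Ec_le_Cc (I : Finset (Fin n)) : Ec U p I ≤ Cc U p I := by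
  have := Xc_add_Ec U p I
  omega

lemma Cc_eq_zero_of_Ch {I : Finset (Fin n)} (hI : 0 < I.card) (h : Ch U p I = 0) :
    Cc U p I = 0 ∧ Ec U p I = 0 := by
  have hn : 0 < n := by
    obtain ⟨x, _⟩ := card_pos.mp hI
    exact lt_of_le_of_lt (Nat.zero_le _) x.isLt
  have h1 : Cc U p I = 0 := by
    unfold Ch at h
    have hI' : (I.card : ℝ) ≠ 0 := by positivity
    have hn' : (n : ℝ) ≠ 0 := by positivity
    rw [div_eq_zero_iff] at h
    rcases h with h | h
    · rcases mul_eq_zero.mp h with h | h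
      · exact absurd h hn'
      · exact_mod_cast h
    · exact absurd h hI'
  have := Ec_le_Cc U p I
  exact ⟨h1, by omega⟩

lemma Rh_sq {I : Finset (Fin n)} (hI : 0 < I.card) :
    Rh U p I ^ 2 = ff U p I * Ch U p I := by
  by_cases h : Ch U p I = 0
  · obtain ⟨h1, h2⟩ := Cc_eq_zero_of_Ch U p hI h
    have : Rh U p I = 0 := by
      unfold Rh
      rw [h1, h2]
      simp
    rw [this, h]
    simp
  · unfold ff
    field_simp

lemma sum_Ch_erase {I : Finset (Fin n)} (hI : 2 ≤ I.card) :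
    ∑ w ∈ I, Ch U p (I.erase w) = I.card * Ch U p I := by
  have h1 : ∀ w ∈ I, Ch U p (I.erase w) = n / ((I.card : ℝ) - 1) * Cc U p (I.erase w) := by
    intro w hw
    unfold Ch
    rw [card_erase_of_mem hw, Nat.cast_sub (by omega), Nat.cast_one]
    ring
  rw [Finset.sum_congr rfl h1, ← Finset.mul_sum, sum_Cc_erase]
  unfold Ch
  have h2 : (2 : ℝ) ≤ I.card := by exact_mod_cast hI
  have h3 : (I.card : ℝ) - 1 ≠ 0 := by
    have : (0 : ℝ) < (I.card : ℝ) - 1 := by linarith
    exact this.ne'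
  have h4 : (I.card : ℝ) ≠ 0 := by
    have : (0 : ℝ) < (I.card : ℝ) := by linarith
    exact this.ne'
  field_simp

variable {U p} in
lemma sum_Rh_erase (hp : ∀ v ∈ U, p v ∉ U) {I : Finset (Fin n)} (hI : 3 ≤ I.card) :
    ∑ w ∈ I, Rh U p (I.erase w) = I.card * Rh U p I := by
  have h1 : ∀ w ∈ I, Rh U p (I.erase w)
      = n * ((n : ℝ) - 1) / (((I.card : ℝ) - 1) * ((I.card : ℝ) - 2)) * Ec U p (I.erase w)
        - n / ((I.card : ℝ) - 1) * Cc U p (I.erase w) := by
    intro w hw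
    unfold Rh
    rw [card_erase_of_mem hw, Nat.cast_sub (by omega), Nat.cast_one]
    ring
  rw [Finset.sum_congr rfl h1, Finset.sum_sub_distrib, ← Finset.mul_sum, ← Finset.mul_sum,
    sum_Cc_erase, sum_Ec_erase hp]
  unfold Rh
  have h2 : (3 : ℝ) ≤ I.card := by exact_mod_cast hI
  have h3 : (I.card : ℝ) - 1 ≠ 0 := by
    have : (0 : ℝ) < (I.card : ℝ) - 1 := by linarith
    exact this.ne'
  have h3' : (I.card : ℝ) - 2 ≠ 0 := by
    have : (0 : ℝ) < (I.card : ℝ) - 2 := by linarith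
    exact this.ne'
  have h4 : (I.card : ℝ) ≠ 0 := by
    have : (0 : ℝ) < (I.card : ℝ) := by linarith
    exact this.ne'
  field_simp

/-- average of `ff` over the `m`-subsets of `I` -/
noncomputable def Th (m : ℕ) (I : Finset (Fin n)) : ℝ :=
  (∑ I' ∈ powersetCard m I, ff U p I') / (I.card.choose m : ℝ)

lemma sum_erase_powersetCard (F : Finset (Fin n) → ℝ) (m : ℕ) (I : Finset (Fin n)) :
    ∑ w ∈ I, ∑ I' ∈ powersetCard m (I.erase w), F I'
      = ((I.card : ℝ) - m) * ∑ I' ∈ powersetCard m I, F I' := by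
  rw [Finset.sum_comm' (s' := fun I' => I \ I') (t' := powersetCard m I)]
  · rw [Finset.mul_sum]
    apply Finset.sum_congr rfl
    intro I' hI'
    rw [mem_powersetCard] at hI'
    rw [Finset.sum_const, nsmul_eq_mul, card_sdiff_of_subset hI'.1, Nat.cast_sub (card_le_card hI'.1),
      hI'.2]
  · intro w I'
    rw [mem_powersetCard, mem_powersetCard, mem_sdiff]
    constructor
    · rintro ⟨hw, h1, h2⟩
      refine ⟨⟨hw, fun h => ?_⟩, fun y hy => mem_of_mem_erase (h1 hy), h2⟩
      exact (mem_erase.mp (h1 h)).1 rfl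
    · rintro ⟨⟨hw, hwI⟩, h1, h2⟩
      refine ⟨hw, fun y hy => mem_erase.mpr ⟨?_, h1 hy⟩, h2⟩
      rintro rfl
      exact hwI hy

lemma sum_Th_erase {m : ℕ} {I : Finset (Fin n)} (hI : m < I.card) :
    ∑ w ∈ I, Th U p m (I.erase w) = I.card * Th U p m I := by
  have h1 : ∀ w ∈ I, Th U p m (I.erase w)
      = (1 / ((I.card - 1).choose m : ℝ)) * ∑ I' ∈ powersetCard m (I.erase w), ff U p I' := by
    intro w hw
    unfold Th
    rw [card_erase_of_mem hw]
    ring
  rw [Finset.sum_congr rfl h1, ← Finset.mul_sum, sum_erase_powersetCard]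
  unfold Th
  have h2 := choose_pred I.card m (by omega)
  have h3 : ((I.card - 1).choose m : ℝ) ≠ 0 := by
    have : 0 < (I.card - 1).choose m := Nat.choose_pos (by omega)
    positivity
  have h4 : (I.card.choose m : ℝ) ≠ 0 := by
    have : 0 < I.card.choose m := Nat.choose_pos (by omega)
    positivity
  set S := ∑ I' ∈ powersetCard m I, ff U p I'
  rw [div_mul_eq_mul_div, one_mul, mul_div_assoc', div_eq_div_iff h3 h4]
  linear_combination (-S) * h2

lemma Th_base {m : ℕ} {I : Finset (Fin n)} (hI : I.card = m) : Th U p m I = ff U p I := by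
  unfold Th
  rw [← hI, powersetCard_self, Finset.sum_singleton, Nat.choose_self]
  simp

variable {U p} in
lemma ff_le_Th (hp : ∀ v ∈ U, p v ∉ U) {m : ℕ} (hm : 2 ≤ m) : ∀ k, m ≤ k →
    ∀ I : Finset (Fin n), I.card = k → ff U p I ≤ Th U p m I := by
  intro k hk
  induction k, hk using Nat.le_induction with
  | base => intro I hI; rw [Th_base U p hI]
  | succ k hk ih =>
    intro I hI
    have hc : (0 : ℝ) < I.card := by
      rw [hI]; positivity
    have h1 := sum_Th_erase U p (m := m) (I := I) (by omega)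
    have h2 : ∑ w ∈ I, ff U p (I.erase w) ≤ ∑ w ∈ I, Th U p m (I.erase w) := by
      apply Finset.sum_le_sum
      intro w hw
      exact ih _ (by rw [card_erase_of_mem hw, hI]; rfl)
    rw [h1] at h2
    have h3 : (∑ w ∈ I, Rh U p (I.erase w)) ^ 2
        ≤ (∑ w ∈ I, ff U p (I.erase w)) * ∑ w ∈ I, Ch U p (I.erase w) := by
      apply Finset.sum_sq_le_sum_mul_sum_of_sq_le_mul
      · intro w _; exact ff_nonneg U p _
      · intro w _; exact Ch_nonneg U p _
      · intro w hw
        apply le_of_eq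
        apply Rh_sq
        rw [card_erase_of_mem hw]
        omega
    rw [sum_Rh_erase hp (by omega), sum_Ch_erase U p (by omega)] at h3
    by_cases hC : Ch U p I = 0
    · have : ff U p I = 0 := by
        unfold ff
        rw [hC, div_zero]
      rw [this]
      unfold Th
      apply div_nonneg
      · exact Finset.sum_nonneg fun I' _ => ff_nonneg U p I'
      · positivity
    · have hCp : 0 < Ch U p I := lt_of_le_of_ne (Ch_nonneg U p I) (Ne.symm hC)
      unfold ff
      rw [div_le_iff₀ hCp]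
      have h4 : (I.card : ℝ) * ((I.card : ℝ) * Rh U p I ^ 2)
          ≤ (I.card : ℝ) * ((I.card : ℝ) * (Th U p m I * Ch U p I)) := by
        calc (I.card : ℝ) * ((I.card : ℝ) * Rh U p I ^ 2)
            = ((I.card : ℝ) * Rh U p I) ^ 2 := by ring
          _ ≤ (∑ w ∈ I, ff U p (I.erase w)) * ((I.card : ℝ) * Ch U p I) := h3
          _ ≤ ((I.card : ℝ) * Th U p m I) * ((I.card : ℝ) * Ch U p I) :=
              mul_le_mul_of_nonneg_right h2 (by positivity)
          _ = _ := by ring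
      exact le_of_mul_le_mul_left (le_of_mul_le_mul_left h4 hc) hc

/-- the martingale part of the potential -/
noncomputable def MM (m : ℕ) (I : Finset (Fin n)) : ℝ :=
  n / (2 * (I.card : ℝ)) * Cc U p I
    - n * ((n : ℝ) - 2) / (4 * I.card * ((I.card : ℝ) - 1)) * Ec U p I + Th U p m I

variable {U p} in
lemma sum_MM_erase (hp : ∀ v ∈ U, p v ∉ U) {m : ℕ} (hm : 2 ≤ m) {I : Finset (Fin n)}
    (hI : m < I.card) : ∑ w ∈ I, MM U p m (I.erase w) = I.card * MM U p m I := by
  have h1 : ∀ w ∈ I, MM U p m (I.erase w)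
      = n / (2 * ((I.card : ℝ) - 1)) * Cc U p (I.erase w)
        - n * ((n : ℝ) - 2) / (4 * ((I.card : ℝ) - 1) * ((I.card : ℝ) - 2))
          * Ec U p (I.erase w) + Th U p m (I.erase w) := by
    intro w hw
    unfold MM
    rw [card_erase_of_mem hw, Nat.cast_sub (by omega), Nat.cast_one]
    ring
  rw [Finset.sum_congr rfl h1, Finset.sum_add_distrib, Finset.sum_sub_distrib, ← Finset.mul_sum,
    ← Finset.mul_sum, sum_Cc_erase, sum_Ec_erase hp, sum_Th_erase U p hI]
  unfold MM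
  have h2 : (3 : ℝ) ≤ I.card := by
    have : 3 ≤ I.card := by omega
    exact_mod_cast this
  have h3 : (I.card : ℝ) - 1 ≠ 0 := by
    have : (0 : ℝ) < (I.card : ℝ) - 1 := by linarith
    exact this.ne'
  have h3' : (I.card : ℝ) - 2 ≠ 0 := by
    have : (0 : ℝ) < (I.card : ℝ) - 2 := by linarith
    exact this.ne'
  have h4 : (I.card : ℝ) ≠ 0 := by
    have : (0 : ℝ) < (I.card : ℝ) := by linarith
    exact this.ne'
  field_simp

/-- key inequality in normalized form -/
lemma key_ineq {c e y z N r : ℝ} (_hN : 0 < N) (hc : 0 ≤ c) (hr : e = c + r)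
    (he : 0 ≤ e) (h0 : c = 0 → r = 0) (hz : y ^ 2 - 1 / (4 * N) ≤ z) (hy0 : 0 ≤ y)
    (hy1 : y ≤ 1) : y * c - z * e ≤ c / 2 - (1 / 4 - 1 / (4 * N)) * e + r ^ 2 / c := by
  have h1 : y * c - z * e ≤ y * c - (y ^ 2 - 1 / (4 * N)) * e := by nlinarith
  refine le_trans h1 ?_
  by_cases hc0 : c = 0
  · have hr0 := h0 hc0
    rw [hr, hr0, hc0]
    simp
  · have hcp : 0 < c := lt_of_le_of_ne hc (Ne.symm hc0)
    have h2 : 0 ≤ (c / 4 - y * c + y ^ 2 * c) + r * (y ^ 2 - 1 / 4) + r ^ 2 / c := by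
      have h3 : (c / 4 - y * c + y ^ 2 * c) + r * (y ^ 2 - 1 / 4) + r ^ 2 / c
          = ((c * (y - 1 / 2)) ^ 2 + (c * (y - 1 / 2)) * r * (y + 1 / 2) + r ^ 2) / c := by
        field_simp
        ring
      rw [h3]
      apply div_nonneg _ hc
      set x := c * (y - 1 / 2)
      have hy2 : (y + 1 / 2) ^ 2 ≤ 4 := by nlinarith
      nlinarith [sq_nonneg (x + r * (y + 1 / 2) / 2), sq_nonneg r]
    rw [hr]
    nlinarith

lemma base_ineq {c e y N r : ℝ} (hN : 0 < N) (hc : 0 ≤ c) (hr : e = c + r)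
    (he : 0 ≤ e) (h0 : c = 0 → r = 0) (hy1 : y ≤ 1 / 8) :
    y * c ≤ c / 2 - (1 / 4 - 1 / (4 * N)) * e + r ^ 2 / c := by
  have h1 : 0 ≤ 1 / (4 * N) * e := by positivity
  have h1' : y * c ≤ 1 / 8 * c := mul_le_mul_of_nonneg_right hy1 hc
  by_cases hc0 : c = 0
  · have hr0 := h0 hc0
    rw [hr, hr0, hc0]
    simp
  · have hcp : 0 < c := lt_of_le_of_ne hc (Ne.symm hc0)
    have h2 : 0 ≤ c / 8 - r / 4 + r ^ 2 / c := by
      have h3 : c / 8 - r / 4 + r ^ 2 / c = (c ^ 2 / 8 - c * r / 4 + r ^ 2) / c := by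
        field_simp
      rw [h3]
      apply div_nonneg _ hc
      nlinarith [sq_nonneg (c / 8 - r), sq_nonneg c, sq_nonneg r]
    nlinarith

/-- the potential -/
noncomputable def Phi (m : ℕ) (I : Finset (Fin n)) : ℝ :=
  if I.card ≤ m then (Cc U p I : ℝ) else MM U p m I

variable {U p} in
lemma norm_facts {I : Finset (Fin n)} (hI : 2 ≤ I.card) (hn : 2 ≤ n) :
    (Cc U p I : ℝ) = (I.card / n) * Ch U p I ∧
    (Ec U p I : ℝ) = (I.card * ((I.card : ℝ) - 1) / (n * ((n : ℝ) - 1)))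
        * (Ch U p I + Rh U p I) ∧
    n / (2 * (I.card : ℝ)) * Cc U p I
      - n * ((n : ℝ) - 2) / (4 * I.card * ((I.card : ℝ) - 1)) * Ec U p I
      = Ch U p I / 2 - (1 / 4 - 1 / (4 * ((n : ℝ) - 1))) * (Ch U p I + Rh U p I) ∧
    0 ≤ Ch U p I + Rh U p I ∧ (Ch U p I = 0 → Rh U p I = 0) := by
  have h2 : (2 : ℝ) ≤ I.card := by exact_mod_cast hI
  have h2n : (2 : ℝ) ≤ n := by exact_mod_cast hn
  have hk1 : (0 : ℝ) < (I.card : ℝ) - 1 := by linarith
  have hk0 : (0 : ℝ) < (I.card : ℝ) := by linarith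
  have hn1 : (0 : ℝ) < (n : ℝ) - 1 := by linarith
  have hn0 : (0 : ℝ) < (n : ℝ) := by linarith
  have hsum : Ch U p I + Rh U p I
      = n * ((n : ℝ) - 1) * Ec U p I / (I.card * ((I.card : ℝ) - 1)) := by
    unfold Ch Rh
    ring
  refine ⟨?_, ?_, ?_, ?_, ?_⟩
  · unfold Ch
    field_simp
  · rw [hsum]
    field_simp
  · rw [hsum]
    unfold Ch
    field_simp
    ring
  · rw [hsum]
    positivity
  · intro h
    obtain ⟨h1, h3⟩ := Cc_eq_zero_of_Ch U p (by omega) h
    unfold Rh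
    rw [h1, h3]
    simp

variable {U p} in
lemma Xc_le_Phi (hp : ∀ v ∈ U, p v ∉ U) {m : ℕ} (hm : 2 ≤ m) (I : Finset (Fin n)) :
    (Xc U p I : ℝ) ≤ Phi U p m I := by
  have hX : (Xc U p I : ℝ) = Cc U p I - Ec U p I := by
    have := Xc_add_Ec U p I
    have : ((Xc U p I + Ec U p I : ℕ) : ℝ) = (Cc U p I : ℝ) := by rw [this]
    push_cast at this
    linarith
  unfold Phi
  split_ifs with h
  · rw [hX]
    have : (0 : ℝ) ≤ Ec U p I := by positivity
    linarith
  · push Not at h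
    have hIn : I.card ≤ n := by
      have := card_le_univ I
      simpa using this
    obtain ⟨f1, f2, f3, f4, f5⟩ := norm_facts (U := U) (p := p) (I := I) (by omega)
      (by omega : 2 ≤ n)
    have h2 : (2 : ℝ) ≤ I.card := by
      have : 2 ≤ I.card := by omega
      exact_mod_cast this
    have hn' : (I.card : ℝ) ≤ n := by exact_mod_cast hIn
    have hn1 : (0 : ℝ) < (n : ℝ) - 1 := by linarith
    have hn0 : (0 : ℝ) < (n : ℝ) := by linarith
    have hff := ff_le_Th hp hm I.card (by omega) I rfl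
    unfold MM
    rw [hX, f3]
    have hk := key_ineq (c := Ch U p I) (e := Ch U p I + Rh U p I) (y := I.card / n)
      (z := I.card * ((I.card : ℝ) - 1) / (n * ((n : ℝ) - 1))) (N := (n : ℝ) - 1)
      (r := Rh U p I) hn1 (Ch_nonneg U p I) rfl f4 f5 ?_ (by positivity)
      (by rw [div_le_one hn0]; exact hn')
    · rw [← f1, ← f2] at hk
      unfold ff at hff
      linarith
    · have e1 : (I.card : ℝ) * ((I.card : ℝ) - 1) / (n * ((n : ℝ) - 1))
          = ((I.card : ℝ) / n) ^ 2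
            - (((I.card : ℝ) / n) * (1 - (I.card : ℝ) / n)) / ((n : ℝ) - 1) := by
        field_simp
        ring
      rw [e1]
      have e2 : ((I.card : ℝ) / n) * (1 - (I.card : ℝ) / n) ≤ 1 / 4 := by
        nlinarith [sq_nonneg ((I.card : ℝ) / n - 1 / 2)]
      have e3 : (((I.card : ℝ) / n) * (1 - (I.card : ℝ) / n)) / ((n : ℝ) - 1)
          ≤ 1 / (4 * ((n : ℝ) - 1)) := by
        rw [div_le_div_iff₀ hn1 (by positivity)]
        nlinarith
      linarith

variable {U p} in
lemma Cc_le_MM (hp : ∀ v ∈ U, p v ∉ U) {m : ℕ} (hm : 2 ≤ m) (hmn : 8 * m ≤ n)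
    {I : Finset (Fin n)} (hI : I.card = m) : (Cc U p I : ℝ) ≤ MM U p m I := by
  obtain ⟨f1, f2, f3, f4, f5⟩ := norm_facts (U := U) (p := p) (I := I) (by omega)
    (by omega : 2 ≤ n)
  have h2 : (2 : ℝ) ≤ m := by exact_mod_cast hm
  have h8 : (8 : ℝ) * m ≤ n := by exact_mod_cast hmn
  have hn0 : (0 : ℝ) < (n : ℝ) := by linarith
  have hn1 : (0 : ℝ) < (n : ℝ) - 1 := by linarith
  have hk := base_ineq (c := Ch U p I) (e := Ch U p I + Rh U p I) (y := I.card / n)
    (N := (n : ℝ) - 1) (r := Rh U p I) hn1 (Ch_nonneg U p I) rfl f4 f5 (by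
      rw [hI, div_le_iff₀ hn0]; linarith)
  unfold MM
  rw [f3, Th_base U p hI, ff]
  rw [← f1] at hk
  exact hk

variable {U p} in
lemma Phi_super (hp : ∀ v ∈ U, p v ∉ U) {m : ℕ} (hm : 2 ≤ m) (hmn : 8 * m ≤ n)
    (I : Finset (Fin n)) (hne : I.Nonempty) :
    ∑ w ∈ I, Phi U p m (I.erase w) ≤ I.card * Phi U p m I := by
  have hpos := card_pos.mpr hne
  rcases lt_trichotomy I.card (m + 1) with h | h | h
  · have h1 : ∀ w ∈ I, Phi U p m (I.erase w) = (Cc U p (I.erase w) : ℝ) := by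
      intro w hw
      unfold Phi
      rw [if_pos]
      rw [card_erase_of_mem hw]
      omega
    rw [Finset.sum_congr rfl h1, sum_Cc_erase]
    unfold Phi
    rw [if_pos (by omega)]
    have : (0 : ℝ) ≤ Cc U p I := by positivity
    nlinarith
  · have h1 : ∀ w ∈ I, Phi U p m (I.erase w) ≤ MM U p m (I.erase w) := by
      intro w hw
      have hc : (I.erase w).card = m := by
        rw [card_erase_of_mem hw]
        omega
      unfold Phi
      rw [if_pos (by omega)]
      exact Cc_le_MM hp hm hmn hc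
    refine le_trans (Finset.sum_le_sum h1) ?_
    rw [sum_MM_erase hp hm (by omega)]
    unfold Phi
    rw [if_neg (by omega)]
  · have h1 : ∀ w ∈ I, Phi U p m (I.erase w) = MM U p m (I.erase w) := by
      intro w hw
      unfold Phi
      rw [if_neg]
      rw [card_erase_of_mem hw]
      omega
    rw [Finset.sum_congr rfl h1, sum_MM_erase hp hm (by omega)]
    unfold Phi
    rw [if_neg (by omega)]

end Pool.Agent.R204.OS
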