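import Pool.Agent.R204.OSb

/-!
The mean of the potential at the final level, and the bound for one bipartite layer.
-/

namespace Pool.Agent.R204.OS

open Finset

variable {n : ℕ} {U : Finset (Fin n)} {p : Fin n → Fin n}

/-- comparison of sums over `m`-subsets fibre by fibre over the trace on the complement of `U` -/
lemma fiber_le (U : Finset (Fin n)) (m : ℕ) (F G : Finset (Fin n) → ℝ)
    (h : ∀ J ∈ powerset Uᶜ, J.card ≤ m → ∑ I' ∈ powersetCard (m - J.card) U, F (I' ∪ J)
      ≤ ∑ I' ∈ powersetCard (m - J.card) U, G (I' ∪ J)) :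
    ∑ I ∈ powersetCard m univ, F I ≤ ∑ I ∈ powersetCard m univ, G I := by
  have hmap : ∀ I ∈ powersetCard m (univ : Finset (Fin n)), I \ U ∈ powerset Uᶜ := by
    intro I _
    rw [mem_powerset]
    intro x hx
    rw [mem_sdiff] at hx
    rw [mem_compl]
    exact hx.2
  have key : ∀ (H : Finset (Fin n) → ℝ) (J : Finset (Fin n)), J ∈ powerset Uᶜ →
      J.card ≤ m → ∑ I ∈ powersetCard m (univ : Finset (Fin n)) with I \ U = J, H I
        = ∑ I' ∈ powersetCard (m - J.card) U, H (I' ∪ J) := by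
    intro H J hJ hJm
    rw [mem_powerset] at hJ
    have hdis : ∀ I' ⊆ U, Disjoint I' J := by
      intro I' hI'
      rw [disjoint_left]
      intro x hx hxJ
      exact (mem_compl.mp (hJ hxJ)) (hI' hx)
    symm
    refine Finset.sum_bij' (fun I' _ => I' ∪ J) (fun I _ => I ∩ U) ?_ ?_ ?_ ?_ ?_
    · intro I' hI'
      rw [mem_powersetCard] at hI'
      rw [mem_filter, mem_powersetCard]
      refine ⟨⟨subset_univ _, ?_⟩, ?_⟩
      · rw [card_union_of_disjoint (hdis I' hI'.1), hI'.2]
        omega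
      · ext x
        rw [mem_sdiff, mem_union]
        constructor
        · rintro ⟨hx | hx, hxU⟩
          · exact absurd (hI'.1 hx) hxU
          · exact hx
        · intro hx
          exact ⟨Or.inr hx, mem_compl.mp (hJ hx)⟩
    · intro I hI
      rw [mem_filter, mem_powersetCard] at hI
      rw [mem_powersetCard]
      refine ⟨inter_subset_right, ?_⟩
      have h1 := Finset.card_inter_add_card_sdiff I U
      rw [hI.2, hI.1.2] at h1
      omega
    · intro I' hI'
      rw [mem_powersetCard] at hI'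
      ext x
      rw [mem_inter, mem_union]
      constructor
      · rintro ⟨hx | hx, hxU⟩
        · exact hx
        · exact absurd hxU (mem_compl.mp (hJ hx))
      · intro hx
        exact ⟨Or.inl hx, hI'.1 hx⟩
    · intro I hI
      rw [mem_filter, mem_powersetCard] at hI
      rw [← hI.2]
      ext x
      rw [mem_union, mem_inter, mem_sdiff]
      tauto
    · intro I' _
      rfl
  rw [← Finset.sum_fiberwise_of_maps_to hmap, ← Finset.sum_fiberwise_of_maps_to hmap]
  apply Finset.sum_le_sum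
  intro J hJ
  by_cases hJm : J.card ≤ m
  · rw [key F J hJ hJm, key G J hJ hJm]
    exact h J hJ hJm
  · have hempty : (powersetCard m (univ : Finset (Fin n))).filter (fun I => I \ U = J) = ∅ := by
      rw [filter_eq_empty_iff]
      intro I hI hIJ
      rw [mem_powersetCard] at hI
      apply hJm
      rw [← hIJ, ← hI.2]
      exact card_le_card sdiff_subset
    rw [hempty]
    simp

/-- the comparison function -/
noncomputable def gg (U : Finset (Fin n)) (m : ℕ) (I : Finset (Fin n)) : ℝ :=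
  (n / (m : ℝ)) * ((((n : ℝ) - 1) / ((m : ℝ) - 1)) ^ 2 * ((I ∩ U).card / (U.card : ℝ))
    + (U.card : ℝ) * ((((n : ℝ) - 1) / ((m : ℝ) - 1)) * ((I ∩ U).card / (U.card : ℝ)) - 1) ^ 2)

lemma sum_ff_le_sum_gg (hp : ∀ v ∈ U, p v ∉ U) (hU : 0 < U.card) {m : ℕ} (hm : 2 ≤ m) :
    ∑ I ∈ powersetCard m univ, ff U p I ≤ ∑ I ∈ powersetCard m univ, gg U m I := by
  apply fiber_le U
  intro J hJ hJm
  rw [mem_powerset] at hJ
  have hm2 : (2 : ℝ) ≤ m := by exact_mod_cast hm
  have hm0 : (0 : ℝ) < m := by linarith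
  have hm1 : (0 : ℝ) < (m : ℝ) - 1 := by linarith
  have hU0 : (0 : ℝ) < U.card := by exact_mod_cast hU
  set s : ℕ := m - J.card with hs
  set μ : ℝ := ((n : ℝ) - 1) / ((m : ℝ) - 1) with hμ
  set L : Finset (Fin n) := U.filter fun v => p v ∈ J with hL
  have hLU : L ⊆ U := filter_subset _ _
  have hdis : ∀ I' ⊆ U, Disjoint I' J := by
    intro I' hI'
    rw [disjoint_left]
    intro x hx hxJ
    exact (mem_compl.mp (hJ hxJ)) (hI' hx)
  -- values on the fibre
  have hC : ∀ I' ∈ powersetCard s U, Cc U p (I' ∪ J) = L.card := by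
    intro I' hI'
    rw [mem_powersetCard] at hI'
    rw [Cc, hL]
    congr 1
    apply filter_congr
    intro v hv
    rw [mem_union]
    constructor
    · rintro (h | h)
      · exact absurd (hI'.1 h) (hp v hv)
      · exact h
    · exact Or.inr
  have hE : ∀ I' ∈ powersetCard s U, Ec U p (I' ∪ J) = (I' ∩ L).card := by
    intro I' hI'
    rw [mem_powersetCard] at hI'
    rw [Ec]
    congr 1
    ext v
    rw [mem_filter, mem_inter, hL, mem_filter, mem_union, mem_union]
    constructor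
    · rintro ⟨hv, h1, h2⟩
      refine ⟨?_, hv, ?_⟩
      · rcases h1 with h1 | h1
        · exact h1
        · exact absurd hv (mem_compl.mp (hJ h1))
      · rcases h2 with h2 | h2
        · exact absurd (hI'.1 h2) (hp v hv)
        · exact h2
    · rintro ⟨h1, hv, h2⟩
      exact ⟨hv, Or.inl h1, Or.inr h2⟩
  have hcard : ∀ I' ∈ powersetCard s U, (I' ∪ J).card = m := by
    intro I' hI'
    rw [mem_powersetCard] at hI'
    rw [card_union_of_disjoint (hdis I' hI'.1), hI'.2]
    omega
  have hIU : ∀ I' ∈ powersetCard s U, ((I' ∪ J) ∩ U).card = s := by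
    intro I' hI'
    rw [mem_powersetCard] at hI'
    have : (I' ∪ J) ∩ U = I' := by
      ext x
      rw [mem_inter, mem_union]
      constructor
      · rintro ⟨hx | hx, hxU⟩
        · exact hx
        · exact absurd hxU (mem_compl.mp (hJ hx))
      · intro hx
        exact ⟨Or.inl hx, hI'.1 hx⟩
    rw [this, hI'.2]
  have hff : ∀ I' ∈ powersetCard s U, ff U p (I' ∪ J)
      = (n / (m : ℝ)) / (L.card : ℝ) * (μ * ((I' ∩ L).card : ℝ) - L.card) ^ 2 := by
    intro I' hI'
    by_cases hn : n = 0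
    · subst hn
      exact absurd hU (by simp [Finset.eq_empty_of_isEmpty])
    have hn0 : (n : ℝ) ≠ 0 := by exact_mod_cast hn
    unfold ff Rh Ch
    rw [hC I' hI', hE I' hI', hcard I' hI', hμ]
    by_cases hl : (L.card : ℝ) = 0
    · rw [hl]
      simp
    · field_simp
  have hgg : ∀ I' ∈ powersetCard s U, gg U m (I' ∪ J)
      = (n / (m : ℝ)) * (μ ^ 2 * (s / (U.card : ℝ))
        + (U.card : ℝ) * (μ * (s / (U.card : ℝ)) - 1) ^ 2) := by
    intro I' hI'
    unfold gg
    rw [hIU I' hI']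
  rw [Finset.sum_congr rfl hff, Finset.sum_congr rfl hgg, ← Finset.mul_sum, Finset.sum_const,
    card_powersetCard, nsmul_eq_mul]
  have hdev := sum_sq_dev U L hLU s hU μ (L.card : ℝ)
  set ch : ℝ := (U.card.choose s : ℝ) with hch
  have hch0 : 0 ≤ ch := by rw [hch]; positivity
  set l : ℝ := (L.card : ℝ) with hl
  have hlN : l ≤ U.card := by
    rw [hl]
    exact_mod_cast card_le_card hLU
  have hl0 : 0 ≤ l := by rw [hl]; positivity
  have hnm : (0 : ℝ) ≤ n / (m : ℝ) := by positivity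
  by_cases hlz : l = 0
  · rw [hlz]
    simp only [div_zero, zero_mul]
    positivity
  · have hlp : 0 < l := lt_of_le_of_ne hl0 (Ne.symm hlz)
    calc n / (m : ℝ) / l * ∑ I' ∈ powersetCard s U, (μ * ((I' ∩ L).card : ℝ) - l) ^ 2
        ≤ n / (m : ℝ) / l * (ch * (μ ^ 2 * (l * s / U.card) + (μ * (l * s / U.card) - l) ^ 2)) :=
          mul_le_mul_of_nonneg_left hdev (by positivity)
      _ = ch * (n / (m : ℝ) * (μ ^ 2 * (s / U.card) + l * (μ * (s / U.card) - 1) ^ 2)) := by
          field_simp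
      _ ≤ ch * (n / (m : ℝ) * (μ ^ 2 * (s / U.card)
            + (U.card : ℝ) * (μ * (s / U.card) - 1) ^ 2)) := by
          apply mul_le_mul_of_nonneg_left _ hch0
          apply mul_le_mul_of_nonneg_left _ hnm
          have := mul_le_mul_of_nonneg_right hlN (sq_nonneg (μ * (s / (U.card : ℝ)) - 1))
          linarith

lemma sum_gg_le (hU : 0 < U.card) {m : ℕ} (hm : 2 ≤ m) (hmn : m ≤ n) :
    ∑ I ∈ powersetCard m univ, gg U m I ≤ (n.choose m : ℝ) *
      (2 * (((n : ℝ) - 1) / ((m : ℝ) - 1)) ^ 2 + (n : ℝ) * U.card / (m * ((m : ℝ) - 1) ^ 2)) := by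
  have hm2 : (2 : ℝ) ≤ m := by exact_mod_cast hm
  have hmn' : (m : ℝ) ≤ n := by exact_mod_cast hmn
  have hm0 : (0 : ℝ) < m := by linarith
  have hn0 : (0 : ℝ) < n := by linarith
  have hm1 : (0 : ℝ) < (m : ℝ) - 1 := by linarith
  have hU0 : (0 : ℝ) < U.card := by exact_mod_cast hU
  set μ : ℝ := ((n : ℝ) - 1) / ((m : ℝ) - 1) with hμ
  have hun : 0 < (univ : Finset (Fin n)).card := by
    rw [card_univ, Fintype.card_fin]
    omega
  have h1 := sum_card_inter (univ : Finset (Fin n)) U (subset_univ _) m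
  have h2 := sum_sq_dev (univ : Finset (Fin n)) U (subset_univ _) m hun μ (U.card : ℝ)
  rw [card_univ, Fintype.card_fin] at h1 h2
  set ch : ℝ := (n.choose m : ℝ) with hch
  have hch0 : 0 ≤ ch := by rw [hch]; positivity
  have hgg : ∀ I ∈ powersetCard m (univ : Finset (Fin n)), gg U m I
      = (n / (m : ℝ)) / U.card * μ ^ 2 * ((I ∩ U).card : ℝ)
        + (n / (m : ℝ)) / U.card * (μ * ((I ∩ U).card : ℝ) - U.card) ^ 2 := by
    intro I _
    unfold gg
    rw [← hμ]
    field_simp
  rw [Finset.sum_congr rfl hgg, Finset.sum_add_distrib, ← Finset.mul_sum, ← Finset.mul_sum]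
  have e1 : ∑ I ∈ powersetCard m (univ : Finset (Fin n)), ((I ∩ U).card : ℝ)
      = U.card * m * ch / n := by
    field_simp
    linarith
  rw [e1]
  have e2 : n / (m : ℝ) / U.card * ∑ I ∈ powersetCard m (univ : Finset (Fin n)),
      (μ * ((I ∩ U).card : ℝ) - U.card) ^ 2
      ≤ n / (m : ℝ) / U.card * (ch * (μ ^ 2 * (U.card * m / n)
        + (μ * (U.card * m / n) - U.card) ^ 2)) :=
    mul_le_mul_of_nonneg_left h2 (by positivity)
  refine le_trans (add_le_add_right e2 _) ?_
  have e3 : n / (m : ℝ) / U.card * μ ^ 2 * (U.card * m * ch / n)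
      + n / (m : ℝ) / U.card * (ch * (μ ^ 2 * (U.card * m / n)
        + (μ * (U.card * m / n) - U.card) ^ 2))
      = ch * (2 * μ ^ 2 + n * U.card / m * (μ * (m / n) - 1) ^ 2) := by
    field_simp
    ring
  rw [e3]
  apply mul_le_mul_of_nonneg_left _ hch0
  have e4 : μ * (m / n) - 1 = ((n : ℝ) - m) / (((m : ℝ) - 1) * n) := by
    rw [hμ]
    field_simp
    ring
  have e5 : 0 ≤ μ * (m / n) - 1 := by
    rw [e4]
    apply div_nonneg (by linarith) (by positivity)
  have e6 : μ * (m / n) - 1 ≤ 1 / ((m : ℝ) - 1) := by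
    rw [e4, div_le_div_iff₀ (by positivity) hm1]
    nlinarith
  have e7 : (μ * (m / n) - 1) ^ 2 ≤ (1 / ((m : ℝ) - 1)) ^ 2 := pow_le_pow_left₀ e5 e6 2
  have e8 : n * (U.card : ℝ) / m * (μ * (m / n) - 1) ^ 2
      ≤ n * (U.card : ℝ) / m * (1 / ((m : ℝ) - 1)) ^ 2 :=
    mul_le_mul_of_nonneg_left e7 (by positivity)
  have e9 : n * (U.card : ℝ) / m * (1 / ((m : ℝ) - 1)) ^ 2
      = (n : ℝ) * U.card / (m * ((m : ℝ) - 1) ^ 2) := by
    field_simp
  linarith

/-- the constant for one layer -/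
theorem layer_bound (hp : ∀ v ∈ U, p v ∉ U) (hn : 16 ≤ n)
    (A : Equiv.Perm (Fin n) → ℕ) (hle : ∀ σ, A σ ≤ n)
    (had : ∀ σ τ, (∀ i : Fin n, i.val < A σ → σ i = τ i) → A τ = A σ) :
    ∑ σ, (Xc U p (inact σ (A σ)) : ℝ) ≤ n.factorial * ((U.card : ℝ) / 4 + 1257) := by
  by_cases hU : U.card = 0
  · have hX : ∀ I, Xc U p I = 0 := by
      intro I
      rw [card_eq_zero] at hU
      rw [Xc, hU]
      simp
    have : ∀ σ : Equiv.Perm (Fin n), (Xc U p (inact σ (A σ)) : ℝ) = 0 := by
      intro σ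
      rw [hX]
      simp
    rw [Finset.sum_congr rfl fun σ _ => this σ, Finset.sum_const_zero, hU]
    positivity
  have hU' : 0 < U.card := by omega
  set m : ℕ := n / 8 with hm
  have hm2 : 2 ≤ m := by omega
  have hmn : 8 * m ≤ n := by omega
  have h1 : ∑ σ, (Xc U p (inact σ (A σ)) : ℝ) ≤ ∑ σ, Phi U p m (inact σ (A σ)) :=
    Finset.sum_le_sum fun σ _ => Xc_le_Phi hp hm2 _
  have h2 := optional_stopping (Phi U p m) (Phi_super hp hm2 hmn) A hle had
  refine le_trans (le_trans h1 h2) ?_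
  apply mul_le_mul_of_nonneg_left _ (by positivity)
  have hcu : (univ : Finset (Fin n)).card = n := by rw [card_univ, Fintype.card_fin]
  have hCu : Cc U p univ = U.card := by
    rw [Cc]
    congr 1
    exact filter_true_of_mem fun v _ => mem_univ _
  have hEu : Ec U p univ = U.card := by
    rw [Ec]
    congr 1
    exact filter_true_of_mem fun v _ => ⟨mem_univ _, mem_univ _⟩
  unfold Phi
  rw [if_neg (by rw [hcu]; omega)]
  unfold MM
  rw [hCu, hEu, hcu]
  -- real casts
  have hn16 : (16 : ℝ) ≤ n := by exact_mod_cast hn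
  have hm2' : (2 : ℝ) ≤ m := by exact_mod_cast hm2
  have hUn : (U.card : ℝ) ≤ n - 1 := by
    have : U.card ≤ n - 1 := by
      by_contra hcon
      push Not at hcon
      have h3 : U.card ≤ n := by
        have := card_le_univ U
        rwa [Fintype.card_fin] at this
      have h4 : U.card = n := by omega
      have h5 : U = univ := by
        apply eq_univ_of_card
        rw [h4, Fintype.card_fin]
      obtain ⟨v, hv⟩ := card_pos.mp hU'
      apply hp v hv
      rw [h5]
      exact mem_univ _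
    have h' : ((U.card : ℕ) : ℝ) ≤ ((n - 1 : ℕ) : ℝ) := by exact_mod_cast this
    rw [Nat.cast_sub (by omega), Nat.cast_one] at h'
    exact h'
  have hU0 : (0 : ℝ) < U.card := by exact_mod_cast hU'
  have hn1 : (0 : ℝ) < (n : ℝ) - 1 := by linarith
  have hn0 : (0 : ℝ) < (n : ℝ) := by linarith
  have hm0 : (0 : ℝ) < (m : ℝ) := by linarith
  have hm1 : (0 : ℝ) < (m : ℝ) - 1 := by linarith
  have hn8 : (n : ℝ) ≤ 8 * m + 7 := by
    have : n ≤ 8 * m + 7 := by omega
    exact_mod_cast this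
  have t1 : n / (2 * (n : ℝ)) * U.card - n * ((n : ℝ) - 2) / (4 * n * ((n : ℝ) - 1)) * U.card
      = U.card / 4 + U.card / (4 * ((n : ℝ) - 1)) := by
    field_simp
    ring
  have t2 : (U.card : ℝ) / (4 * ((n : ℝ) - 1)) ≤ 1 / 4 := by
    rw [div_le_div_iff₀ (by positivity) (by norm_num)]
    linarith
  -- the mean of `ff`
  have hTh : Th U p m univ ≤ 1256 := by
    unfold Th
    rw [hcu]
    have hch : (0 : ℝ) < (n.choose m : ℝ) := by
      have : 0 < n.choose m := Nat.choose_pos (by omega)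
      exact_mod_cast this
    rw [div_le_iff₀ hch]
    refine le_trans (sum_ff_le_sum_gg hp hU' hm2) (le_trans (sum_gg_le hU' hm2 (by omega)) ?_)
    rw [mul_comm]
    apply mul_le_mul_of_nonneg_right _ hch.le
    have b1 : ((n : ℝ) - 1) / ((m : ℝ) - 1) ≤ 22 := by
      rw [div_le_iff₀ hm1]
      linarith
    have b0 : 0 ≤ ((n : ℝ) - 1) / ((m : ℝ) - 1) := by positivity
    have b2 : (((n : ℝ) - 1) / ((m : ℝ) - 1)) ^ 2 ≤ 22 ^ 2 := pow_le_pow_left₀ b0 b1 2
    have b3 : (n : ℝ) * U.card / (m * ((m : ℝ) - 1) ^ 2) ≤ 288 := by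
      rw [div_le_iff₀ (by positivity)]
      have c1 : (n : ℝ) * U.card ≤ (12 * m) * (12 * m) := by
        apply mul_le_mul _ _ hU0.le (by positivity)
        · linarith
        · linarith
      have c2 : (m : ℝ) ≤ 2 * ((m : ℝ) - 1) ^ 2 := by nlinarith
      nlinarith
    linarith
  linarith

end Pool.Agent.R204.OS
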