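import Mathlib

/-!
# MP_d7339e_co: consistent path systems; structure of theta graphs

General facts on consistent path systems (intervals), and the local structure of a graph made
of three internally disjoint paths between two vertices.
-/

namespace Pool.Agent.R204.TH

open SimpleGraph

/-- A path system in `G`: one path `path u v` for every pair of vertices (the path from `v` to
`u` is the path from `u` to `v` traversed backwards). -/
structure PathSystem {V : Type*} (G : SimpleGraph V) where
  /-- the chosen walk -/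
  path : ∀ u v : V, G.Walk u v
  isPath : ∀ u v, (path u v).IsPath
  symm : ∀ u v, path v u = (path u v).reverse

/-- Every subpath of a path of the system belongs to the system. -/
def Consistent {V : Type*} {G : SimpleGraph V} (P : PathSystem G) : Prop :=
  ∀ (u v x y : V) (q : G.Walk x y), q.IsSubwalk (P.path u v) → q = P.path x y

/-- Weight of a walk: the sum of the weights of its edges. -/
noncomputable def wt {V : Type*} {G : SimpleGraph V} (w : Sym2 V → ℝ) {u v : V}
    (p : G.Walk u v) : ℝ := (p.edges.map w).sum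

/-- `w` induces `P`: every path of `P` has minimum weight among the paths with the same ends. -/
def Induces {V : Type*} {G : SimpleGraph V} (w : Sym2 V → ℝ) (P : PathSystem G) : Prop :=
  ∀ (u v : V) (q : G.Walk u v), q.IsPath → wt w (P.path u v) ≤ wt w q

/-- `G` is metrizable: every consistent path system is induced by a positive edge weight. -/
def Metrizable {V : Type*} (G : SimpleGraph V) : Prop :=
  ∀ P : PathSystem G, Consistent P → ∃ w : Sym2 V → ℝ, (∀ e ∈ G.edgeSet, 0 < w e) ∧ Induces w P

section general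

variable {V : Type*} {G : SimpleGraph V}

lemma wt_nil (w : Sym2 V → ℝ) (u : V) : wt w (Walk.nil : G.Walk u u) = 0 := by
  simp [wt]

lemma wt_cons (w : Sym2 V → ℝ) {u v x : V} (h : G.Adj u v) (p : G.Walk v x) :
    wt w (Walk.cons h p) = w s(u, v) + wt w p := by
  simp [wt]

lemma wt_append (w : Sym2 V → ℝ) {u v x : V} (p : G.Walk u v) (q : G.Walk v x) :
    wt w (p.append q) = wt w p + wt w q := by
  simp [wt, Walk.edges_append]

lemma wt_reverse (w : Sym2 V → ℝ) {u v : V} (p : G.Walk u v) :
    wt w p.reverse = wt w p := by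
  simp [wt, Walk.edges_reverse]

/-- `x` lies on the path of the system between `u` and `v`. -/
def I (P : PathSystem G) (u v x : V) : Prop := x ∈ (P.path u v).support

variable {P : PathSystem G}

lemma I_left (u v : V) : I P u v u := Walk.start_mem_support _
lemma I_right (u v : V) : I P u v v := Walk.end_mem_support _

lemma I_symm {u v x : V} : I P u v x ↔ I P v u x := by
  unfold I
  rw [P.symm u v, Walk.support_reverse, List.mem_reverse]

lemma I_split (hP : Consistent P) {u v x : V} (hx : I P u v x) :
    P.path u v = (P.path u x).append (P.path x v) := by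
  classical
  have h1 := hP u v u x _ ((P.path u v).isSubwalk_takeUntil hx)
  have h2 := hP u v x v _ ((P.path u v).isSubwalk_dropUntil hx)
  rw [← h1, ← h2]
  exact (Walk.take_spec _ hx).symm

lemma I_append {u v x : V} (h : P.path u v = (P.path u x).append (P.path x v)) (y : V) :
    I P u v y ↔ I P u x y ∨ I P x v y := by
  unfold I
  rw [h, Walk.mem_support_append_iff]

lemma I_union (hP : Consistent P) {u v x y : V} (hx : I P u v x) :
    I P u v y ↔ I P u x y ∨ I P x v y := I_append (I_split hP hx) y

lemma I_order (hP : Consistent P) {u v x y : V} (hy : I P u x y) (hx : I P u v x) :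
    I P y v x := by
  have h1 := I_split hP hx
  have h2 := I_split hP hy
  have h3 : P.path u v = (P.path u y).append ((P.path y x).append (P.path x v)) := by
    rw [h1, h2, Walk.append_assoc]
  have h4 := hP u v y v _ (Walk.isSubwalk_of_append_right h3)
  unfold I
  rw [← h4, Walk.mem_support_append_iff]
  exact Or.inl (Walk.end_mem_support _)

lemma I_self {v x : V} (hx : I P v v x) : x = v := by
  have h : P.path v v = Walk.nil := by
    have h0 := P.isPath v v
    cases hp : P.path v v with
    | nil => rfl
    | cons hadj Q =>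
      rw [hp, Walk.cons_isPath_iff] at h0
      exact absurd (Walk.end_mem_support Q) h0.2
  unfold I at hx
  rw [h] at hx
  simpa using hx

lemma I_anti (hP : Consistent P) {u v x : V} (h1 : I P u x v) (h2 : I P u v x) : x = v :=
  I_self (I_order hP h1 h2)

lemma I_mono_left (hP : Consistent P) {u v x y : V} (hx : I P u v x) (hy : I P u x y) :
    I P u v y := (I_union hP hx).mpr (Or.inl hy)

lemma I_mono_right (hP : Consistent P) {u v x y : V} (hx : I P u v x) (hy : I P x v y) :
    I P u v y := (I_union hP hx).mpr (Or.inr hy)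

/-- subpaths -/
lemma I_sub (hP : Consistent P) {u v x y z : V} (hx : I P u v x) (hy : I P u v y)
    (hz : I P x y z) : I P u v z := by
  rcases (I_union hP hx).mp hy with h | h
  · exact I_mono_left hP hx (I_symm.mp (I_mono_left hP (I_symm.mp h) hz))
  · exact I_mono_right hP hx (I_mono_left hP h hz)

variable (P) in
/-- distance-like function -/
noncomputable def D (w : Sym2 V → ℝ) (u v : V) : ℝ := wt w (P.path u v)

lemma D_symm (w : Sym2 V → ℝ) (u v : V) : D P w u v = D P w v u := by
  unfold D
  rw [P.symm v u, wt_reverse]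

lemma D_self (w : Sym2 V → ℝ) (v : V) : D P w v v = 0 := by
  have h : P.path v v = Walk.nil := by
    have h0 := P.isPath v v
    cases hp : P.path v v with
    | nil => rfl
    | cons hadj Q =>
      rw [hp, Walk.cons_isPath_iff] at h0
      exact absurd (Walk.end_mem_support Q) h0.2
  unfold D
  rw [h, wt_nil]

lemma D_split (hP : Consistent P) (w : Sym2 V → ℝ) {u v x : V} (hx : I P u v x) :
    D P w u v = D P w u x + D P w x v := by
  unfold D
  conv_lhs => rw [I_split hP hx]
  rw [wt_append]

/-- If `D` is 1-Lipschitz along edges then `w` induces `P`. -/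
lemma induces_of_lipschitz (w : Sym2 V → ℝ)
    (h : ∀ u u' v, G.Adj u u' → D P w u v ≤ w s(u, u') + D P w u' v) : Induces w P := by
  intro u v q _
  change D P w u v ≤ _
  induction q with
  | nil => rw [D_self, wt_nil]
  | cons hadj q ih =>
    rename_i a b c hpath
    rw [wt_cons]
    have := h _ _ c hadj
    have h2 := ih ((Walk.cons_isPath_iff _ _).mp hpath).1
    linarith

end general

/-- `G` consists of three internally disjoint paths `f k 0 = s, …, f k (ℓ k) = t`. -/
structure Th {V : Type*} (G : SimpleGraph V) where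
  /-- number of edges of each path -/
  l : Fin 3 → ℕ
  /-- the vertices of each path -/
  f : Fin 3 → ℕ → V
  /-- first branch vertex -/
  s : V
  /-- second branch vertex -/
  t : V
  two_le : ∀ k, 2 ≤ l k
  f_zero : ∀ k, f k 0 = s
  f_last : ∀ k, f k (l k) = t
  st : s ≠ t
  inj : ∀ k i j' j, 0 < i → i < l k → 0 < j → j < l j' → f k i = f j' j → k = j' ∧ i = j
  ne_s : ∀ k i, 0 < i → i < l k → f k i ≠ s
  ne_t : ∀ k i, 0 < i → i < l k → f k i ≠ t
  cover : ∀ v, v = s ∨ v = t ∨ ∃ k i, 0 < i ∧ i < l k ∧ v = f k i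
  adj : ∀ u v, G.Adj u v ↔ ∃ k i, i < l k ∧
    ((u = f k i ∧ v = f k (i + 1)) ∨ (v = f k i ∧ u = f k (i + 1)))

namespace Th

variable {V : Type*} {G : SimpleGraph V} (T : Th G)

/-- The same graph with the branch vertices exchanged. -/
def rev : Th G where
  l := T.l
  f := fun k i => T.f k (T.l k - i)
  s := T.t
  t := T.s
  two_le := T.two_le
  f_zero := fun k => by simpa using T.f_last k
  f_last := fun k => by simpa using T.f_zero k
  st := T.st.symm
  inj := by
    intro k i m j hi hik hj hjm h
    obtain ⟨h1, h2⟩ := T.inj k (T.l k - i) m (T.l m - j) (by omega) (by omega) (by omega)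
      (by omega) h
    subst h1
    exact ⟨rfl, by omega⟩
  ne_s := fun k i hi hik => T.ne_t k _ (by omega) (by omega)
  ne_t := fun k i hi hik => T.ne_s k _ (by omega) (by omega)
  cover := by
    intro v
    rcases T.cover v with h | h | ⟨k, i, hi, hik, h⟩
    · exact Or.inr (Or.inl h)
    · exact Or.inl h
    · exact Or.inr (Or.inr ⟨k, T.l k - i, by omega, by omega, by
        rw [h]; congr 1; omega⟩)
  adj := by
    intro u v
    rw [T.adj]
    constructor
    · rintro ⟨k, i, hi, h⟩
      refine ⟨k, T.l k - (i + 1), by omega, ?_⟩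
      have e1 : T.l k - (T.l k - (i + 1)) = i + 1 := by omega
      have e2 : T.l k - (T.l k - (i + 1) + 1) = i := by omega
      rw [e1, e2]
      rcases h with ⟨h1, h2⟩ | ⟨h1, h2⟩
      · exact Or.inr ⟨h2, h1⟩
      · exact Or.inl ⟨h2, h1⟩
    · rintro ⟨k, i, hi, h⟩
      refine ⟨k, T.l k - (i + 1), by omega, ?_⟩
      have e1 : T.l k - (i + 1) + 1 = T.l k - i := by omega
      rw [e1]
      rcases h with ⟨h1, h2⟩ | ⟨h1, h2⟩
      · exact Or.inr ⟨h2, h1⟩
      · exact Or.inl ⟨h2, h1⟩

/-- `w` is the difference of the position function `c`. -/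
def Compat (w : Sym2 V → ℝ) (c : Fin 3 → ℕ → ℝ) : Prop :=
  ∀ k i, i < T.l k → w s(T.f k i, T.f k (i + 1)) = c k (i + 1) - c k i

lemma Compat.rev {T : Th G} {w : Sym2 V → ℝ} {c : Fin 3 → ℕ → ℝ} (h : T.Compat w c) :
    T.rev.Compat w (fun k i => - c k (T.l k - i)) := by
  intro k i hi
  change i < T.l k at hi
  have h1 := h k (T.l k - (i + 1)) (by omega)
  have e1 : T.l k - (i + 1) + 1 = T.l k - i := by omega
  rw [e1] at h1
  change w s(T.f k (T.l k - i), T.f k (T.l k - (i + 1))) =
    - c k (T.l k - (i + 1)) - - c k (T.l k - i)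
  rw [Sym2.eq_swap, h1]
  ring

lemma adj_inner {k : Fin 3} {i : ℕ} (hi : 0 < i) (hik : i < T.l k) {z : V}
    (h : G.Adj (T.f k i) z) : z = T.f k (i - 1) ∨ z = T.f k (i + 1) := by
  rw [T.adj] at h
  obtain ⟨m, j, hj, h | h⟩ := h
  · obtain ⟨h1, h2⟩ := h
    have hj0 : 0 < j := by
      rcases Nat.eq_zero_or_pos j with rfl | h0
      · exact absurd (h1.trans (T.f_zero m)) (T.ne_s k i hi hik)
      · exact h0
    obtain ⟨rfl, rfl⟩ := T.inj k i m j hi hik hj0 hj h1
    exact Or.inr h2
  · obtain ⟨h1, h2⟩ := h
    have hj0 : j + 1 < T.l m := by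
      rcases lt_or_eq_of_le (Nat.succ_le_of_lt hj) with h0 | h0
      · exact h0
      · have : T.f m (j + 1) = T.t := by
          rw [← T.f_last m]
          exact congrArg (T.f m) h0
        exact absurd (h2.trans this) (T.ne_t k i hi hik)
    obtain ⟨rfl, hij⟩ := T.inj k i m (j + 1) hi hik (by omega) hj0 h2
    left
    rw [h1]
    congr 1
    omega

lemma adj_s {z : V} (h : G.Adj T.s z) : ∃ k, z = T.f k 1 := by
  rw [T.adj] at h
  obtain ⟨m, j, hj, h | h⟩ := h
  · obtain ⟨h1, h2⟩ := h
    rcases Nat.eq_zero_or_pos j with rfl | h0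
    · exact ⟨m, h2⟩
    · exact absurd h1.symm (T.ne_s m j h0 hj)
  · obtain ⟨h1, h2⟩ := h
    exfalso
    rcases lt_or_eq_of_le (Nat.succ_le_of_lt hj) with h0 | h0
    · exact absurd h2.symm (T.ne_s m (j + 1) (by omega) h0)
    · have : T.f m (j + 1) = T.t := by
        rw [← T.f_last m]
        exact congrArg (T.f m) h0
      exact T.st (h2.trans this)

/-- A path that starts in the direction of `t` goes on until its end or until `t`. -/
lemma up_aux (k : Fin 3) : ∀ (n i : ℕ), T.l k - (i + 1) = n → i < T.l k →
    ∀ (x v : V), x = T.f k (i + 1) → ∀ (Q : G.Walk x v), Q.IsPath → T.f k i ∉ Q.support →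
    (∃ j, i < j ∧ j < T.l k ∧ v = T.f k j ∧
      (∀ z, z ∈ Q.support ↔ ∃ m, i < m ∧ m ≤ j ∧ z = T.f k m) ∧
      ∀ w c, T.Compat w c → wt w Q = c k j - c k (i + 1)) ∨
    (∃ (y : V) (A : G.Walk x y) (B : G.Walk y v), y = T.t ∧ Q = A.append B ∧
      (∀ z, z ∈ A.support ↔ ∃ m, i < m ∧ m ≤ T.l k ∧ z = T.f k m) ∧
      ∀ w c, T.Compat w c → wt w A = c k (T.l k) - c k (i + 1)) := by
  intro n
  induction n with
  | zero =>
    intro i hn hi x v hx Q hQ hnot
    right
    have hi1 : i + 1 = T.l k := by omega
    have hxt : x = T.t := by rw [hx, ← T.f_last k]; exact congrArg (T.f k) hi1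
    refine ⟨x, Walk.nil, Q, hxt, by simp, ?_, ?_⟩
    · intro z
      simp only [Walk.support_nil, List.mem_singleton]
      constructor
      · intro hz
        exact ⟨i + 1, by omega, by omega, hz.trans hx⟩
      · rintro ⟨m, hm1, hm2, hz⟩
        have : m = i + 1 := by omega
        rw [hz, hx, this]
    · intro w c _
      rw [wt_nil, hi1]
      ring
  | succ n ih =>
    intro i hn hi x v hx Q hQ hnot
    have hi1 : i + 1 < T.l k := by omega
    cases Q with
    | nil =>
      left
      refine ⟨i + 1, by omega, hi1, hx, ?_, ?_⟩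
      · intro z
        simp only [Walk.support_nil, List.mem_singleton]
        constructor
        · intro hz
          exact ⟨i + 1, by omega, by omega, hz.trans hx⟩
        · rintro ⟨m, hm1, hm2, hz⟩
          have : m = i + 1 := by omega
          rw [hz, hx, this]
      · intro w c _
        rw [wt_nil]
        ring
    | cons hadj Q2 =>
      rename_i y
      have hadj' : G.Adj (T.f k (i + 1)) y := hx ▸ hadj
      have hy : y = T.f k (i + 1 + 1) := by
        rcases T.adj_inner (by omega) hi1 hadj' with h | h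
        · exfalso
          apply hnot
          rw [Walk.support_cons]
          apply List.mem_cons_of_mem
          have : y = T.f k i := h
          rw [← this]
          exact Walk.start_mem_support _
        · exact h
      have hpath := (Walk.cons_isPath_iff _ _).mp hQ
      have hnot2 : T.f k (i + 1) ∉ Q2.support := by
        rw [← hx]
        exact hpath.2
      have hw1 : ∀ w c, T.Compat w c → w s(x, y) = c k (i + 1 + 1) - c k (i + 1) := by
        intro w c hwc
        rw [hx, hy]
        exact hwc k (i + 1) hi1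
      rcases ih (i + 1) (by omega) hi1 y v hy Q2 hpath.1 hnot2 with
        ⟨j, hj1, hj2, hv, hsupp, hwt⟩ | ⟨y', A, B, hy', hAB, hsupp, hwt⟩
      · left
        refine ⟨j, by omega, hj2, hv, ?_, ?_⟩
        · intro z
          rw [Walk.support_cons, List.mem_cons, hsupp]
          constructor
          · rintro (h | ⟨m, h1, h2, h3⟩)
            · exact ⟨i + 1, by omega, by omega, h.trans hx⟩
            · exact ⟨m, by omega, h2, h3⟩
          · rintro ⟨m, h1, h2, h3⟩
            rcases Nat.lt_or_ge (i + 1) m with h | h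
            · exact Or.inr ⟨m, h, h2, h3⟩
            · left
              have : m = i + 1 := by omega
              rw [h3, hx, this]
        · intro w c hwc
          rw [wt_cons, hw1 w c hwc, hwt w c hwc]
          ring
      · right
        refine ⟨y', Walk.cons hadj A, B, hy', by rw [hAB]; rfl, ?_, ?_⟩
        · intro z
          rw [Walk.support_cons, List.mem_cons, hsupp]
          constructor
          · rintro (h | ⟨m, h1, h2, h3⟩)
            · exact ⟨i + 1, by omega, by omega, h.trans hx⟩
            · exact ⟨m, by omega, h2, h3⟩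
          · rintro ⟨m, h1, h2, h3⟩
            rcases Nat.lt_or_ge (i + 1) m with h | h
            · exact Or.inr ⟨m, h, h2, h3⟩
            · left
              have : m = i + 1 := by omega
              rw [h3, hx, this]
        · intro w c hwc
          rw [wt_cons, hw1 w c hwc, hwt w c hwc]
          ring

variable {P : PathSystem G}

/-- What happens if the path from `f k i` starts toward `f k (i+1)`. -/
def Up (P : PathSystem G) (k : Fin 3) (i : ℕ) (v : V) : Prop :=
  (∃ j, i < j ∧ j < T.l k ∧ v = T.f k j ∧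
    (∀ z, I P (T.f k i) v z ↔ ∃ m, i ≤ m ∧ m ≤ j ∧ z = T.f k m) ∧
    ∀ w c, T.Compat w c → D P w (T.f k i) v = c k j - c k i) ∨
  (I P (T.f k i) v T.t ∧
    (∀ z, I P (T.f k i) T.t z ↔ ∃ m, i ≤ m ∧ m ≤ T.l k ∧ z = T.f k m) ∧
    ∀ w c, T.Compat w c → D P w (T.f k i) T.t = c k (T.l k) - c k i)

lemma up_of_cons (hP : Consistent P) {k : Fin 3} {i : ℕ} (hi : i < T.l k) {u x v : V}
    (hu : u = T.f k i) (hx : x = T.f k (i + 1)) (hadj : G.Adj u x) (Q : G.Walk x v)
    (hQ : P.path u v = Walk.cons hadj Q) : T.Up P k i v := by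
  have hpath := P.isPath u v
  rw [hQ, Walk.cons_isPath_iff] at hpath
  have hnot : T.f k i ∉ Q.support := by rw [← hu]; exact hpath.2
  have hw1 : ∀ w c, T.Compat w c → w s(u, x) = c k (i + 1) - c k i := by
    intro w c hwc
    rw [hu, hx]
    exact hwc k i hi
  rcases T.up_aux k _ i rfl hi x v hx Q hpath.1 hnot with
    ⟨j, hj1, hj2, hv, hsupp, hwt⟩ | ⟨y, A, B, hy, hAB, hsupp, hwt⟩
  · left
    refine ⟨j, hj1, hj2, hv, ?_, ?_⟩
    · intro z
      rw [← hu]
      unfold I
      rw [hQ, Walk.support_cons, List.mem_cons, hsupp]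
      constructor
      · rintro (h | ⟨m, h1, h2, h3⟩)
        · exact ⟨i, le_rfl, by omega, h.trans hu⟩
        · exact ⟨m, by omega, h2, h3⟩
      · rintro ⟨m, h1, h2, h3⟩
        rcases Nat.lt_or_ge i m with h | h
        · exact Or.inr ⟨m, h, h2, h3⟩
        · left
          have : m = i := by omega
          rw [h3, hu, this]
    · intro w c hwc
      rw [← hu]
      unfold D
      rw [hQ, wt_cons, hw1 w c hwc, hwt w c hwc]
      ring
  · right
    subst hy
    have hsub : (Walk.cons hadj A).append B = P.path u v := by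
      rw [hQ, hAB]
      rfl
    have hA := hP u v u T.t _ (Walk.isSubwalk_of_append_left hsub.symm)
    refine ⟨?_, ?_, ?_⟩
    · rw [← hu]
      unfold I
      rw [← hsub, Walk.mem_support_append_iff]
      exact Or.inl (Walk.end_mem_support _)
    · intro z
      rw [← hu]
      unfold I
      rw [← hA, Walk.support_cons, List.mem_cons, hsupp]
      constructor
      · rintro (h | ⟨m, h1, h2, h3⟩)
        · exact ⟨i, le_rfl, by omega, h.trans hu⟩
        · exact ⟨m, by omega, h2, h3⟩
      · rintro ⟨m, h1, h2, h3⟩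
        rcases Nat.lt_or_ge i m with h | h
        · exact Or.inr ⟨m, h, h2, h3⟩
        · left
          have : m = i := by omega
          rw [h3, hu, this]
    · intro w c hwc
      rw [← hu]
      unfold D
      rw [← hA, wt_cons, hw1 w c hwc, hwt w c hwc]
      ring

/-- What happens if the path from `f k i` starts toward `f k (i-1)`. -/
def Down (P : PathSystem G) (k : Fin 3) (i : ℕ) (v : V) : Prop :=
  (∃ j, 0 < j ∧ j < i ∧ v = T.f k j ∧
    (∀ z, I P (T.f k i) v z ↔ ∃ m, j ≤ m ∧ m ≤ i ∧ z = T.f k m) ∧
    ∀ w c, T.Compat w c → D P w (T.f k i) v = c k i - c k j) ∨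
  (I P (T.f k i) v T.s ∧
    (∀ z, I P (T.f k i) T.s z ↔ ∃ m, m ≤ i ∧ z = T.f k m) ∧
    ∀ w c, T.Compat w c → D P w (T.f k i) T.s = c k i - c k 0)

lemma rev_f (k : Fin 3) {i : ℕ} (hi : i ≤ T.l k) : T.rev.f k (T.l k - i) = T.f k i := by
  change T.f k (T.l k - (T.l k - i)) = _
  congr 1
  omega

lemma down_of_up {k : Fin 3} {i : ℕ} (hi : i ≤ T.l k) {v : V}
    (h : T.rev.Up P k (T.l k - i) v) : T.Down P k i v := by
  rcases h with ⟨j, hj1, hj2, hv, hsupp, hwt⟩ | ⟨h1, hsupp, hwt⟩
  · left
    rw [T.rev_f k hi] at hsupp hwt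
    change j < T.l k at hj2
    change v = T.f k (T.l k - j) at hv
    refine ⟨T.l k - j, by omega, by omega, hv, ?_, ?_⟩
    · intro z
      rw [hsupp]
      constructor
      · rintro ⟨m, h1, h2, h3⟩
        exact ⟨T.l k - m, by omega, by omega, h3⟩
      · rintro ⟨m, h1, h2, h3⟩
        refine ⟨T.l k - m, by omega, by omega, ?_⟩
        rw [h3, T.rev_f k (by omega)]
    · intro w c hwc
      have := hwt w _ hwc.rev
      rw [this]
      have e : T.l k - (T.l k - i) = i := by omega
      rw [e]
      ring
  · right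
    rw [T.rev_f k hi] at hsupp hwt h1
    refine ⟨h1, ?_, ?_⟩
    · intro z
      have := hsupp z
      change I P (T.f k i) T.s z ↔ ∃ m, T.l k - i ≤ m ∧ m ≤ T.l k ∧ z = T.rev.f k m at this
      rw [this]
      constructor
      · rintro ⟨m, h1, h2, h3⟩
        exact ⟨T.l k - m, by omega, h3⟩
      · rintro ⟨m, h1, h2⟩
        refine ⟨T.l k - m, by omega, by omega, ?_⟩
        rw [h2, T.rev_f k (by omega)]
    · intro w c hwc
      have := hwt w _ hwc.rev
      change D P w (T.f k i) T.s = - c k (T.l k - T.l k) - - c k (T.l k - (T.l k - i)) at this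
      rw [this]
      have e : T.l k - (T.l k - i) = i := by omega
      rw [e, Nat.sub_self]
      ring

/-- Trichotomy for the path from an inner vertex. -/
lemma step (hP : Consistent P) {k : Fin 3} {i : ℕ} (hi : 0 < i) (hik : i < T.l k) (v : V) :
    v = T.f k i ∨ T.Up P k i v ∨ T.Down P k i v := by
  obtain ⟨u, hu⟩ : ∃ u, u = T.f k i := ⟨_, rfl⟩
  cases hQ : P.path u v with
  | nil => exact Or.inl hu
  | cons hadj Q =>
    rename_i x
    right
    rcases T.adj_inner hi hik (hu ▸ hadj) with h | h
    · right
      apply T.down_of_up hik.le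
      refine T.rev.up_of_cons hP (k := k) (i := T.l k - i) (by change T.l k - i < T.l k; omega)
        (u := u) (x := x) ?_ ?_ hadj Q hQ
      · rw [hu, T.rev_f k hik.le]
      · rw [h]
        change _ = T.f k (T.l k - (T.l k - i + 1))
        congr 1
        omega
    · left
      exact T.up_of_cons hP hik hu h hadj Q hQ

/-- The path between the branch vertices runs along one of the three paths. -/
lemma exists_X (hP : Consistent P) : ∃ X, (∀ z, I P T.s T.t z ↔
      ∃ m, m ≤ T.l X ∧ z = T.f X m) ∧
    ∀ w c, T.Compat w c → D P w T.s T.t = c X (T.l X) - c X 0 := by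
  obtain ⟨u, hu⟩ : ∃ u, u = T.s := ⟨_, rfl⟩
  obtain ⟨v, hv⟩ : ∃ v, v = T.t := ⟨_, rfl⟩
  cases hQ : P.path u v with
  | nil => exact absurd (hu.symm.trans hv) T.st
  | cons hadj Q =>
    rename_i x
    obtain ⟨X, hX⟩ := T.adj_s (hu ▸ hadj)
    have h0 : 0 < T.l X := by have := T.two_le X; omega
    have h := T.up_of_cons hP (k := X) (i := 0) h0 (hu.trans (T.f_zero X).symm) hX hadj Q hQ
    refine ⟨X, ?_⟩
    rcases h with ⟨j, hj1, hj2, hv', -, -⟩ | ⟨-, hsupp, hwt⟩
    · exact absurd (hv'.symm.trans hv) (T.ne_t X j hj1 hj2)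
    · rw [T.f_zero] at hsupp hwt
      refine ⟨?_, hwt⟩
      intro z
      rw [hsupp]
      simp

end Th

end Pool.Agent.R204.TH
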