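import Mathlib
import Pool.Agent.R204.THa

/-!
# MP_d7339e_co: verification of a weight on a theta graph
-/

namespace Pool.Agent.R204.TH

open SimpleGraph

namespace Th

variable {V : Type*} {G : SimpleGraph V} (T : Th G)

lemma f_ne_s {k : Fin 3} {m : ℕ} (h0 : 0 < m) (hm : m ≤ T.l k) : T.f k m ≠ T.s := by
  rcases lt_or_eq_of_le hm with h | h
  · exact T.ne_s k m h0 h
  · rw [h, T.f_last]
    exact T.st.symm

lemma f_ne_t {k : Fin 3} {m : ℕ} (hm : m < T.l k) : T.f k m ≠ T.t := by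
  rcases Nat.eq_zero_or_pos m with h | h
  · rw [h, T.f_zero]
    exact T.st
  · exact T.ne_t k m h hm

lemma eq_cases {k m : Fin 3} {i j : ℕ} (hi : i ≤ T.l k) (hj : j ≤ T.l m)
    (h : T.f k i = T.f m j) : (i = 0 ∧ j = 0) ∨ (i = T.l k ∧ j = T.l m) ∨ (k = m ∧ i = j) := by
  rcases Nat.eq_zero_or_pos i with h0 | h0
  · left
    refine ⟨h0, ?_⟩
    rcases Nat.eq_zero_or_pos j with h1 | h1
    · exact h1
    · rw [h0, T.f_zero] at h
      exact absurd h.symm (T.f_ne_s h1 hj)
  · rcases lt_or_eq_of_le hi with h2 | h2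
    · right
      right
      have hj0 : 0 < j := by
        rcases Nat.eq_zero_or_pos j with h1 | h1
        · rw [h1, T.f_zero] at h
          exact absurd h (T.f_ne_s h0 hi)
        · exact h1
      have hj1 : j < T.l m := by
        rcases lt_or_eq_of_le hj with h3 | h3
        · exact h3
        · rw [h3, T.f_last] at h
          exact absurd h (T.f_ne_t h2)
      exact T.inj k i m j h0 h2 hj0 hj1 h
    · right
      left
      refine ⟨h2, ?_⟩
      rcases lt_or_eq_of_le hj with h3 | h3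
      · rw [h2, T.f_last] at h
        exact absurd h.symm (T.f_ne_t h3)
      · exact h3

lemma f_inj {k : Fin 3} {i j : ℕ} (hi : i ≤ T.l k) (hj : j ≤ T.l k)
    (h : T.f k i = T.f k j) : i = j := by
  rcases T.eq_cases hi hj h with h | h | h
  · omega
  · omega
  · exact h.2

variable (P : PathSystem G)

/-- The part of the path toward `s`. -/
def SuppS (k : Fin 3) (i : ℕ) : Prop :=
  ∀ z, I P (T.f k i) T.s z ↔ ∃ m, m ≤ i ∧ z = T.f k m

/-- The part of the path toward `t`. -/
def SuppT (k : Fin 3) (i : ℕ) : Prop :=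
  ∀ z, I P (T.f k i) T.t z ↔ ∃ m, i ≤ m ∧ m ≤ T.l k ∧ z = T.f k m

/-- Direct distance to `s`. -/
def DistS (k : Fin 3) (i : ℕ) : Prop :=
  ∀ w c, T.Compat w c → D P w (T.f k i) T.s = c k i - c k 0

/-- Direct distance to `t`. -/
def DistT (k : Fin 3) (i : ℕ) : Prop :=
  ∀ w c, T.Compat w c → D P w (T.f k i) T.t = c k (T.l k) - c k i

/-- The path from `f k i` to `t` passes through `s`. -/
def MS (k : Fin 3) (i : ℕ) : Prop := I P (T.f k i) T.t T.s

/-- The path from `f k i` to `s` passes through `t`. -/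
def MT (k : Fin 3) (i : ℕ) : Prop := I P (T.f k i) T.s T.t

variable {P}

lemma case_s (hP : Consistent P) {k : Fin 3} {i : ℕ} (hi : 0 < i) (hik : i < T.l k) :
    (¬ T.MT P k i ∧ T.SuppS P k i ∧ T.DistS P k i) ∨
    (T.MT P k i ∧ T.SuppT P k i ∧ T.DistT P k i) := by
  rcases T.step hP hi hik T.s with h | h | h
  · exact absurd h.symm (T.ne_s k i hi hik)
  · rcases h with ⟨j, hj1, hj2, hv, -, -⟩ | ⟨h1, h2, h3⟩
    · exact absurd hv.symm (T.ne_s k j (by omega) hj2)
    · exact Or.inr ⟨h1, h2, h3⟩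
  · rcases h with ⟨j, hj1, hj2, hv, -, -⟩ | ⟨h1, h2, h3⟩
    · exact absurd hv.symm (T.ne_s k j (by omega) (by omega))
    · left
      refine ⟨?_, h2, h3⟩
      intro h
      obtain ⟨m, hm, hm'⟩ := (h2 T.t).mp h
      exact T.f_ne_t (by omega) hm'.symm

lemma case_t (hP : Consistent P) {k : Fin 3} {i : ℕ} (hi : 0 < i) (hik : i < T.l k) :
    (¬ T.MS P k i ∧ T.SuppT P k i ∧ T.DistT P k i) ∨
    (T.MS P k i ∧ T.SuppS P k i ∧ T.DistS P k i) := by
  rcases T.step hP hi hik T.t with h | h | h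
  · exact absurd h.symm (T.ne_t k i hi hik)
  · rcases h with ⟨j, hj1, hj2, hv, -, -⟩ | ⟨h1, h2, h3⟩
    · exact absurd hv.symm (T.ne_t k j (by omega) hj2)
    · left
      refine ⟨?_, h2, h3⟩
      intro h
      obtain ⟨m, hm, hm1, hm'⟩ := (h2 T.s).mp h
      exact T.f_ne_s (by omega) hm1 hm'.symm
  · rcases h with ⟨j, hj1, hj2, hv, -, -⟩ | ⟨h1, h2, h3⟩
    · exact absurd hv.symm (T.ne_t k j (by omega) (by omega))
    · exact Or.inr ⟨h1, h2, h3⟩

/-- Two inner vertices of the same path. -/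
lemma case_same (hP : Consistent P) {k : Fin 3} {i j : ℕ} (hi : 0 < i) (hij : i < j)
    (hjk : j < T.l k) :
    (¬ I P (T.f k i) (T.f k j) T.s ∧
      (∀ z, I P (T.f k i) (T.f k j) z ↔ ∃ m, i ≤ m ∧ m ≤ j ∧ z = T.f k m) ∧
      ∀ w c, T.Compat w c → D P w (T.f k i) (T.f k j) = c k j - c k i) ∨
    (I P (T.f k i) (T.f k j) T.s ∧ T.SuppS P k i ∧ T.DistS P k i) := by
  rcases T.step hP (k := k) hi (by omega) (T.f k j) with h | h | h
  · have := T.f_inj (k := k) (i := j) (j := i) (by omega) (by omega) h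
    omega
  · rcases h with ⟨j', hj1, hj2, hv, hsupp, hwt⟩ | ⟨h1, h2, -⟩
    · have e : j = j' := T.f_inj (k := k) (by omega) (by omega) hv
      subst e
      left
      refine ⟨?_, hsupp, hwt⟩
      intro h
      obtain ⟨m, hm, hm1, hm'⟩ := (hsupp T.s).mp h
      exact T.f_ne_s (by omega) (by omega) hm'.symm
    · exfalso
      have hv : I P (T.f k i) T.t (T.f k j) := (h2 _).mpr ⟨j, by omega, by omega, rfl⟩
      have := I_anti hP hv h1
      exact T.ne_t k j (by omega) hjk this.symm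
  · rcases h with ⟨j', hj1, hj2, hv, -, -⟩ | ⟨h1, h2, h3⟩
    · have e : j = j' := T.f_inj (k := k) (by omega) (by omega) hv
      omega
    · exact Or.inr ⟨h1, h2, h3⟩

/-- Two inner vertices of different paths. -/
lemma case_diff (hP : Consistent P) {k m : Fin 3} (hkm : k ≠ m) {i j : ℕ} (hi : 0 < i)
    (hik : i < T.l k) (hj : 0 < j) (hjm : j < T.l m) :
    I P (T.f k i) (T.f m j) T.s ∨ I P (T.f k i) (T.f m j) T.t := by
  rcases T.step hP hi hik (T.f m j) with h | h | h
  · exact absurd (T.inj m j k i hj hjm hi hik h).1.symm hkm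
  · rcases h with ⟨j', hj1, hj2, hv, -, -⟩ | ⟨h1, -, -⟩
    · exact absurd (T.inj m j k j' hj hjm (by omega) hj2 hv).1.symm hkm
    · exact Or.inr h1
  · rcases h with ⟨j', hj1, hj2, hv, -, -⟩ | ⟨h1, -, -⟩
    · exact absurd (T.inj m j k j' hj hjm (by omega) (by omega) hv).1.symm hkm
    · exact Or.inl h1

/-- The conditions on the position function. -/
structure Good (P : PathSystem G) (X : Fin 3) (c : Fin 3 → ℕ → ℝ) (L : Fin 3 → ℝ) : Prop where
  c0 : ∀ k, c k 0 = - L k
  cl : ∀ k, c k (T.l k) = L k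
  mono : ∀ k i, i < T.l k → c k i < c k (i + 1)
  LX : ∀ k, L X ≤ L k
  LXpos : 0 < L X
  k1 : ∀ k i, 0 < i → i < T.l k → T.MS P k i → c k i ≤ - L X
  k1' : ∀ k i, 0 < i → i < T.l k → ¬ T.MS P k i → - L X ≤ c k i
  k2 : ∀ k i, 0 < i → i < T.l k → T.MT P k i → L X ≤ c k i
  k2' : ∀ k i, 0 < i → i < T.l k → ¬ T.MT P k i → c k i ≤ L X
  k3 : ∀ k m i j, k ≠ m → 0 < i → i < T.l k → 0 < j → j < T.l m → ¬ T.MS P k i →
    ¬ T.MT P k i → ¬ T.MS P m j → ¬ T.MT P m j → I P (T.f k i) (T.f m j) T.s →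
    c k i + c m j ≤ 0
  k3' : ∀ k m i j, k ≠ m → 0 < i → i < T.l k → 0 < j → j < T.l m → ¬ T.MS P k i →
    ¬ T.MT P k i → ¬ T.MS P m j → ¬ T.MT P m j → ¬ I P (T.f k i) (T.f m j) T.s →
    0 ≤ c k i + c m j
  k4 : ∀ k i j, 0 < i → i < j → j < T.l k → I P (T.f k i) (T.f k j) T.s →
    L X + L k ≤ c k j - c k i
  k4' : ∀ k i j, 0 < i → i < j → j < T.l k → ¬ I P (T.f k i) (T.f k j) T.s →
    c k j - c k i ≤ L X + L k

section verify

variable {X : Fin 3} {c : Fin 3 → ℕ → ℝ} {L : Fin 3 → ℝ} {w : Sym2 V → ℝ}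

lemma Good.strict {T : Th G} (hg : T.Good P X c L) {k : Fin 3} : ∀ {i j : ℕ}, i < j →
    j ≤ T.l k → c k i < c k j := by
  intro i j hij
  induction j, hij using Nat.le_induction with
  | base => intro h; exact hg.mono k i (by omega)
  | succ n hn ih => intro h; exact (ih (by omega)).trans (hg.mono k n (by omega))

lemma Good.le {T : Th G} (hg : T.Good P X c L) {k : Fin 3} {i j : ℕ} (hij : i ≤ j)
    (hj : j ≤ T.l k) : c k i ≤ c k j := by
  rcases lt_or_eq_of_le hij with h | h
  · exact (hg.strict h hj).le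
  · rw [h]

lemma Good.lower {T : Th G} (hg : T.Good P X c L) {k : Fin 3} {i : ℕ}
    (hi : i ≤ T.l k) : - L k ≤ c k i := by
  rw [← hg.c0 k]
  exact hg.le (Nat.zero_le _) hi

lemma Good.upper {T : Th G} (hg : T.Good P X c L) {k : Fin 3} {i : ℕ}
    (hi : i ≤ T.l k) : c k i ≤ L k := by
  rw [← hg.cl k]
  exact hg.le hi le_rfl

variable (hP : Consistent P) (hst : D P w T.s T.t = 2 * L X) (hg : T.Good P X c L)
  (hw : T.Compat w c)

include hP hst hg hw

lemma E0s {k : Fin 3} {i : ℕ} (hi : i ≤ T.l k) :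
    D P w (T.f k i) T.s = min (c k i + L k) (L k - c k i + 2 * L X) := by
  have hLX := hg.LXpos
  have hLk := hg.LX k
  rcases Nat.eq_zero_or_pos i with h0 | h0
  · rw [h0, T.f_zero, D_self, hg.c0, min_eq_left] <;> linarith
  rcases lt_or_eq_of_le hi with h1 | h1
  · have hlow := hg.lower hi
    have hup := hg.upper hi
    rcases T.case_s hP h0 h1 with ⟨h2, -, h3⟩ | ⟨h2, -, h3⟩
    · rw [h3 w c hw, hg.c0]
      have := hg.k2' k i h0 h1 h2
      rw [min_eq_left] <;> linarith
    · have := hg.k2 k i h0 h1 h2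
      rw [D_split hP w h2, h3 w c hw, D_symm, hst, hg.cl, min_eq_right] <;> linarith
  · rw [h1, T.f_last, D_symm, hst, hg.cl, min_eq_right] <;> linarith

lemma E0t {k : Fin 3} {i : ℕ} (hi : i ≤ T.l k) :
    D P w (T.f k i) T.t = min (L k - c k i) (c k i + L k + 2 * L X) := by
  have hLX := hg.LXpos
  have hLk := hg.LX k
  rcases Nat.eq_zero_or_pos i with h0 | h0
  · rw [h0, T.f_zero, hst, hg.c0, min_eq_right] <;> linarith
  rcases lt_or_eq_of_le hi with h1 | h1
  · have hlow := hg.lower hi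
    have hup := hg.upper hi
    rcases T.case_t hP h0 h1 with ⟨h2, -, h3⟩ | ⟨h2, -, h3⟩
    · rw [h3 w c hw, hg.cl]
      have := hg.k1' k i h0 h1 h2
      rw [min_eq_left] <;> linarith
    · have := hg.k1 k i h0 h1 h2
      rw [D_split hP w h2, h3 w c hw, hst, hg.c0, min_eq_right] <;> linarith
  · rw [h1, T.f_last, D_self, hg.cl, min_eq_left] <;> linarith

lemma E1 {k : Fin 3} {i j : ℕ} (hij : i ≤ j) (hj : j ≤ T.l k) :
    D P w (T.f k i) (T.f k j) =
      min (c k j - c k i) (2 * L X + 2 * L k - (c k j - c k i)) := by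
  have hLX := hg.LXpos
  have hLk := hg.LX k
  rcases Nat.eq_zero_or_pos i with h0 | h0
  · rw [h0, T.f_zero, D_symm, E0s T hP hst hg hw hj, hg.c0]
    congr 1 <;> ring
  rcases lt_or_eq_of_le hj with h1 | h1
  swap
  · rw [h1, T.f_last, E0t T hP hst hg hw (by omega), hg.cl]
    congr 1; ring
  rcases lt_or_eq_of_le hij with h2 | h2
  swap
  · rw [h2, D_self, min_eq_left] <;> linarith
  have hlow := hg.lower (k := k) (i := i) (by omega)
  have hup := hg.upper hj
  rcases T.case_same hP h0 h2 h1 with ⟨h3, -, h4⟩ | ⟨h3, -, h4⟩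
  · have := hg.k4' k i j h0 h2 h1 h3
    rw [h4 w c hw, min_eq_left]
    linarith
  · have := hg.k4 k i j h0 h2 h1 h3
    rw [D_split hP w h3, h4 w c hw, D_symm w T.s, E0s T hP hst hg hw hj, hg.c0,
      min_eq_right, min_eq_right] <;> linarith

omit hst hg hw in
/-- If the path from `u` to `v` passes `s`, and neither `u` nor `v` goes to `t` via `s`, then
both go to `s` directly. -/
lemma not_MT_of {k m : Fin 3} {i j : ℕ} (hs : I P (T.f k i) (T.f m j) T.s)
    (h2 : ¬ T.MS P m j) : ¬ T.MT P k i := by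
  intro h
  -- t lies between u and s, so s lies between t and v
  have h3 : I P T.t (T.f m j) T.s := I_order hP h hs
  exact h2 (I_symm.mp h3)

omit hst hg hw in
lemma not_MS_of {k m : Fin 3} {i j : ℕ} (hs : I P (T.f k i) (T.f m j) T.t)
    (h2 : ¬ T.MT P m j) : ¬ T.MS P k i := by
  intro h
  have h3 : I P T.s (T.f m j) T.t := I_order hP h hs
  exact h2 (I_symm.mp h3)

lemma E2 {k m : Fin 3} (hkm : k ≠ m) {i j : ℕ} (hi : i ≤ T.l k) (hj : j ≤ T.l m) :
    D P w (T.f k i) (T.f m j) =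
      min (D P w (T.f k i) T.s + D P w (T.f m j) T.s)
        (D P w (T.f k i) T.t + D P w (T.f m j) T.t) := by
  have hLX := hg.LXpos
  have hLk := hg.LX k
  have hLm := hg.LX m
  have e1 := E0s T hP hst hg hw hi
  have e2 := E0t T hP hst hg hw hi
  have e3 := E0s T hP hst hg hw hj
  have e4 := E0t T hP hst hg hw hj
  have hts : D P w T.t T.s = 2 * L X := by rw [D_symm]; exact hst
  -- A ≤ B + 2 L X and B ≤ A + 2 L X
  have hAB : ∀ {k : Fin 3} {i : ℕ}, i ≤ T.l k →
      D P w (T.f k i) T.s ≤ D P w (T.f k i) T.t + 2 * L X ∧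
      D P w (T.f k i) T.t ≤ D P w (T.f k i) T.s + 2 * L X := by
    intro k i hi
    have hlow := hg.lower hi
    have hup := hg.upper hi
    have hLk := hg.LX k
    rw [E0s T hP hst hg hw hi, E0t T hP hst hg hw hi]
    constructor
    · rcases min_cases (L k - c k i) (c k i + L k + 2 * L X) with ⟨h, -⟩ | ⟨h, -⟩
      · rw [h]
        refine (min_le_right _ _).trans (by linarith)
      · rw [h]
        refine (min_le_left _ _).trans (by linarith)
    · rcases min_cases (c k i + L k) (L k - c k i + 2 * L X) with ⟨h, -⟩ | ⟨h, -⟩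
      · rw [h]
        refine (min_le_right _ _).trans (by linarith)
      · rw [h]
        refine (min_le_left _ _).trans (by linarith)
  obtain ⟨hA1, hA2⟩ := hAB hi
  obtain ⟨hA3, hA4⟩ := hAB hj
  rcases Nat.eq_zero_or_pos i with h0 | h0
  · rw [h0, T.f_zero, D_self, hst, D_symm w T.s, min_eq_left] <;> linarith
  rcases Nat.eq_zero_or_pos j with h1 | h1
  · rw [h1, T.f_zero, D_self, hst, min_eq_left] <;> linarith
  rcases lt_or_eq_of_le hi with hi' | hi'
  swap
  · rw [hi', T.f_last, D_self, hts, D_symm w T.t, min_eq_right] <;> linarith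
  rcases lt_or_eq_of_le hj with hj' | hj'
  swap
  · rw [hj', T.f_last, D_self, hts, min_eq_right] <;> linarith
  rcases T.case_diff hP hkm h0 hi' h1 hj' with hs | ht
  · have hs' := I_symm.mp hs
    rw [D_split hP w hs, D_symm w T.s]
    symm
    apply min_eq_left
    by_cases m1 : T.MS P k i
    · rw [D_split hP w m1, hst]
      linarith
    by_cases m2 : T.MS P m j
    · rw [D_split hP w m2, hst]
      linarith
    have m3 := T.not_MT_of hP hs m2
    have m4 := T.not_MT_of hP hs' m1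
    have hk3 := hg.k3 k m i j hkm h0 hi' h1 hj' m1 m3 m2 m4 hs
    have n1 := hg.k1' k i h0 hi' m1
    have n2 := hg.k2' k i h0 hi' m3
    have n3 := hg.k1' m j h1 hj' m2
    have n4 := hg.k2' m j h1 hj' m4
    rw [min_eq_left (by linarith)] at e1 e2 e3 e4
    rw [e1, e2, e3, e4]
    linarith
  · have ht' := I_symm.mp ht
    rw [D_split hP w ht, D_symm w T.t]
    symm
    apply min_eq_right
    by_cases m1 : T.MT P k i
    · rw [D_split hP w m1, hts]
      linarith
    by_cases m2 : T.MT P m j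
    · rw [D_split hP w m2, hts]
      linarith
    have m3 := T.not_MS_of hP ht m2
    have m4 := T.not_MS_of hP ht' m1
    have hns : ¬ I P (T.f k i) (T.f m j) T.s := by
      intro hs
      rcases (I_union hP ht).mp hs with h | h
      · exact m3 h
      · exact m4 (I_symm.mp h)
    have hk3 := hg.k3' k m i j hkm h0 hi' h1 hj' m3 m1 m4 m2 hns
    have n1 := hg.k1' k i h0 hi' m3
    have n2 := hg.k2' k i h0 hi' m1
    have n3 := hg.k1' m j h1 hj' m4
    have n4 := hg.k2' m j h1 hj' m2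
    rw [min_eq_left (by linarith)] at e1 e2 e3 e4
    rw [e1, e2, e3, e4]
    linarith

omit hP hst hw in
lemma cover' (v : V) : ∃ m j, j ≤ T.l m ∧ v = T.f m j := by
  have := hg
  rcases T.cover v with h | h | ⟨k, i, hi, hik, h⟩
  · exact ⟨0, 0, Nat.zero_le _, h.trans (T.f_zero 0).symm⟩
  · exact ⟨0, T.l 0, le_rfl, h.trans (T.f_last 0).symm⟩
  · exact ⟨k, i, hik.le, h⟩

lemma lip_edge {k : Fin 3} {i : ℕ} (hi : i < T.l k) (v : V) :
    |D P w (T.f k i) v - D P w (T.f k (i + 1)) v| ≤ c k (i + 1) - c k i := by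
  obtain ⟨m, j, hj, rfl⟩ := cover' T hg v
  have hLX := hg.LXpos
  have hLk := hg.LX k
  have hLm := hg.LX m
  have hlt := hg.mono k i hi
  by_cases hkm : k = m
  · subst hkm
    have hE : ∀ i, i ≤ T.l k → D P w (T.f k i) (T.f k j) =
        min |c k i - c k j| (2 * L X + 2 * L k - |c k i - c k j|) := by
      intro i hi
      rcases le_total i j with h | h
      · have h2 := hg.le h hj
        rw [E1 T hP hst hg hw h hj, abs_sub_comm, abs_of_nonneg (by linarith)]
      · have h2 := hg.le h hi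
        rw [D_symm, E1 T hP hst hg hw h hi, abs_of_nonneg (by linarith)]
    rw [hE i hi.le, hE (i + 1) (by omega)]
    have h1 : |(|c k i - c k j| - |c k (i + 1) - c k j|)| ≤ c k (i + 1) - c k i := by
      refine (abs_abs_sub_abs_le_abs_sub _ _).trans ?_
      rw [show c k i - c k j - (c k (i + 1) - c k j) = -(c k (i + 1) - c k i) by ring, abs_neg,
        abs_of_pos (by linarith)]
    refine (abs_min_sub_min_le_max _ _ _ _).trans (max_le h1 ?_)
    rw [show 2 * L X + 2 * L k - |c k i - c k j| - (2 * L X + 2 * L k - |c k (i + 1) - c k j|) =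
      -(|c k i - c k j| - |c k (i + 1) - c k j|) by ring, abs_neg]
    exact h1
  · rw [E2 T hP hst hg hw hkm hi.le hj, E2 T hP hst hg hw hkm (by omega : i + 1 ≤ T.l k) hj]
    have h1 : |D P w (T.f k i) T.s - D P w (T.f k (i + 1)) T.s| ≤ c k (i + 1) - c k i := by
      rw [E0s T hP hst hg hw hi.le, E0s T hP hst hg hw (by omega : i + 1 ≤ T.l k)]
      refine (abs_min_sub_min_le_max _ _ _ _).trans (max_le ?_ ?_)
      · rw [show c k i + L k - (c k (i + 1) + L k) = -(c k (i + 1) - c k i) by ring, abs_neg,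
          abs_of_pos (by linarith)]
      · rw [show L k - c k i + 2 * L X - (L k - c k (i + 1) + 2 * L X) =
          c k (i + 1) - c k i by ring, abs_of_pos (by linarith)]
    have h2 : |D P w (T.f k i) T.t - D P w (T.f k (i + 1)) T.t| ≤ c k (i + 1) - c k i := by
      rw [E0t T hP hst hg hw hi.le, E0t T hP hst hg hw (by omega : i + 1 ≤ T.l k)]
      refine (abs_min_sub_min_le_max _ _ _ _).trans (max_le ?_ ?_)
      · rw [show L k - c k i - (L k - c k (i + 1)) = c k (i + 1) - c k i by ring,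
          abs_of_pos (by linarith)]
      · rw [show c k i + L k + 2 * L X - (c k (i + 1) + L k + 2 * L X) =
          -(c k (i + 1) - c k i) by ring, abs_neg, abs_of_pos (by linarith)]
    refine (abs_min_sub_min_le_max _ _ _ _).trans (max_le ?_ ?_)
    · rw [show D P w (T.f k i) T.s + D P w (T.f m j) T.s -
        (D P w (T.f k (i + 1)) T.s + D P w (T.f m j) T.s) =
        D P w (T.f k i) T.s - D P w (T.f k (i + 1)) T.s by ring]
      exact h1
    · rw [show D P w (T.f k i) T.t + D P w (T.f m j) T.t -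
        (D P w (T.f k (i + 1)) T.t + D P w (T.f m j) T.t) =
        D P w (T.f k i) T.t - D P w (T.f k (i + 1)) T.t by ring]
      exact h2

theorem induces : Induces w P := by
  apply induces_of_lipschitz
  intro u u' v hadj
  obtain ⟨k, i, hi, h | h⟩ := (T.adj u u').mp hadj
  · obtain ⟨rfl, rfl⟩ := h
    have h1 := lip_edge T hP hst hg hw hi v
    rw [hw k i hi]
    linarith [(abs_le.mp h1).2]
  · obtain ⟨rfl, rfl⟩ := h
    have h1 := lip_edge T hP hst hg hw hi v
    rw [Sym2.eq_swap, hw k i hi]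
    linarith [(abs_le.mp h1).1]

end verify

/-- An edge weight compatible with a given position function. -/
lemma exists_compat (c : Fin 3 → ℕ → ℝ) (hc : ∀ k i, i < T.l k → c k i < c k (i + 1)) :
    ∃ w : Sym2 V → ℝ, T.Compat w c ∧ ∀ e ∈ G.edgeSet, 0 < w e := by
  classical
  have huniq : ∀ k i m j, i < T.l k → j < T.l m →
      s(T.f k i, T.f k (i + 1)) = s(T.f m j, T.f m (j + 1)) → k = m ∧ i = j := by
    intro k i m j hi hj h
    have hk := T.two_le k
    have hm := T.two_le m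
    rw [Sym2.eq_iff] at h
    rcases h with ⟨h1, h2⟩ | ⟨h1, h2⟩
    · have e1 := T.eq_cases hi.le hj.le h1
      have e2 := T.eq_cases (by omega : i + 1 ≤ T.l k) (by omega : j + 1 ≤ T.l m) h2
      rcases e1 with e1 | e1 | e1
      · rcases e2 with e2 | e2 | e2
        · omega
        · omega
        · exact ⟨e2.1, by omega⟩
      · omega
      · exact e1
    · have e1 := T.eq_cases hi.le (by omega : j + 1 ≤ T.l m) h1
      have e2 := T.eq_cases (by omega : i + 1 ≤ T.l k) hj.le h2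
      rcases e1 with e1 | e1 | e1
      · omega
      · omega
      · rcases e2 with e2 | e2 | e2 <;> omega
  let w : Sym2 V → ℝ := fun e =>
    if h : ∃ q : Fin 3 × ℕ, q.2 < T.l q.1 ∧ e = s(T.f q.1 q.2, T.f q.1 (q.2 + 1)) then
      c h.choose.1 (h.choose.2 + 1) - c h.choose.1 h.choose.2 else 1
  have hw : T.Compat w c := by
    intro k i hi
    have h : ∃ q : Fin 3 × ℕ, q.2 < T.l q.1 ∧
        s(T.f k i, T.f k (i + 1)) = s(T.f q.1 q.2, T.f q.1 (q.2 + 1)) := ⟨(k, i), hi, rfl⟩
    obtain ⟨h1, h2⟩ := huniq k i h.choose.1 h.choose.2 hi h.choose_spec.1 h.choose_spec.2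
    change (if h : ∃ q : Fin 3 × ℕ, q.2 < T.l q.1 ∧
        s(T.f k i, T.f k (i + 1)) = s(T.f q.1 q.2, T.f q.1 (q.2 + 1)) then
      c h.choose.1 (h.choose.2 + 1) - c h.choose.1 h.choose.2 else 1) = _
    rw [dif_pos h, ← h1, ← h2]
  refine ⟨w, hw, ?_⟩
  intro e
  induction e using Sym2.ind with
  | _ u v =>
    intro he
    rw [SimpleGraph.mem_edgeSet, T.adj] at he
    obtain ⟨k, i, hi, h | h⟩ := he
    · rw [h.1, h.2, hw k i hi]
      linarith [hc k i hi]
    · rw [h.1, h.2, Sym2.eq_swap, hw k i hi]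
      linarith [hc k i hi]

/-- Everything together. -/
theorem exists_weight (hP : Consistent P) {X : Fin 3}
    (hX : ∀ w c, T.Compat w c → D P w T.s T.t = c X (T.l X) - c X 0)
    {c : Fin 3 → ℕ → ℝ} {L : Fin 3 → ℝ} (hg : T.Good P X c L) :
    ∃ w : Sym2 V → ℝ, (∀ e ∈ G.edgeSet, 0 < w e) ∧ Induces w P := by
  obtain ⟨w, hw, hpos⟩ := T.exists_compat c hg.mono
  refine ⟨w, hpos, ?_⟩
  have hst : D P w T.s T.t = 2 * L X := by
    rw [hX w c hw, hg.cl, hg.c0]
    ring
  exact induces T hP hst hg hw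

end Th

end Pool.Agent.R204.TH
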