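import Mathlib
import Pool.Agent.R204.THb

/-!
# MP_d7339e_co: realising order patterns by real numbers; metrizability of theta graphs
-/

namespace Pool.Agent.R204.TH

open SimpleGraph

section chains

/-- Two chains with a monotone relation. -/
lemma two_chain {A B : Type*} [LinearOrder A] [LinearOrder B] (α : Finset A) (β : Finset B)
    (R : A → B → Prop)
    (hR : ∀ i ∈ α, ∀ i' ∈ α, ∀ j ∈ β, ∀ j' ∈ β, i' ≤ i → j' ≤ j → R i j → R i' j') :
    ∃ (c : A → ℝ) (d : B → ℝ) (N : ℝ), 0 < N ∧ (∀ i ∈ α, |c i| ≤ N) ∧ (∀ j ∈ β, |d j| ≤ N) ∧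
      (∀ i ∈ α, ∀ i' ∈ α, i < i' → c i < c i') ∧ (∀ j ∈ β, ∀ j' ∈ β, j < j' → d j < d j') ∧
      ∀ i ∈ α, ∀ j ∈ β, (R i j → c i + d j ≤ -1) ∧ (¬ R i j → 1 ≤ c i + d j) := by
  classical
  refine ⟨fun i => ((α.filter (· ≤ i)).card : ℝ) - (β.filter (fun j => R i j)).card - 1,
    fun j => ((β.filter (· ≤ j)).card : ℝ) - (α.filter (fun i => R i j)).card,
    α.card + β.card + 2, by positivity, ?_, ?_, ?_, ?_, ?_⟩
  · intro i _
    have h1 : ((α.filter (· ≤ i)).card : ℝ) ≤ α.card := by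
      exact_mod_cast Finset.card_le_card (Finset.filter_subset _ _)
    have h2 : ((β.filter (fun j => R i j)).card : ℝ) ≤ β.card := by
      exact_mod_cast Finset.card_le_card (Finset.filter_subset _ _)
    have h3 : (0 : ℝ) ≤ (α.filter (· ≤ i)).card := by positivity
    have h4 : (0 : ℝ) ≤ (β.filter (fun j => R i j)).card := by positivity
    rw [abs_le]
    constructor <;> linarith
  · intro j _
    have h1 : ((β.filter (· ≤ j)).card : ℝ) ≤ β.card := by
      exact_mod_cast Finset.card_le_card (Finset.filter_subset _ _)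
    have h2 : ((α.filter (fun i => R i j)).card : ℝ) ≤ α.card := by
      exact_mod_cast Finset.card_le_card (Finset.filter_subset _ _)
    have h3 : (0 : ℝ) ≤ (β.filter (· ≤ j)).card := by positivity
    have h4 : (0 : ℝ) ≤ (α.filter (fun i => R i j)).card := by positivity
    rw [abs_le]
    constructor <;> linarith
  · intro i hi i' hi' hii
    have h1 : (α.filter (· ≤ i)).card < (α.filter (· ≤ i')).card := by
      apply Finset.card_lt_card
      refine ⟨fun x hx => ?_, fun hsub => ?_⟩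
      · simp only [Finset.mem_filter] at hx ⊢
        exact ⟨hx.1, hx.2.trans hii.le⟩
      · have : i' ∈ α.filter (· ≤ i) := hsub (by simp [hi'])
        simp only [Finset.mem_filter] at this
        exact absurd this.2 (not_le.mpr hii)
    have h2 : (β.filter (fun j => R i' j)).card ≤ (β.filter (fun j => R i j)).card := by
      apply Finset.card_le_card
      intro j hj
      simp only [Finset.mem_filter] at hj ⊢
      exact ⟨hj.1, hR i' hi' i hi j hj.1 j hj.1 hii.le le_rfl hj.2⟩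
    have h1' : ((α.filter (· ≤ i)).card : ℝ) < (α.filter (· ≤ i')).card := by exact_mod_cast h1
    have h2' : ((β.filter (fun j => R i' j)).card : ℝ) ≤ (β.filter (fun j => R i j)).card := by
      exact_mod_cast h2
    simp only
    linarith
  · intro j hj j' hj' hjj
    have h1 : (β.filter (· ≤ j)).card < (β.filter (· ≤ j')).card := by
      apply Finset.card_lt_card
      refine ⟨fun x hx => ?_, fun hsub => ?_⟩
      · simp only [Finset.mem_filter] at hx ⊢
        exact ⟨hx.1, hx.2.trans hjj.le⟩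
      · have : j' ∈ β.filter (· ≤ j) := hsub (by simp [hj'])
        simp only [Finset.mem_filter] at this
        exact absurd this.2 (not_le.mpr hjj)
    have h2 : (α.filter (fun i => R i j')).card ≤ (α.filter (fun i => R i j)).card := by
      apply Finset.card_le_card
      intro i hi
      simp only [Finset.mem_filter] at hi ⊢
      exact ⟨hi.1, hR i hi.1 i hi.1 j' hj' j hj le_rfl hjj.le hi.2⟩
    have h1' : ((β.filter (· ≤ j)).card : ℝ) < (β.filter (· ≤ j')).card := by exact_mod_cast h1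
    have h2' : ((α.filter (fun i => R i j')).card : ℝ) ≤ (α.filter (fun i => R i j)).card := by
      exact_mod_cast h2
    simp only
    linarith
  · intro i hi j hj
    constructor
    · intro hr
      have h1 : (α.filter (· ≤ i)).card ≤ (α.filter (fun i => R i j)).card := by
        apply Finset.card_le_card
        intro x hx
        simp only [Finset.mem_filter] at hx ⊢
        exact ⟨hx.1, hR i hi x hx.1 j hj j hj hx.2 le_rfl hr⟩
      have h2 : (β.filter (· ≤ j)).card ≤ (β.filter (fun j => R i j)).card := by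
        apply Finset.card_le_card
        intro x hx
        simp only [Finset.mem_filter] at hx ⊢
        exact ⟨hx.1, hR i hi i hi j hj x hx.1 le_rfl hx.2 hr⟩
      have h1' : ((α.filter (· ≤ i)).card : ℝ) ≤ (α.filter (fun i => R i j)).card := by
        exact_mod_cast h1
      have h2' : ((β.filter (· ≤ j)).card : ℝ) ≤ (β.filter (fun j => R i j)).card := by
        exact_mod_cast h2
      linarith
    · intro hr
      have h1 : (α.filter (fun i => R i j)).card < (α.filter (· ≤ i)).card := by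
        apply Finset.card_lt_card
        refine ⟨fun x hx => ?_, fun hsub => ?_⟩
        · simp only [Finset.mem_filter] at hx ⊢
          refine ⟨hx.1, ?_⟩
          by_contra hlt
          exact hr (hR x hx.1 i hi j hj j hj (not_le.mp hlt).le le_rfl hx.2)
        · have : i ∈ α.filter (fun i => R i j) := hsub (by simp [hi])
          simp only [Finset.mem_filter] at this
          exact hr this.2
      have h2 : (β.filter (fun j => R i j)).card < (β.filter (· ≤ j)).card := by
        apply Finset.card_lt_card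
        refine ⟨fun x hx => ?_, fun hsub => ?_⟩
        · simp only [Finset.mem_filter] at hx ⊢
          refine ⟨hx.1, ?_⟩
          by_contra hlt
          exact hr (hR i hi i hi x hx.1 j hj le_rfl (not_le.mp hlt).le hx.2)
        · have : j ∈ β.filter (fun j => R i j) := hsub (by simp [hj])
          simp only [Finset.mem_filter] at this
          exact hr this.2
      have h1' : ((α.filter (fun i => R i j)).card : ℝ) + 1 ≤ (α.filter (· ≤ i)).card := by
        exact_mod_cast h1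
      have h2' : ((β.filter (fun j => R i j)).card : ℝ) + 1 ≤ (β.filter (· ≤ j)).card := by
        exact_mod_cast h2
      linarith

lemma exists_sep {A : Type*} [LinearOrder A] (α : Finset A) (E : A → Prop) (c : A → ℝ) (N : ℝ)
    (hN : 0 < N) (hc : ∀ i ∈ α, |c i| ≤ N) (hmono : ∀ i ∈ α, ∀ i' ∈ α, i < i' → c i < c i')
    (hE : ∀ i ∈ α, ∀ i' ∈ α, i' ≤ i → E i → E i') :
    ∃ M : ℝ, |M| ≤ N ∧ (∀ i ∈ α, E i → c i ≤ M) ∧ (∀ i ∈ α, ¬ E i → M ≤ c i) := by
  classical
  set S : Finset ℝ := insert (-N) ((α.filter E).image c) with hS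
  have hne : S.Nonempty := ⟨-N, by simp [hS]⟩
  refine ⟨S.max' hne, ?_, ?_, ?_⟩
  · rw [abs_le]
    constructor
    · exact S.le_max' _ (by simp [hS])
    · apply Finset.max'_le
      intro y hy
      simp only [hS, Finset.mem_insert, Finset.mem_image, Finset.mem_filter] at hy
      rcases hy with rfl | ⟨i, hi, rfl⟩
      · linarith
      · exact (abs_le.mp (hc i hi.1)).2
  · intro i hi hEi
    apply S.le_max'
    simp only [hS, Finset.mem_insert, Finset.mem_image, Finset.mem_filter]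
    exact Or.inr ⟨i, ⟨hi, hEi⟩, rfl⟩
  · intro i hi hEi
    apply Finset.max'_le
    intro y hy
    simp only [hS, Finset.mem_insert, Finset.mem_image, Finset.mem_filter] at hy
    rcases hy with rfl | ⟨x, hx, rfl⟩
    · exact (abs_le.mp (hc i hi)).1
    · have hlt : x < i := by
        by_contra h
        exact hEi (hE x hx.1 i hi (not_lt.mp h) hx.2)
      exact (hmono x hx.1 i hi hlt).le

/-- Two chains and a single element. -/
lemma three_chain {A B : Type*} [LinearOrder A] [LinearOrder B] (α : Finset A) (β : Finset B)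
    (R : A → B → Prop)
    (hR : ∀ i ∈ α, ∀ i' ∈ α, ∀ j ∈ β, ∀ j' ∈ β, i' ≤ i → j' ≤ j → R i j → R i' j')
    (E : A → Prop) (hE : ∀ i ∈ α, ∀ i' ∈ α, i' ≤ i → E i → E i')
    (F : B → Prop) (hF : ∀ i ∈ β, ∀ i' ∈ β, i' ≤ i → F i → F i') :
    ∃ (c : A → ℝ) (d : B → ℝ) (e : ℝ), |e| < 1 ∧ (∀ i ∈ α, |c i| < 1) ∧ (∀ j ∈ β, |d j| < 1) ∧
      (∀ i ∈ α, ∀ i' ∈ α, i < i' → c i < c i') ∧ (∀ j ∈ β, ∀ j' ∈ β, j < j' → d j < d j') ∧
      (∀ i ∈ α, ∀ j ∈ β, (R i j → c i + d j ≤ 0) ∧ (¬ R i j → 0 ≤ c i + d j)) ∧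
      (∀ i ∈ α, (E i → c i + e ≤ 0) ∧ (¬ E i → 0 ≤ c i + e)) ∧
      (∀ j ∈ β, (F j → d j + e ≤ 0) ∧ (¬ F j → 0 ≤ d j + e)) := by
  obtain ⟨c, d, N, hN, hc, hd, hcm, hdm, hcd⟩ := two_chain α β R hR
  obtain ⟨M1, hM, hM1, hM2⟩ := exists_sep α E c N hN hc hcm hE
  obtain ⟨M2, hM', hM3, hM4⟩ := exists_sep β F d N hN hd hdm hF
  have hK : 0 < 1 / (2 * N + 1) := by positivity
  set K := 1 / (2 * N + 1) with hKdef
  have hKN : K * (2 * N) < 1 := by
    rw [hKdef, one_div, inv_mul_lt_iff₀ (by positivity)]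
    linarith
  have hbound : ∀ x : ℝ, |x| ≤ 2 * N → |K * x| < 1 := by
    intro x hx
    rw [abs_mul, abs_of_pos hK]
    exact lt_of_le_of_lt (mul_le_mul_of_nonneg_left hx hK.le) hKN
  rw [abs_le] at hM hM'
  refine ⟨fun i => K * (c i + (M2 - M1) / 2), fun j => K * (d j + (M1 - M2) / 2),
    K * (-(M1 + M2) / 2), ?_, ?_, ?_, ?_, ?_, ?_, ?_, ?_⟩
  · apply hbound
    rw [abs_le]
    constructor <;> linarith [hM.1, hM.2, hM'.1, hM'.2]
  · intro i hi
    apply hbound
    have := abs_le.mp (hc i hi)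
    rw [abs_le]
    constructor <;> linarith [hM.1, hM.2, hM'.1, hM'.2]
  · intro i hi
    apply hbound
    have := abs_le.mp (hd i hi)
    rw [abs_le]
    constructor <;> linarith [hM.1, hM.2, hM'.1, hM'.2]
  · intro i hi i' hi' hii
    have := hcm i hi i' hi' hii
    apply mul_lt_mul_of_pos_left _ hK
    linarith
  · intro i hi i' hi' hii
    have := hdm i hi i' hi' hii
    apply mul_lt_mul_of_pos_left _ hK
    linarith
  · intro i hi j hj
    obtain ⟨h1, h2⟩ := hcd i hi j hj
    simp only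
    rw [← mul_add]
    constructor
    · intro h
      have := h1 h
      exact mul_nonpos_of_nonneg_of_nonpos hK.le (by linarith)
    · intro h
      have := h2 h
      exact mul_nonneg hK.le (by linarith)
  · intro i hi
    simp only
    rw [← mul_add]
    constructor
    · intro h
      have := hM1 i hi h
      exact mul_nonpos_of_nonneg_of_nonpos hK.le (by linarith)
    · intro h
      have := hM2 i hi h
      exact mul_nonneg hK.le (by linarith)
  · intro i hi
    simp only
    rw [← mul_add]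
    constructor
    · intro h
      have := hM3 i hi h
      exact mul_nonpos_of_nonneg_of_nonpos hK.le (by linarith)
    · intro h
      have := hM4 i hi h
      exact mul_nonneg hK.le (by linarith)

/-- A realisation of three chains with pairwise monotone relations. -/
def Sol (M : Fin 3 → Finset ℕ) (R : Fin 3 → ℕ → Fin 3 → ℕ → Prop) (c : Fin 3 → ℕ → ℝ) : Prop :=
  (∀ k, ∀ i ∈ M k, |c k i| < 1) ∧ (∀ k, ∀ i ∈ M k, ∀ i' ∈ M k, i < i' → c k i < c k i') ∧
  ∀ k m, k ≠ m → ∀ i ∈ M k, ∀ j ∈ M m,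
    (R k i m j → c k i + c m j ≤ 0) ∧ (¬ R k i m j → 0 ≤ c k i + c m j)

lemma solve_single (M : Fin 3 → Finset ℕ) (R : Fin 3 → ℕ → Fin 3 → ℕ → Prop)
    (hs : ∀ k i m j, R k i m j → R m j k i)
    (hd : ∀ k m, k ≠ m → ∀ i ∈ M k, ∀ i' ∈ M k, ∀ j ∈ M m, ∀ j' ∈ M m, i' ≤ i → j' ≤ j →
      R k i m j → R k i' m j') (k0 : Fin 3) (h0 : (M k0).card ≤ 1) :
    ∃ c, Sol M R c := by
  obtain ⟨k1, k2, h01, h02, h12, hall⟩ : ∃ k1 k2 : Fin 3, k0 ≠ k1 ∧ k0 ≠ k2 ∧ k1 ≠ k2 ∧
      ∀ k, k = k0 ∨ k = k1 ∨ k = k2 := by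
    have aux : ∀ k0 : Fin 3, ∃ k1 k2 : Fin 3, k0 ≠ k1 ∧ k0 ≠ k2 ∧ k1 ≠ k2 ∧
      ∀ k, k = k0 ∨ k = k1 ∨ k = k2 := by decide
    exact aux k0
  obtain ⟨a, ha⟩ := Finset.card_le_one_iff_subset_singleton.mp h0
  obtain ⟨c, d, e, he, hc, hd', hcm, hdm, hcd, hce, hde⟩ := three_chain (M k1) (M k2)
    (fun i j => R k1 i k2 j) (hd k1 k2 h12)
    (fun i => a ∈ M k0 ∧ R k1 i k0 a)
    (fun i hi i' hi' hii h => ⟨h.1, hd k1 k0 h01.symm i hi i' hi' a h.1 a h.1 hii le_rfl h.2⟩)
    (fun i => a ∈ M k0 ∧ R k2 i k0 a)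
    (fun i hi i' hi' hii h => ⟨h.1, hd k2 k0 h02.symm i hi i' hi' a h.1 a h.1 hii le_rfl h.2⟩)
  have key : Sol M R (fun k i => if k = k1 then c i else if k = k2 then d i else e) := by
    refine ⟨?_, ?_, ?_⟩
    · intro k i hi
      rcases hall k with rfl | rfl | rfl
      · simp only [if_neg h01, if_neg h02]
        exact he
      · simp only [if_true]
        exact hc i hi
      · simp only [if_neg h12.symm, if_true]
        exact hd' i hi
    · intro k i hi i' hi' hii
      rcases hall k with rfl | rfl | rfl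
      · have e1 := Finset.mem_singleton.mp (ha hi)
        have e2 := Finset.mem_singleton.mp (ha hi')
        omega
      · simp only [if_true]
        exact hcm i hi i' hi' hii
      · simp only [if_neg h12.symm, if_true]
        exact hdm i hi i' hi' hii
    · have hflip : ∀ k m i j, (R k i m j ↔ R m j k i) := fun k m i j => ⟨hs _ _ _ _, hs _ _ _ _⟩
      intro k m hkm i hi j hj
      rcases hall k with rfl | rfl | rfl <;> rcases hall m with rfl | rfl | rfl
      · exact absurd rfl hkm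
      · have e1 := Finset.mem_singleton.mp (ha hi)
        subst e1
        simp only [if_neg h01, if_neg h02, if_true]
        rw [hflip, add_comm]
        obtain ⟨h1, h2⟩ := hce j hj
        exact ⟨fun h => h1 ⟨hi, h⟩, fun h => h2 (fun h' => h h'.2)⟩
      · have e1 := Finset.mem_singleton.mp (ha hi)
        subst e1
        simp only [if_neg h01, if_neg h02, if_neg h12.symm, if_true]
        rw [hflip, add_comm]
        obtain ⟨h1, h2⟩ := hde j hj
        exact ⟨fun h => h1 ⟨hi, h⟩, fun h => h2 (fun h' => h h'.2)⟩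
      · have e1 := Finset.mem_singleton.mp (ha hj)
        subst e1
        simp only [if_neg h01, if_neg h02, if_true]
        obtain ⟨h1, h2⟩ := hce i hi
        exact ⟨fun h => h1 ⟨hj, h⟩, fun h => h2 (fun h' => h h'.2)⟩
      · exact absurd rfl hkm
      · simp only [if_neg h12.symm, if_true]
        exact hcd i hi j hj
      · have e1 := Finset.mem_singleton.mp (ha hj)
        subst e1
        simp only [if_neg h01, if_neg h02, if_neg h12.symm, if_true]
        obtain ⟨h1, h2⟩ := hde i hi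
        exact ⟨fun h => h1 ⟨hj, h⟩, fun h => h2 (fun h' => h h'.2)⟩
      · simp only [if_neg h12.symm, if_true]
        rw [hflip, add_comm]
        exact hcd j hj i hi
      · exact absurd rfl hkm
  exact ⟨_, key⟩

/-- sign check, with values shifted by `3` -/
def okp (r : Bool) (a b : ℕ) : Bool := if r then Nat.ble (a + b) 6 else Nat.ble 6 (a + b)

/-- candidate values (shifted by `3`) -/
def cands : List (ℕ × ℕ × ℕ × ℕ × ℕ × ℕ) :=
  [(0,6,0,6,0,6), (0,1,0,1,5,6), (0,1,5,6,0,1), (0,1,5,6,5,6), (3,4,2,3,2,3), (3,4,2,3,3,4),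
   (3,4,3,4,2,3), (0,1,1,2,4,5), (0,1,1,2,5,6), (0,1,5,6,1,2), (1,2,0,1,4,5), (1,2,0,1,5,6),
   (1,2,4,5,0,1), (1,2,4,5,5,6), (1,2,5,6,0,1), (1,2,5,6,4,5), (4,5,1,2,2,3), (4,5,2,3,1,2),
   (4,5,2,3,3,4), (0,1,0,1,0,1), (0,1,2,3,4,5), (1,2,1,2,5,6), (1,2,5,6,1,2), (1,2,5,6,5,6),
   (2,3,0,1,4,5), (2,3,4,5,0,1), (4,5,2,3,2,3)]

/-- all requirements for a candidate -/
def okc (a b c d e f g h i j k l : Bool) (x : ℕ × ℕ × ℕ × ℕ × ℕ × ℕ) : Bool :=
  let q0 := x.1
  let q1 := x.2.1
  let p0 := x.2.2.1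
  let p1 := x.2.2.2.1
  let r0 := x.2.2.2.2.1
  let r1 := x.2.2.2.2.2
  okp a q0 p0 && okp b q0 p1 && okp c q1 p0 && okp d q1 p1 &&
  okp e q0 r0 && okp f q0 r1 && okp g q1 r0 && okp h q1 r1 &&
  okp i p0 r0 && okp j p0 r1 && okp k p1 r0 && okp l p1 r1 &&
  Nat.blt q0 q1 && Nat.blt p0 p1 && Nat.blt r0 r1 && Nat.ble q1 6 && Nat.ble p1 6 && Nat.ble r1 6

/-- monotonicity of a `2 × 2` pattern -/
def mon (a b c d : Bool) : Bool := (!b || a) && (!c || a) && (!d || b) && (!d || c)

/-- the check -/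
def chk3 (a b c d e f g h i j k l : Bool) : Bool :=
  !(mon a b c d) || !(mon e f g h) || !(mon i j k l) || cands.any (okc a b c d e f g h i j k l)

lemma chk3_all : ∀ a b c d e f g h i j k l : Bool, chk3 a b c d e f g h i j k l = true := by
  decide +kernel

lemma solve_two (M : Fin 3 → Finset ℕ) (R : Fin 3 → ℕ → Fin 3 → ℕ → Prop)
    (hs : ∀ k i m j, R k i m j → R m j k i)
    (hd : ∀ k m, k ≠ m → ∀ i ∈ M k, ∀ i' ∈ M k, ∀ j ∈ M m, ∀ j' ∈ M m, i' ≤ i → j' ≤ j →
      R k i m j → R k i' m j') (h2 : ∀ k, (M k).card ≤ 2) :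
    ∃ c, Sol M R c := by
  classical
  by_cases hone : ∃ k, (M k).card ≤ 1
  · obtain ⟨k, hk⟩ := hone
    exact solve_single M R hs hd k hk
  push Not at hone
  have hab : ∀ k, ∃ a b : ℕ, a < b ∧ M k = {a, b} := by
    intro k
    have : (M k).card = 2 := le_antisymm (h2 k) (hone k)
    obtain ⟨x, y, hxy, hM⟩ := Finset.card_eq_two.mp this
    rcases lt_or_gt_of_ne hxy with h | h
    · exact ⟨x, y, h, hM⟩
    · exact ⟨y, x, h, by rw [hM, Finset.pair_comm]⟩
  choose a b hlt hM using hab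
  have ham : ∀ k, a k ∈ M k := fun k => by rw [hM]; simp
  have hbm : ∀ k, b k ∈ M k := fun k => by rw [hM]; simp
  have hmon : ∀ k m, k ≠ m → mon (decide (R k (a k) m (a m))) (decide (R k (a k) m (b m)))
      (decide (R k (b k) m (a m))) (decide (R k (b k) m (b m))) = true := by
    intro k m hkm
    have m1 := hd k m hkm (a k) (ham k) (a k) (ham k) (b m) (hbm m) (a m) (ham m) le_rfl
      (hlt m).le
    have m2 := hd k m hkm (b k) (hbm k) (a k) (ham k) (a m) (ham m) (a m) (ham m) (hlt k).le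
      le_rfl
    have m3 := hd k m hkm (b k) (hbm k) (a k) (ham k) (b m) (hbm m) (b m) (hbm m) (hlt k).le
      le_rfl
    have m4 := hd k m hkm (b k) (hbm k) (b k) (hbm k) (b m) (hbm m) (a m) (ham m) le_rfl
      (hlt m).le
    simp only [mon, Bool.and_eq_true, Bool.or_eq_true, Bool.not_eq_true', decide_eq_false_iff_not,
      decide_eq_true_eq]
    tauto
  have hall := chk3_all
    (decide (R 0 (a 0) 1 (a 1))) (decide (R 0 (a 0) 1 (b 1)))
    (decide (R 0 (b 0) 1 (a 1))) (decide (R 0 (b 0) 1 (b 1)))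
    (decide (R 0 (a 0) 2 (a 2))) (decide (R 0 (a 0) 2 (b 2)))
    (decide (R 0 (b 0) 2 (a 2))) (decide (R 0 (b 0) 2 (b 2)))
    (decide (R 1 (a 1) 2 (a 2))) (decide (R 1 (a 1) 2 (b 2)))
    (decide (R 1 (b 1) 2 (a 2))) (decide (R 1 (b 1) 2 (b 2)))
  unfold chk3 at hall
  rw [hmon 0 1 (by decide), hmon 0 2 (by decide), hmon 1 2 (by decide)] at hall
  simp only [Bool.not_true, Bool.false_or, List.any_eq_true] at hall
  obtain ⟨⟨q0, q1, p0, p1, r0, r1⟩, -, hx⟩ := hall
  simp only [okc, Bool.and_eq_true, Nat.ble_eq, Nat.blt_eq] at hx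
  obtain ⟨⟨⟨⟨⟨⟨⟨⟨⟨⟨⟨⟨⟨⟨⟨⟨⟨o1, o2⟩, o3⟩, o4⟩, o5⟩, o6⟩, o7⟩, o8⟩, o9⟩, o10⟩, o11⟩, o12⟩, l1⟩,
    l2⟩, l3⟩, b1⟩, b2⟩, b3⟩ := hx
  have hokp : ∀ (p : Prop) [Decidable p] (x y : ℕ), okp (decide p) x y = true →
      (p → ((x : ℝ) - 3) / 4 + ((y : ℝ) - 3) / 4 ≤ 0) ∧
      (¬ p → 0 ≤ ((x : ℝ) - 3) / 4 + ((y : ℝ) - 3) / 4) := by
    intro p _ x y h
    unfold okp at h
    constructor
    · intro hp
      simp only [hp, decide_true, if_true, Nat.ble_eq] at h
      have : (x : ℝ) + y ≤ 6 := by exact_mod_cast h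
      linarith
    · intro hp
      simp only [hp, decide_false, Bool.false_eq_true, if_false, Nat.ble_eq] at h
      have : (6 : ℝ) ≤ x + y := by exact_mod_cast h
      linarith
  -- the values
  let lo : Fin 3 → ℕ := ![q0, p0, r0]
  let hi : Fin 3 → ℕ := ![q1, p1, r1]
  have hlohi : ∀ k, lo k < hi k := by
    intro k
    fin_cases k
    · exact l1
    · exact l2
    · exact l3
  have hhi6 : ∀ k, hi k ≤ 6 := by
    intro k
    fin_cases k
    · exact b1
    · exact b2
    · exact b3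
  let v : Fin 3 → ℕ → ℕ := fun k i => if i = a k then lo k else hi k
  have hva : ∀ k, v k (a k) = lo k := fun k => by simp [v]
  have hvb : ∀ k, v k (b k) = hi k := fun k => by
    simp only [v]
    rw [if_neg (hlt k).ne']
  have hmem : ∀ k i, i ∈ M k → i = a k ∨ i = b k := by
    intro k i hi
    rw [hM] at hi
    simpa using hi
  have hcore : ∀ k m, k < m → ∀ i ∈ M k, ∀ j ∈ M m,
      okp (decide (R k i m j)) (v k i) (v m j) = true := by
    intro k m hkm i hi' j hj'
    have aux : ∀ k m : Fin 3, k < m →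
      (k = 0 ∧ m = 1) ∨ (k = 0 ∧ m = 2) ∨ (k = 1 ∧ m = 2) := by decide
    have hk := aux k m hkm
    rcases hk with ⟨rfl, rfl⟩ | ⟨rfl, rfl⟩ | ⟨rfl, rfl⟩ <;>
      rcases hmem _ _ hi' with rfl | rfl <;> rcases hmem _ _ hj' with rfl | rfl <;>
      simp only [hva, hvb] <;> assumption
  refine ⟨fun k i => ((v k i : ℝ) - 3) / 4, ?_, ?_, ?_⟩
  · intro k i hi'
    have h6 : v k i ≤ 6 := by
      rcases hmem _ _ hi' with rfl | rfl
      · rw [hva]
        exact (hlohi k).le.trans (hhi6 k)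
      · rw [hvb]
        exact hhi6 k
    have h6' : (v k i : ℝ) ≤ 6 := by exact_mod_cast h6
    have h0 : (0 : ℝ) ≤ v k i := by positivity
    rw [abs_lt]
    constructor <;> linarith
  · intro k i hi' i' hi'' hii
    rcases hmem _ _ hi' with rfl | rfl
    · rcases hmem _ _ hi'' with rfl | rfl
      · omega
      · change ((v k (a k) : ℝ) - 3) / 4 < ((v k (b k) : ℝ) - 3) / 4
        rw [hva, hvb]
        have : (lo k : ℝ) < hi k := by exact_mod_cast hlohi k
        linarith
    · have hlk := hlt k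
      rcases hmem _ _ hi'' with rfl | rfl <;> omega
  · intro k m hkm i hi' j hj'
    rcases lt_or_gt_of_ne hkm with h | h
    · exact hokp _ _ _ (hcore k m h i hi' j hj')
    · have hflip : (R k i m j ↔ R m j k i) := ⟨hs _ _ _ _, hs _ _ _ _⟩
      rw [hflip, add_comm]
      exact hokp _ _ _ (hcore m k h j hj' i hi')

end chains

namespace Th

variable {V : Type*} {G : SimpleGraph V} (T : Th G) {P : PathSystem G}

lemma ms_mono (hP : Consistent P) {k : Fin 3} {i i' : ℕ} (h0 : 0 < i') (hii : i' < i)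
    (hi : i < T.l k) (h : T.MS P k i) : T.MS P k i' := by
  rcases T.case_t hP (k := k) h0 (by omega) with ⟨-, h2, -⟩ | ⟨h1, -, -⟩
  · exact I_mono_right hP ((h2 (T.f k i)).mpr ⟨i, by omega, by omega, rfl⟩) h
  · exact h1

lemma mt_mono (hP : Consistent P) {k : Fin 3} {i i' : ℕ} (h0 : 0 < i) (hii : i < i')
    (hi : i' < T.l k) (h : T.MT P k i) : T.MT P k i' := by
  rcases T.case_s hP (k := k) (i := i') (by omega) hi with ⟨-, h2, -⟩ | ⟨h1, -, -⟩
  · exact I_mono_right hP ((h2 (T.f k i)).mpr ⟨i, by omega, rfl⟩) h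
  · exact h1

lemma not_ms_mt (hP : Consistent P) {k : Fin 3} {i : ℕ} (h1 : T.MS P k i) (h2 : T.MT P k i) :
    False :=
  T.st (I_anti hP h1 h2).symm

lemma not_ms_X (hP : Consistent P) {X : Fin 3}
    (hX : ∀ z, I P T.s T.t z ↔ ∃ m, m ≤ T.l X ∧ z = T.f X m) {i : ℕ} (h0 : 0 < i)
    (hi : i < T.l X) : ¬ T.MS P X i := by
  intro h
  have hu : I P T.s T.t (T.f X i) := (hX _).mpr ⟨i, hi.le, rfl⟩
  exact T.ne_s X i h0 hi (I_anti hP (I_symm.mp h) (I_symm.mp hu))

lemma not_mt_X (hP : Consistent P) {X : Fin 3}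
    (hX : ∀ z, I P T.s T.t z ↔ ∃ m, m ≤ T.l X ∧ z = T.f X m) {i : ℕ} (h0 : 0 < i)
    (hi : i < T.l X) : ¬ T.MT P X i := by
  intro h
  have hu : I P T.s T.t (T.f X i) := (hX _).mpr ⟨i, hi.le, rfl⟩
  exact T.ne_t X i h0 hi (I_anti hP (I_symm.mp h) hu)

lemma tau_mono (hP : Consistent P) {k : Fin 3} {i i' j j' : ℕ} (h0 : 0 < i) (hii : i ≤ i')
    (hij : i < j) (hjj : j' ≤ j) (hj : j < T.l k)
    (h : ¬ I P (T.f k i) (T.f k j) T.s) (h1 : i' ≤ j') : ¬ I P (T.f k i') (T.f k j') T.s := by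
  rcases T.case_same hP h0 hij hj with ⟨-, h2, -⟩ | ⟨h2, -, -⟩
  · intro h3
    exact h (I_sub hP ((h2 (T.f k i')).mpr ⟨i', hii, by omega, rfl⟩)
      ((h2 (T.f k j')).mpr ⟨j', by omega, hjj, rfl⟩) h3)
  · exact absurd h2 h

lemma around (hP : Consistent P) {k : Fin 3} {i j : ℕ} (h0 : 0 < i) (hij : i < j)
    (hj : j < T.l k) (h : I P (T.f k i) (T.f k j) T.s) : T.MS P k i ∧ T.MT P k j := by
  have h' := I_symm.mp h
  have hMT : T.MT P k j := by
    rcases T.case_s hP (k := k) (i := j) (by omega) hj with ⟨-, h2, -⟩ | ⟨h1, -, -⟩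
    · exfalso
      have hu : I P (T.f k j) T.s (T.f k i) := (h2 _).mpr ⟨i, hij.le, rfl⟩
      exact T.ne_s k i h0 (by omega) (I_anti hP hu h').symm
    · exact h1
  exact ⟨I_symm.mp (I_order hP hMT h'), hMT⟩

lemma sigma_mono (hP : Consistent P) {k m : Fin 3} {i i' j j' : ℕ} (h0 : 0 < i')
    (hii : i' ≤ i) (hi : i < T.l k) (h1 : 0 < j') (hjj : j' ≤ j) (hj : j < T.l m)
    (hi1 : ¬ T.MT P k i) (hj1 : ¬ T.MT P m j) (h : I P (T.f k i) (T.f m j) T.s) :
    I P (T.f k i') (T.f m j') T.s := by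
  have hSi : T.SuppS P k i := by
    rcases T.case_s hP (k := k) (i := i) (by omega) hi with ⟨-, h2, -⟩ | ⟨h2, -, -⟩
    · exact h2
    · exact absurd h2 hi1
  have hSj : T.SuppS P m j := by
    rcases T.case_s hP (k := m) (i := j) (by omega) hj with ⟨-, h2, -⟩ | ⟨h2, -, -⟩
    · exact h2
    · exact absurd h2 hj1
  have h2 : I P (T.f k i') (T.f m j) T.s :=
    I_order hP ((hSi (T.f k i')).mpr ⟨i', hii, rfl⟩) h
  have h3 : I P (T.f m j') (T.f k i') T.s :=
    I_order hP ((hSj (T.f m j')).mpr ⟨j', hjj, rfl⟩) (I_symm.mp h2)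
  exact I_symm.mp h3

/-- inner vertices whose paths to both branch vertices are direct -/
noncomputable def mid (P : PathSystem G) (k : Fin 3) : Finset ℕ := by
  classical
  exact (Finset.range (T.l k)).filter (fun i => 0 < i ∧ ¬ T.MS P k i ∧ ¬ T.MT P k i)

lemma mem_mid {k : Fin 3} {i : ℕ} : i ∈ T.mid P k ↔
    i < T.l k ∧ 0 < i ∧ ¬ T.MS P k i ∧ ¬ T.MT P k i := by
  classical
  unfold mid
  rw [Finset.mem_filter, Finset.mem_range]

lemma card_mid (k : Fin 3) : (T.mid P k).card ≤ T.l k - 1 := by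
  have h : T.mid P k ⊆ Finset.Ico 1 (T.l k) := by
    intro i hi
    rw [mem_mid] at hi
    rw [Finset.mem_Ico]
    omega
  have := Finset.card_le_card h
  rwa [Nat.card_Ico] at this

/-- Positions of the vertices of a leg that do not reach both branch vertices directly. -/
lemma exists_outer (hP : Consistent P) (k : Fin 3) : ∃ u v : ℕ → ℝ,
    (∀ i, 0 < i → i < T.l k → T.MS P k i → 0 < u i ∧ u i < 1) ∧
    (∀ i, 0 < i → i < T.l k → T.MT P k i → 0 < v i ∧ v i < 1) ∧
    (∀ i j, 0 < i → i < j → j < T.l k → T.MS P k i → T.MS P k j → u j < u i) ∧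
    (∀ i j, 0 < i → i < j → j < T.l k → T.MT P k i → T.MT P k j → v i < v j) ∧
    (∀ i j, 0 < i → i < j → j < T.l k → T.MS P k i → T.MT P k j →
      (¬ I P (T.f k i) (T.f k j) T.s → u i + v j ≤ 1) ∧
      (I P (T.f k i) (T.f k j) T.s → 1 ≤ u i + v j)) := by
  classical
  let α : Finset ℕᵒᵈ := ((Finset.range (T.l k)).filter (fun i => 0 < i ∧ T.MS P k i)).map
    OrderDual.toDual.toEmbedding
  let β : Finset ℕ := (Finset.range (T.l k)).filter (fun i => 0 < i ∧ T.MT P k i)
  have hα : ∀ i : ℕᵒᵈ, i ∈ α ↔ OrderDual.ofDual i < T.l k ∧ 0 < OrderDual.ofDual i ∧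
      T.MS P k (OrderDual.ofDual i) := by
    intro i
    simp only [α, Finset.mem_map, Finset.mem_filter, Finset.mem_range,
      Equiv.toEmbedding_apply]
    constructor
    · rintro ⟨a, ⟨h1, h2, h3⟩, rfl⟩
      exact ⟨h1, h2, h3⟩
    · rintro ⟨h1, h2, h3⟩
      exact ⟨OrderDual.ofDual i, ⟨h1, h2, h3⟩, rfl⟩
  have hβ : ∀ i : ℕ, i ∈ β ↔ i < T.l k ∧ 0 < i ∧ T.MT P k i := by
    intro i
    simp only [β, Finset.mem_filter, Finset.mem_range]
  have hlt : ∀ i j, 0 < i → i < T.l k → 0 < j → j < T.l k → T.MS P k i → T.MT P k j →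
      i < j := by
    intro i j h0 hi h1 hj hms hmt
    by_contra h
    rcases lt_or_eq_of_le (not_lt.mp h) with h | h
    · exact T.not_ms_mt hP (T.ms_mono hP h1 h hi hms) hmt
    · rw [h] at hmt
      exact T.not_ms_mt hP hms hmt
  obtain ⟨c, d, N, hN, hc, hd, hcm, hdm, hcd⟩ := two_chain α β
    (fun i j => ¬ I P (T.f k (OrderDual.ofDual i)) (T.f k j) T.s) (by
      intro i hi i' hi' j hj j' hj' hii hjj h
      rw [hα] at hi hi'
      rw [hβ] at hj hj'
      have h1 : OrderDual.ofDual i ≤ OrderDual.ofDual i' := hii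
      exact T.tau_mono hP hi.2.1 h1 (hlt _ _ hi.2.1 hi.1 hj.2.1 hj.1 hi.2.2 hj.2.2) hjj hj.1 h
        (hlt _ _ hi'.2.1 hi'.1 hj'.2.1 hj'.1 hi'.2.2 hj'.2.2).le)
  have hK : 0 < 1 / (4 * N) := by positivity
  have hKN : 1 / (4 * N) * N = 1 / 4 := by field_simp
  set K := 1 / (4 * N) with hKdef
  have hb : ∀ x : ℝ, |x| ≤ N → -(1 / 4) ≤ K * x ∧ K * x ≤ 1 / 4 := by
    intro x hx
    rw [← abs_le, abs_mul, abs_of_pos hK, ← hKN]
    exact mul_le_mul_of_nonneg_left hx hK.le
  refine ⟨fun i => 1 / 2 + K * c (OrderDual.toDual i), fun j => 1 / 2 + K * d j, ?_, ?_, ?_,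
    ?_, ?_⟩
  · intro i h0 hi hms
    have := hb _ (hc (OrderDual.toDual i) ((hα _).mpr ⟨hi, h0, hms⟩))
    constructor <;> linarith [this.1, this.2]
  · intro i h0 hi hms
    have := hb _ (hd i ((hβ _).mpr ⟨hi, h0, hms⟩))
    constructor <;> linarith [this.1, this.2]
  · intro i j h0 hij hj h1 h2
    have := hcm (OrderDual.toDual j) ((hα _).mpr ⟨hj, by change 0 < j; omega, h2⟩)
      (OrderDual.toDual i) ((hα _).mpr ⟨by change i < T.l k; omega, h0, h1⟩)
      (OrderDual.toDual_lt_toDual.mpr hij)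
    have := mul_lt_mul_of_pos_left this hK
    linarith
  · intro i j h0 hij hj h1 h2
    have := hdm i ((hβ _).mpr ⟨by omega, h0, h1⟩) j ((hβ _).mpr ⟨hj, by omega, h2⟩) hij
    have := mul_lt_mul_of_pos_left this hK
    linarith
  · intro i j h0 hij hj h1 h2
    obtain ⟨h3, h4⟩ := hcd (OrderDual.toDual i)
      ((hα _).mpr ⟨by change i < T.l k; omega, h0, h1⟩) j ((hβ _).mpr ⟨hj, by omega, h2⟩)
    constructor
    · intro h
      have h5 := h3 h
      have : K * (c (OrderDual.toDual i) + d j) ≤ 0 :=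
        mul_nonpos_of_nonneg_of_nonpos hK.le (by linarith)
      linarith
    · intro h
      have h5 := h4 (fun h' => h' h)
      have : 0 ≤ K * (c (OrderDual.toDual i) + d j) := mul_nonneg hK.le (by linarith)
      linarith

/-- The reduction: if the middle parts can be realised then there is a weight. -/
theorem metrizable_of_sol (hsol : ∀ P : PathSystem G, Consistent P →
    ∃ c, Sol (T.mid P) (fun k i m j => I P (T.f k i) (T.f m j) T.s) c) : Metrizable G := by
  classical
  intro P hP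
  obtain ⟨X, hXsupp, hXw⟩ := T.exists_X hP
  obtain ⟨cm, hcm1, hcm2, hcm3⟩ := hsol P hP
  choose u v hu hv hum hvm huv using fun k => T.exists_outer hP k
  have hXS := fun {i : ℕ} => T.not_ms_X hP hXsupp (i := i)
  have hXT := fun {i : ℕ} => T.not_mt_X hP hXsupp (i := i)
  let L : Fin 3 → ℝ := fun k => if k = X then 1 else 2
  have hLX : L X = 1 := by simp [L]
  have hL1 : ∀ k, 1 ≤ L k := by
    intro k
    by_cases h : k = X
    · simp [L, h]
    · simp [L, h]
  have hLne : ∀ k, k ≠ X → L k = 2 := fun k h => by simp [L, h]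
  let c : Fin 3 → ℕ → ℝ := fun k i =>
    if i = 0 then - L k else if T.l k ≤ i then L k else
      if T.MS P k i then -1 - u k i else if T.MT P k i then 1 + v k i else cm k i
  have c_zero : ∀ k, c k 0 = - L k := fun k => by simp [c]
  have c_last : ∀ k i, 0 < i → T.l k ≤ i → c k i = L k := by
    intro k i h0 h
    simp only [c]
    rw [if_neg (by omega), if_pos h]
  have c_S : ∀ k i, 0 < i → i < T.l k → T.MS P k i → c k i = -1 - u k i := by
    intro k i h0 hi h
    simp only [c]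
    rw [if_neg (by omega), if_neg (by omega), if_pos h]
  have c_T : ∀ k i, 0 < i → i < T.l k → T.MT P k i → c k i = 1 + v k i := by
    intro k i h0 hi h
    simp only [c]
    rw [if_neg (by omega), if_neg (by omega), if_neg (fun h' => T.not_ms_mt hP h' h), if_pos h]
  have c_M : ∀ k i, 0 < i → i < T.l k → ¬ T.MS P k i → ¬ T.MT P k i → c k i = cm k i := by
    intro k i h0 hi h h'
    simp only [c]
    rw [if_neg (by omega), if_neg (by omega), if_neg h, if_neg h']
  have kX_S : ∀ k i, 0 < i → i < T.l k → T.MS P k i → L k = 2 := by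
    intro k i h0 hi h
    apply hLne
    rintro rfl
    exact hXS h0 hi h
  have kX_T : ∀ k i, 0 < i → i < T.l k → T.MT P k i → L k = 2 := by
    intro k i h0 hi h
    apply hLne
    rintro rfl
    exact hXT h0 hi h
  -- trichotomy with bounds
  have tri : ∀ k i, 0 < i → i < T.l k →
      (T.MS P k i ∧ ¬ T.MT P k i ∧ L k = 2 ∧ -2 < c k i ∧ c k i < -1) ∨
      (¬ T.MS P k i ∧ T.MT P k i ∧ L k = 2 ∧ 1 < c k i ∧ c k i < 2) ∨
      (¬ T.MS P k i ∧ ¬ T.MT P k i ∧ c k i = cm k i ∧ -1 < c k i ∧ c k i < 1) := by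
    intro k i h0 hi
    by_cases h1 : T.MS P k i
    · left
      obtain ⟨a1, a2⟩ := hu k i h0 hi h1
      refine ⟨h1, fun h => T.not_ms_mt hP h1 h, kX_S k i h0 hi h1, ?_, ?_⟩ <;>
        rw [c_S k i h0 hi h1] <;> linarith
    · by_cases h2 : T.MT P k i
      · right; left
        obtain ⟨a1, a2⟩ := hv k i h0 hi h2
        refine ⟨h1, h2, kX_T k i h0 hi h2, ?_, ?_⟩ <;>
          rw [c_T k i h0 hi h2] <;> linarith
      · right; right
        have := abs_lt.mp (hcm1 k i (T.mem_mid.mpr ⟨hi, h0, h1, h2⟩))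
        refine ⟨h1, h2, c_M k i h0 hi h1 h2, ?_, ?_⟩ <;>
          rw [c_M k i h0 hi h1 h2] <;> linarith [this.1, this.2]
  have hgood : T.Good P X c L := by
    refine ⟨c_zero, ?_, ?_, ?_, ?_, ?_, ?_, ?_, ?_, ?_, ?_, ?_, ?_⟩
    · intro k
      have := T.two_le k
      exact c_last k _ (by omega) le_rfl
    · intro k i hi
      have hl := T.two_le k
      have hLk := hL1 k
      rcases Nat.eq_zero_or_pos i with h0 | h0
      · subst h0
        rw [c_zero]
        rcases tri k 1 one_pos (by omega) with h | h | h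
        · linarith [h.2.2.1, h.2.2.2.1]
        · linarith [h.2.2.1, h.2.2.2.1]
        · linarith [h.2.2.2.1]
      · rcases Nat.lt_or_ge (i + 1) (T.l k) with h1 | h1
        · rcases tri k i h0 hi with h | h | h
          · rcases tri k (i + 1) (by omega) h1 with h' | h' | h'
            · rw [c_S k i h0 hi h.1, c_S k (i + 1) (by omega) h1 h'.1]
              have := hum k i (i + 1) h0 (by omega) h1 h.1 h'.1
              linarith
            · linarith [h.2.2.2.2, h'.2.2.2.1]
            · linarith [h.2.2.2.2, h'.2.2.2.1]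
          · have h' := T.mt_mono hP h0 (Nat.lt_succ_self i) h1 h.2.1
            rw [c_T k i h0 hi h.2.1, c_T k (i + 1) (by omega) h1 h']
            have := hvm k i (i + 1) h0 (by omega) h1 h.2.1 h'
            linarith
          · rcases tri k (i + 1) (by omega) h1 with h' | h' | h'
            · exact absurd (T.ms_mono hP h0 (Nat.lt_succ_self i) h1 h'.1) h.1
            · linarith [h.2.2.2.2, h'.2.2.2.1]
            · rw [h.2.2.1, h'.2.2.1]
              exact hcm2 k i (T.mem_mid.mpr ⟨hi, h0, h.1, h.2.1⟩) (i + 1)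
                (T.mem_mid.mpr ⟨h1, by omega, h'.1, h'.2.1⟩) (Nat.lt_succ_self i)
        · rw [c_last k (i + 1) (by omega) h1]
          rcases tri k i h0 hi with h | h | h
          · linarith [h.2.2.1, h.2.2.2.2]
          · linarith [h.2.2.1, h.2.2.2.2]
          · linarith [h.2.2.2.2]
    · intro k
      rw [hLX]
      exact hL1 k
    · rw [hLX]
      norm_num
    · intro k i h0 hi h
      rw [hLX]
      rcases tri k i h0 hi with h' | h' | h'
      · linarith [h'.2.2.2.2]
      · exact absurd h h'.1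
      · exact absurd h h'.1
    · intro k i h0 hi h
      rw [hLX]
      rcases tri k i h0 hi with h' | h' | h'
      · exact absurd h'.1 h
      · linarith [h'.2.2.2.1]
      · linarith [h'.2.2.2.1]
    · intro k i h0 hi h
      rw [hLX]
      rcases tri k i h0 hi with h' | h' | h'
      · exact absurd h h'.2.1
      · linarith [h'.2.2.2.1]
      · exact absurd h h'.2.1
    · intro k i h0 hi h
      rw [hLX]
      rcases tri k i h0 hi with h' | h' | h'
      · linarith [h'.2.2.2.2]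
      · exact absurd h'.2.1 h
      · linarith [h'.2.2.2.2]
    · intro k m i j hkm h0 hi h1 hj a1 a2 a3 a4 h
      rw [c_M k i h0 hi a1 a2, c_M m j h1 hj a3 a4]
      exact (hcm3 k m hkm i (T.mem_mid.mpr ⟨hi, h0, a1, a2⟩) j
        (T.mem_mid.mpr ⟨hj, h1, a3, a4⟩)).1 h
    · intro k m i j hkm h0 hi h1 hj a1 a2 a3 a4 h
      rw [c_M k i h0 hi a1 a2, c_M m j h1 hj a3 a4]
      exact (hcm3 k m hkm i (T.mem_mid.mpr ⟨hi, h0, a1, a2⟩) j
        (T.mem_mid.mpr ⟨hj, h1, a3, a4⟩)).2 h
    · intro k i j h0 hij hj h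
      obtain ⟨h1, h2⟩ := T.around hP h0 hij hj h
      rw [hLX, kX_S k i h0 (by omega) h1, c_S k i h0 (by omega) h1, c_T k j (by omega) hj h2]
      have := (huv k i j h0 hij hj h1 h2).2 h
      linarith
    · intro k i j h0 hij hj h
      rw [hLX]
      have hLk := hL1 k
      rcases tri k i h0 (by omega) with h1 | h1 | h1
      · rcases tri k j (by omega) hj with h2 | h2 | h2
        · linarith [h1.2.2.1, h1.2.2.2.1, h2.2.2.2.2]
        · rw [h1.2.2.1, c_S k i h0 (by omega) h1.1, c_T k j (by omega) hj h2.2.1]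
          have := (huv k i j h0 hij hj h1.1 h2.2.1).1 h
          linarith
        · linarith [h1.2.2.1, h1.2.2.2.1, h2.2.2.2.2]
      · rcases tri k j (by omega) hj with h2 | h2 | h2
        · linarith [h1.2.2.1, h1.2.2.2.1, h2.2.2.2.2]
        · linarith [h1.2.2.1, h1.2.2.2.1, h2.2.2.2.2]
        · linarith [h1.2.2.1, h1.2.2.2.1, h2.2.2.2.2]
      · rcases tri k j (by omega) hj with h2 | h2 | h2
        · linarith [h2.2.2.1, h1.2.2.2.1, h2.2.2.2.2]
        · linarith [h2.2.2.1, h1.2.2.2.1, h2.2.2.2.2]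
        · linarith [h1.2.2.2.1, h2.2.2.2.2]
  exact T.exists_weight hP hXw hgood

lemma sol_down (hP : Consistent P) : ∀ k m, k ≠ m → ∀ i ∈ T.mid P k, ∀ i' ∈ T.mid P k,
    ∀ j ∈ T.mid P m, ∀ j' ∈ T.mid P m, i' ≤ i → j' ≤ j →
      I P (T.f k i) (T.f m j) T.s → I P (T.f k i') (T.f m j') T.s := by
  intro k m _ i hi i' hi' j hj j' hj' hii hjj h
  rw [mem_mid] at hi hi' hj hj'
  exact T.sigma_mono hP hi'.2.1 hii hi.1 hj'.2.1 hjj hj.1 hi.2.2.2 hj.2.2.2 h

theorem metrizable_of_two (k0 : Fin 3) (h : T.l k0 = 2) : Metrizable G := by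
  apply T.metrizable_of_sol
  intro P hP
  refine solve_single _ _ (fun k i m j h => I_symm.mp h) (T.sol_down hP) k0 ?_
  have := T.card_mid (P := P) k0
  omega

theorem metrizable_of_three (h : ∀ k, T.l k ≤ 3) : Metrizable G := by
  apply T.metrizable_of_sol
  intro P hP
  refine solve_two _ _ (fun k i m j h => I_symm.mp h) (T.sol_down hP) ?_
  intro k
  have := T.card_mid (P := P) k
  have := h k
  omega

end Th

end Pool.Agent.R204.TH
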